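import Pool.Agent.P.MP_119182_lc.UM.Iface

/-! Step ACARD. -/

set_option autoImplicit false
set_option linter.unusedSectionVars false

namespace Pool.Agent.P.MP_119182_lc.UM

open Finset

namespace ACARDx

theorem close {y z q : ℕ} (hq : 0 < q) (h : Nat.dist y z ≤ q) :
    y / q ≤ z / q + 1 ∧ z / q ≤ y / q + 1 := by
  rw [← Nat.add_div_right _ hq, ← Nat.add_div_right _ hq]
  unfold Nat.dist at h
  exact ⟨Nat.div_le_div_right (by omega), Nat.div_le_div_right (by omega)⟩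

end ACARDx

theorem p_ACARD (hREC : S_REC) (hNEAR : S_NEAR) :
    S_ACARD := by
  intro m u σ i a hu
  have hq : 0 < 2 ^ σ := Nat.two_pow_pos σ
  refine ⟨?_, fun lo hi h => ?_⟩
  · have h1 : act a u m σ i ⊆ (insert (a i) (Rc a (2 ^ u) i)).biUnion fun z =>
        {z / 2 ^ σ - 1, z / 2 ^ σ, z / 2 ^ σ + 1} := fun B hB => by
      obtain ⟨y, rfl, z, hz, d⟩ := hNEAR m u σ i a hu B hB
      have := ACARDx.close hq d
      refine mem_biUnion.2 ⟨z, hz, ?_⟩
      simp only [mem_insert, mem_singleton]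
      generalize y / 2 ^ σ = b, z / 2 ^ σ = c at this ⊢
      omega
    refine (card_le_card h1).trans ((card_biUnion_le_card_mul _ _ 3 fun z _ =>
      card_le_three).trans ?_)
    have := card_insert_le (a i) (Rc a (2 ^ u) i)
    have := (hREC a (2 ^ u) i).1
    omega
  · have h1 : ((act a u m σ i).filter fun B => ∃ v ∈ Ioo lo hi, v / 2 ^ σ = B) ⊆
        [lo / 2 ^ σ, lo / 2 ^ σ + 1, hi / 2 ^ σ - 1, hi / 2 ^ σ, a i / 2 ^ σ - 1, a i / 2 ^ σ,
          a i / 2 ^ σ + 1].toFinset := fun B hB => by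
      obtain ⟨hB, v, hv, e⟩ := mem_filter.1 hB
      obtain ⟨y, rfl, z, hz, d⟩ := hNEAR m u σ i a hu B hB
      have := ACARDx.close hq d
      rw [mem_Ioo] at hv
      have a1 : lo / 2 ^ σ ≤ v / 2 ^ σ := Nat.div_le_div_right hv.1.le
      have a2 : v / 2 ^ σ ≤ hi / 2 ^ σ := Nat.div_le_div_right hv.2.le
      simp only [List.mem_toFinset, List.mem_cons, List.not_mem_nil, or_false]
      have a3 : z / 2 ^ σ = a i / 2 ^ σ ∨ z / 2 ^ σ ≤ lo / 2 ^ σ ∨ hi / 2 ^ σ ≤ z / 2 ^ σ := by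
        rcases mem_insert.1 hz with rfl | hz
        · exact Or.inl rfl
        · exact Or.inr ((h z hz).imp Nat.div_le_div_right Nat.div_le_div_right)
      rw [e] at a1 a2
      generalize y / 2 ^ σ = b, z / 2 ^ σ = c, lo / 2 ^ σ = l, hi / 2 ^ σ = k,
        a i / 2 ^ σ = w at this a1 a2 a3 ⊢
      omega
    exact (card_le_card h1).trans (List.toFinset_card_le _)

end Pool.Agent.P.MP_119182_lc.UM
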