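import Pool.Agent.P.MP_119182_lc.UM.Iface

/-! Step ACK. -/

set_option autoImplicit false
set_option linter.unusedSectionVars false

namespace Pool.Agent.P.MP_119182_lc.UM

open Finset

namespace ACKx

theorem step (k r : ℕ) : FF (k + 1) (r + 1) = FF (k + 1) r + FF k (2 ^ FF (k + 1) r) := rfl

theorem mono (k : ℕ) : Monotone (FF (k + 1)) :=
  monotone_nat_of_le_succ fun r => by rw [step]; omega

theorem le_FF (k : ℕ) : (∀ r, 1 ≤ r → 1 ≤ FF k r) ∧ ∀ r, r ≤ FF (k + 1) r := by
  have key : ∀ k, (∀ r, 1 ≤ r → 1 ≤ FF k r) → ∀ r, r ≤ FF (k + 1) r := fun k h r => by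
    induction r with
    | zero => exact Nat.zero_le _
    | succ r ih =>
      have := h _ (Nat.one_le_two_pow (n := FF (k + 1) r))
      rw [step]
      omega
  induction k with
  | zero => exact ⟨fun _ _ => le_rfl, key 0 fun _ _ => le_rfl⟩
  | succ k ih => exact ⟨fun r hr => hr.trans (ih.2 r), key _ fun r hr => hr.trans (ih.2 r)⟩

end ACKx

theorem p_ACK :
    S_ACK := by
  intro k
  induction k with
  | zero =>
    intro j
    have := (ACKx.le_FF 0).2 (j + 4)
    rw [ack_zero]
    omega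
  | succ k ih =>
    intro j
    induction j with
    | zero =>
      have a1 := (ACKx.le_FF (k + 1)).2 3
      have a2 : 2 ^ 3 ≤ 2 ^ FF (k + 1 + 1) 3 := Nat.pow_le_pow_right (by norm_num) a1
      have a3 := ACKx.mono k (show 1 + 4 ≤ 2 ^ FF (k + 1 + 1) 3 by omega)
      have a4 := ih 1
      rw [ack_succ_zero, show 0 + 4 = 3 + 1 from rfl, ACKx.step]
      omega
    | succ j ihj =>
      have a1 : FF (k + 1 + 1) (j + 4) < 2 ^ FF (k + 1 + 1) (j + 4) := Nat.lt_two_pow_self
      have a2 := ACKx.mono k (show ack (k + 1) j + 4 ≤ 2 ^ FF (k + 1 + 1) (j + 4) by omega)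
      have a3 := ih (ack (k + 1) j)
      rw [ack_succ_succ, show j + 1 + 4 = j + 4 + 1 from rfl, ACKx.step]
      omega

end Pool.Agent.P.MP_119182_lc.UM
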