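import Pool.Agent.P.MP_119182_lc.UM.Iface

/-! Step ANC. -/

set_option autoImplicit false
set_option linter.unusedSectionVars false

namespace Pool.Agent.P.MP_119182_lc.UM

open Finset

namespace ANCx

theorem lamr_ord : ∀ {t : BT} {c d : ℕ} (y z : ℕ), Ord t c d → y ∈ t.keys → y < z →
    z < hi t y d → y ≤ lo t z c ∧ hi t z d ≤ hi t y d
  | BT.nil, _, _, _, _, _, hy, _, _ => by simp [BT.keys] at hy
  | BT.node l k r, c, d, y, z, h, hy, h1, h2 => by
    simp only [BT.keys, List.mem_append, List.mem_cons] at hy
    rcases hy with hy | hy | hy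
    · have a := (Ord.mem h.1 hy).2
      simp only [hi, a, if_true] at h2
      have b : z < k := lt_of_lt_of_le h2 (hi_le y h.1)
      simp only [lo, hi, a, b, if_true]
      exact lamr_ord y z h.1 hy h1 h2
    · subst hy
      have b : ¬ z < y := by omega
      simp only [lo, hi, h1, b, lt_irrefl, if_true, if_false] at h2 ⊢
      exact ⟨le_lo z h.2, hi_le z h.2⟩
    · have a := (Ord.mem h.2 hy).1
      have a' : ¬ y < k := by omega
      have b : k < z := by omega
      have b' : ¬ z < k := by omega
      simp only [lo, hi, a, a', b, b', if_true, if_false] at h2 ⊢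
      exact lamr_ord y z h.2 hy h1 h2

theorem anc_ord : ∀ {t : BT} {c d : ℕ} (y : ℕ), Ord t c d → y ∈ t.keys → hi t y d < d →
    lo t (hi t y d) c ≤ lo t y c
  | BT.nil, _, _, _, _, hy, _ => by simp [BT.keys] at hy
  | BT.node l k r, c, d, y, h, hy, h1 => by
    simp only [BT.keys, List.mem_append, List.mem_cons] at hy
    rcases hy with hy | hy | hy
    · have a := (Ord.mem h.1 hy).2
      have e : hi (BT.node l k r) y d = hi l y k := by simp only [hi, a, if_true]
      rw [e]
      rcases (hi_le y h.1).lt_or_eq with b | b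
      · simp only [lo, a, b, if_true]
        exact anc_ord y h.1 hy b
      · rw [b]
        simp only [lo, a, lt_irrefl, if_true, if_false]
        exact le_lo y h.1
    · subst hy
      simp only [hi, lt_irrefl, if_false] at h1
    · have a := (Ord.mem h.2 hy).1
      have a2 := (Ord.mem h.2 hy).2
      have a' : ¬ y < k := by omega
      have e : hi (BT.node l k r) y d = hi r y d := by simp only [hi, a, a', if_true, if_false]
      rw [e] at h1 ⊢
      have b0 := lt_hi r y d a2
      have b : k < hi r y d := by omega
      have b' : ¬ hi r y d < k := by omega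
      simp only [lo, a, a', b, b', if_true, if_false]
      exact anc_ord y h.2 hy h1

end ANCx

theorem p_ANC :
    S_ANC := by
  intro n T hT
  have o := ord_of_keys hT
  have hm : ∀ y, 1 ≤ y → y ≤ n → y ∈ T.keys := fun y h1 h2 => by
    rw [hT, List.mem_range'_1]; omega
  refine ⟨fun y z h1 h2 h3 h4 => ANCx.lamr_ord y z o (hm y h1 h2) h3 h4, fun y h1 h2 h3 => ?_⟩
  exact ANCx.anc_ord y o (hm y h1 h2) (Nat.lt_succ_of_le h3)

end Pool.Agent.P.MP_119182_lc.UM
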