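import Pool.Agent.P.MP_119182_lc.UM.Iface

/-! Step BASE. -/

set_option autoImplicit false
set_option linter.unusedSectionVars false

namespace Pool.Agent.P.MP_119182_lc.UM

open Finset

namespace BASEx

theorem two {s s' : ℕ} (h1 : s ≤ s') (h2 : s' ≤ s + 1) (v : ℕ) :
    v / 2 ^ s = 2 ^ (s' - s) * (v / 2 ^ s') ∨ v / 2 ^ s = 2 ^ (s' - s) * (v / 2 ^ s') + 1 := by
  rcases Nat.eq_or_lt_of_le h1 with rfl | h
  · simp
  · obtain rfl : s' = s + 1 := by omega
    rw [pow_succ, ← Nat.div_div_eq_div_mul, Nat.add_sub_cancel_left, pow_one]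
    omega

theorem pt (d : Dat) (hd : d.OK) {s s' i : ℕ} (h0 : d.s0 ≤ s) (h1 : s ≤ s') (h3 : s' ≤ d.S)
    (h2 : s' ≤ s + 1) (hi : i < d.m) : d.cI s s' i ≤ 14 + d.cU s s' i := by
  obtain ⟨a, b, hab, h7⟩ := hd.near i hi
  have h7' := h7 s' (h0.trans h1) h3
  set B := (d.Act s' i).filter fun B => ∃ v ∈ Ioo a b, v / 2 ^ s' = B with hB
  have hs : (d.El s s' i).image (fun v => v / 2 ^ s) ⊆
      (B.image (fun q => 2 ^ (s' - s) * q) ∪ B.image (fun q => 2 ^ (s' - s) * q + 1)) ∪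
        (d.El s s' i ∩ d.Up i).image fun v => v / 2 ^ s := by
    intro z hz
    obtain ⟨v, hv, rfl⟩ := mem_image.1 hz
    by_cases hu : v ∈ d.Up i
    · exact mem_union_right _ (mem_image_of_mem _ (mem_inter.2 ⟨hv, hu⟩))
    · obtain ⟨hp, -, hA⟩ := mem_filter.1 hv
      have hm : v / 2 ^ s' ∈ B := mem_filter.2 ⟨hA, v, mem_Ioo.2 (hab v hp hu), rfl⟩
      refine mem_union_left _ ?_
      rcases two h1 h2 v with e | e
      · exact mem_union_left _ (mem_image.2 ⟨_, hm, e.symm⟩)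
      · exact mem_union_right _ (mem_image.2 ⟨_, hm, e.symm⟩)
  have c1 := card_le_card hs
  have c2 := card_union_le (B.image (fun q => 2 ^ (s' - s) * q) ∪
    B.image (fun q => 2 ^ (s' - s) * q + 1)) ((d.El s s' i ∩ d.Up i).image fun v => v / 2 ^ s)
  have c3 := card_union_le (B.image (fun q => 2 ^ (s' - s) * q))
    (B.image (fun q => 2 ^ (s' - s) * q + 1))
  have c4 : (B.image (fun q => 2 ^ (s' - s) * q)).card ≤ B.card := card_image_le
  have c5 : (B.image (fun q => 2 ^ (s' - s) * q + 1)).card ≤ B.card := card_image_le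
  have c6 : ((d.El s s' i ∩ d.Up i).image fun v => v / 2 ^ s).card ≤
    (d.El s s' i ∩ d.Up i).card := card_image_le
  unfold Dat.cI Dat.cU nP
  omega

end BASEx

theorem p_BASE :
    S_BASE := by
  intro d hd s s' lam h h0 h1 h3 h2 _
  refine le_trans (Nat.mul_le_mul_left _ ?_) (Nat.le_add_right _ _)
  rw [one_mul]
  refine sum_le_sum fun i hi => ?_
  have := BASEx.pt d hd h0 h1 h3 h2 (mem_range.1 hi)
  omega

end Pool.Agent.P.MP_119182_lc.UM
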