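import Pool.Agent.P.MP_119182_lc.UM.Iface

/-! Step BIR. -/

set_option autoImplicit false
set_option linter.unusedSectionVars false

namespace Pool.Agent.P.MP_119182_lc.UM

open Finset

namespace BIRx

theorem mem_Rc {a : ℕ → ℕ} {D i s : ℕ} (hs : s < i) (h : ((Ioo s i).image a).card ≤ D) :
    a s ∈ Rc a D i :=
  mem_image_of_mem _ (mem_filter.2 ⟨mem_range.2 hs, h⟩)

theorem small {n m u i : ℕ} {a : ℕ → ℕ} (hH : Hyp n m u a) (hb : birth a (2 ^ u) m i) :
    ((Ioc 0 i).image a).card ≤ 2 ^ u := by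
  obtain ⟨y, -, -, hy⟩ := hH.2 i hb.1
  by_cases hne : ((range i).filter fun s => a s = y).Nonempty
  · exfalso
    obtain ⟨l, hl, e⟩ := exists_mem_eq_sup _ hne id
    have e' : lastIdx a i y = l := e
    obtain ⟨hl1, hl2⟩ := mem_filter.1 hl
    have h1 : ((Ioo l i).image a).card ≤ wset a i y := by
      rw [wset, e']
      exact card_le_card (image_subset_image Ioo_subset_Ioc_self)
    have h2 := hb.2 _ (mem_Rc (mem_range.1 hl1) (by omega : ((Ioo l i).image a).card ≤ 2 ^ u))
    rw [hl2] at h2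
    omega
  · have e : lastIdx a i y = 0 := by
      rw [lastIdx, not_nonempty_iff_eq_empty.1 hne]; rfl
    rw [wset, e] at hy
    omega

theorem fresh {n m u i s : ℕ} {a : ℕ → ℕ} (hH : Hyp n m u a) (hb : birth a (2 ^ u) m i)
    (hs : s < i) : a s ≠ a i := by
  intro e
  have h1 : ((Ioo s i).image a).card ≤ 2 ^ u :=
    (card_le_card (image_subset_image fun z hz => by
      simp only [mem_Ioo, mem_Ioc] at hz ⊢; omega)).trans (small hH hb)
  have h2 := hb.2 _ (mem_Rc hs h1)
  rw [e, Nat.dist_self] at h2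
  exact absurd h2 (Nat.not_lt_zero _)

end BIRx

theorem p_BIR :
    S_BIR := by
  intro n m u a hH X hX
  rcases X.eq_empty_or_nonempty with rfl | hne
  · simp
  have hM := BIRx.small hH (hX _ (X.max'_mem hne))
  have h1 : (X.erase 0).card ≤ ((Ioc 0 (X.max' hne)).image a).card := by
    refine card_le_card_of_injOn a (fun i hi => ?_) fun i hi j hj e => ?_
    · have hi' := mem_erase.1 (mem_coe.1 hi)
      exact mem_coe.2 (mem_image_of_mem _
        (mem_Ioc.2 ⟨Nat.pos_of_ne_zero hi'.1, X.le_max' _ hi'.2⟩))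
    · have hi' := (mem_erase.1 (mem_coe.1 hi)).2
      have hj' := (mem_erase.1 (mem_coe.1 hj)).2
      rcases lt_trichotomy i j with h | h | h
      · exact absurd e (BIRx.fresh hH (hX j hj') h)
      · exact h
      · exact absurd e.symm (BIRx.fresh hH (hX i hi') h)
  have h2 := pred_card_le_card_erase (s := X) (a := 0)
  omega

end Pool.Agent.P.MP_119182_lc.UM
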