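import Pool.Agent.P.MP_119182_lc.UM.Iface

/-! Step BLK. -/

set_option autoImplicit false
set_option linter.unusedSectionVars false

namespace Pool.Agent.P.MP_119182_lc.UM

open Finset

namespace BLKx

theorem le_nP {A P : Finset ℕ} {f : ℕ → ℕ} (h : A ⊆ P)
    (hi : ∀ y ∈ A, ∀ z ∈ A, y < z → f y ≠ f z) : A.card ≤ nP P f := by
  refine card_le_card_of_injOn f (fun y hy => mem_image_of_mem f (h hy)) fun y hy z hz e => ?_
  rcases lt_trichotomy y z with c | c | c
  exacts [absurd e (hi y hy z hz c), c, absurd e.symm (hi z hz y hy c)]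

theorem mid {k a b c : ℕ} (h1 : a ≤ b) (h2 : b ≤ c) (e : a / k = c / k) : b / k = c / k :=
  le_antisymm (Nat.div_le_div_right h2) (e ▸ Nat.div_le_div_right h1)

theorem lft {n x k : ℕ} {lp rp lq rq : ℕ → ℕ} (h : Step n x lp rp lq rq) :
    ((lftPath n x rp).filter fun y => lp y / k ≠ y / k).card ≤
      nP (pth n x lp rp) fun v => v / k := by
  refine le_nP ((filter_subset _ _).trans subset_union_left) fun y hy z hz c e => ?_
  simp only [lftPath, mem_filter, mem_Icc] at hy hz
  have a := h.lam z y hz.1.1.1 hz.1.1.2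
  exact hz.2 (mid (by omega) (h.bnd z hz.1.1.1 hz.1.1.2).1.le e)

theorem rgt {n x k : ℕ} {lp rp lq rq : ℕ → ℕ} (h : Step n x lp rp lq rq) :
    ((rgtPath n x lp).filter fun u => lq u ≠ x ∧ lq u / k ≠ u / k).card ≤
      nP (pth n x lp rp) fun v => v / k := by
  refine le_nP ((filter_subset _ _).trans subset_union_right) fun y hy z hz c e => ?_
  simp only [rgtPath, mem_filter, mem_Icc] at hy hz
  have a := h.los z hz.1.2.1 hz.1.1.2 hz.1.2.2 hz.2.1
  have b := h.lam y (lq z) hy.1.1.1 hy.1.1.2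
  exact hz.2.2 (mid (by omega) a.2.1.le e)

theorem tele (A B P : ℕ → ℕ) (c : ℕ) : ∀ m, (∀ t < m, A t + P (t + 1) ≤ P t + 12 * B t + c) →
    ∑ t ∈ range m, A t + P m ≤ P 0 + m * c + 12 * ∑ t ∈ range m, B t
  | 0, _ => by simp
  | m + 1, h => by
    have h1 := tele A B P c m fun t ht => h t (by omega)
    have h2 := h m (by omega)
    rw [sum_range_succ, sum_range_succ, add_mul]
    omega

end BLKx

open BLKx MainA in
theorem p_BLK :
    S_BLK := by
  intro n m β T a hT ha
  have hK : ∀ t ≤ m, (Tr T a t).keys = List.range' 1 n := fun t => by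
    induction t with
    | zero => exact fun _ => hT
    | succ t ih => exact fun ht => (p_STRUCT n (a t) _ (ih (by omega)) (ha t ht).1 (ha t ht).2).1
  have h0 := Blk.pt_le β T 0 (n + 1) false
  rw [hT, List.length_range'] at h0
  have h1 := BLKx.tele (fun t => (access (Tr T a t) (a t)).2)
    (fun i => nP (pth n (a i) (lpar (Tr T a i)) (rpar n (Tr T a i))) fun v => v / 2 ^ β)
    (fun t => Blk.pt β (Tr T a t) 0 (n + 1) false) (16 * β + 45) m fun t ht => by
      have s := (p_STRUCT n (a t) _ (hK t ht.le) (ha t ht).1 (ha t ht).2).2.1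
      have b1 := Blk.blk β (hK t ht.le) (ha t ht).1 (ha t ht).2
      have b2 := lft (k := 2 ^ β) s
      have b3 := rgt (k := 2 ^ β) s
      change _ + Blk.pt β (access (Tr T a t) (a t)).1 0 (n + 1) false ≤ _
      omega
  rw [cost_eq]
  exact (Nat.le_add_right _ _).trans (h1.trans
    (Nat.add_le_add_right (Nat.add_le_add_right h0 _) _))

end Pool.Agent.P.MP_119182_lc.UM
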