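import Pool.Agent.P.MP_119182_lc.UM.Iface

/-! Step CAP2. -/

set_option autoImplicit false
set_option linter.unusedSectionVars false

namespace Pool.Agent.P.MP_119182_lc.UM

open Finset

theorem p_CAP2 (hCAP1 : S_CAP1) :
    S_CAP2 := by
  intro α β _ _ c1 c2 D E f g w w' δ hE _ hw hc
  have e1 : E.card = ∑ q ∈ D.image g, (E.filter fun v => g v = q).card :=
    card_eq_sum_card_fiberwise fun v hv => mem_coe.2 (mem_image_of_mem g (hE (mem_coe.1 hv)))
  have e2 : ∑ v ∈ D, δ v = ∑ q ∈ D.image g, ∑ v ∈ D.filter (fun v => g v = q), δ v :=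
    (sum_fiberwise_of_maps_to (fun v hv => mem_image_of_mem g hv) δ).symm
  rw [Th, Th, e1, e2, ← sum_add_distrib, ← sum_add_distrib]
  refine sum_le_sum fun q _ => ?_
  have k := hCAP1 α c1 (D.filter fun v => g v = q) (E.filter fun v => g v = q) f w w' δ
    (filter_subset_filter _ hE) (fun v hv => by
      have := hw v (mem_filter.1 hv).1
      simpa only [mem_filter, (mem_filter.1 hv).2, and_true] using this)
    fun v hv => (sum_le_sum_of_subset (filter_subset_filter _ (filter_subset _ _))).trans
      (hc v (mem_filter.1 hv).1).1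
  rcases (E.filter fun v => g v = q).eq_empty_or_nonempty with h | ⟨v, hv⟩
  · rw [h, card_empty] at k ⊢
    omega
  · have := (hc v (mem_filter.1 hv).1).2
    rw [(mem_filter.1 hv).2] at this
    omega

end Pool.Agent.P.MP_119182_lc.UM
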