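import Pool.Agent.P.MP_119182_lc.UM.Iface

/-! Step CHG. -/

set_option autoImplicit false
set_option linter.unusedSectionVars false

namespace Pool.Agent.P.MP_119182_lc.UM

open Finset

namespace CHGx

theorem sub (a : ℕ → ℕ) (u m σ i : ℕ) (h : ¬ cut a u m σ (i + 1)) :
    act a u m σ (i + 1) ⊆ act a u m σ i := by
  classical
  refine image_subset_image fun j hj => ?_
  rw [mem_filter, mem_Ico] at hj ⊢
  refine ⟨⟨by omega, hj.1.2⟩, fun l hl => ?_⟩
  rw [mem_Ioc] at hl
  rcases Nat.lt_or_ge (i + 1) l with h' | h'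
  · exact hj.2 l (mem_Ioc.2 ⟨h', hl.2⟩)
  · obtain rfl : l = i + 1 := by omega
    exact h

open Classical in
theorem tele (A : ℕ → Finset ℕ) (C : ℕ → Prop) (c : ℕ) (hc : ∀ i, (A i).card ≤ c)
    (h : ∀ i, ¬ C i → A (i + 1) ⊆ A i) (m : ℕ) :
    ((range m).filter fun i => A (i + 1) ≠ A i).card + (A m).card ≤
      c + (c + 1) * ((range m).filter C).card := by
  induction m with
  | zero => simpa using hc 0
  | succ m ih =>
    have h1 := hc (m + 1)
    rw [range_add_one, filter_insert, filter_insert]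
    have e1 : ∀ p : ℕ → Prop, ∀ [DecidablePred p], (insert m ((range m).filter p)).card =
        ((range m).filter p).card + 1 := fun p _ => card_insert_of_notMem (by simp)
    by_cases hC : C m
    · rw [if_pos hC, e1, mul_add, mul_one]
      split_ifs
      · rw [e1]; omega
      · omega
    · rw [if_neg hC]
      split_ifs with hne
      · have := card_lt_card (Finset.ssubset_iff_subset_ne.2 ⟨h m hC, hne⟩)
        rw [e1]; omega
      · have := card_le_card (h m hC)
        omega

end CHGx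

theorem p_CHG (hBIR : S_BIR) (hACARD : S_ACARD) :
    S_CHG := by
  classical
  intro n m u τ a hH hu
  have h1 := CHGx.tele (act a u m τ) (fun i => cut a u m τ (i + 1)) (3 * (2 ^ u + 2))
    (fun i => (hACARD m u τ i a hu).1) (fun i => CHGx.sub a u m τ i) m
  have hb : ((range m).filter fun i => birth a (2 ^ u) m (i + 1)).card ≤ 2 ^ u + 1 := by
    rw [← card_image_of_injective _ (add_left_injective 1)]
    refine hBIR n m u a hH _ fun i hi => ?_
    obtain ⟨j, hj, rfl⟩ := mem_image.1 hi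
    exact (mem_filter.1 hj).2
  have hm : ((range m).filter fun i => 2 ^ (τ - u) ∣ i + 1).card = m / 2 ^ (τ - u) :=
    Nat.card_multiples m _
  have h2 : ((range m).filter fun i => cut a u m τ (i + 1)).card ≤
      2 ^ u + 1 + m / 2 ^ (τ - u) := by
    refine le_trans (card_le_card (t := ((range m).filter fun i => birth a (2 ^ u) m (i + 1)) ∪
      (range m).filter fun i => 2 ^ (τ - u) ∣ i + 1) fun i hi => ?_)
      ((card_union_le _ _).trans (add_le_add hb hm.le))
    rw [mem_filter] at hi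
    rw [mem_union, mem_filter, mem_filter]
    exact hi.2.imp (fun h => ⟨hi.1, h⟩) fun h => ⟨hi.1, h⟩
  have h3 : 2 ^ τ * (m / 2 ^ (τ - u)) ≤ 2 ^ u * m := by
    have : 2 ^ τ = 2 ^ u * 2 ^ (τ - u) := by rw [← pow_add]; congr 1; omega
    rw [this, mul_assoc]
    exact Nat.mul_le_mul_left _ (Nat.mul_div_le _ _)
  have h4 : ((range m).filter fun i => act a u m τ (i + 1) ≠ act a u m τ i).card ≤
      (3 * (2 ^ u + 2) + 1) * (2 ^ u + 2 + m / 2 ^ (τ - u)) := by
    have := Nat.mul_le_mul_left (3 * (2 ^ u + 2) + 1) h2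
    refine le_trans (Nat.le_add_right _ _) (le_trans h1 ?_)
    refine le_trans (add_le_add (Nat.le_add_right _ 1) this) (le_of_eq (by ring))
  calc _ ≤ 2 ^ τ * ((3 * (2 ^ u + 2) + 1) * (2 ^ u + 2 + m / 2 ^ (τ - u))) :=
        Nat.mul_le_mul_left _ h4
    _ = (3 * (2 ^ u + 2) + 1) * ((2 ^ u + 2) * 2 ^ τ + 2 ^ τ * (m / 2 ^ (τ - u))) := by ring
    _ ≤ (3 * (2 ^ u + 2) + 1) * ((2 ^ u + 2) * 2 ^ τ + (2 ^ u + 2) * m) :=
        Nat.mul_le_mul_left _ (add_le_add le_rfl (h3.trans (Nat.mul_le_mul_right _ (by omega))))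
    _ = _ := by ring

end Pool.Agent.P.MP_119182_lc.UM
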