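import Pool.Agent.P.MP_119182_lc.UM.Iface

/-! Step CNT. -/

set_option autoImplicit false
set_option linter.unusedSectionVars false

namespace Pool.Agent.P.MP_119182_lc.UM

open Finset

namespace CNTx

theorem least {γ : Type} [DecidableEq γ] (P : Finset ℕ) (k : ℕ → γ) (Q : γ → Prop)
    [DecidablePred Q] : (P.filter fun y => (∀ z ∈ P, k z = k y → y ≤ z) ∧ Q (k y)).card ≤
      ((P.image k).filter Q).card :=
  card_le_card_of_injOn k
    (fun y hy => by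
      rw [mem_coe, mem_filter] at hy ⊢
      exact ⟨mem_image_of_mem k hy.1, hy.2.2⟩)
    fun y hy z hz e => by
      rw [mem_coe, mem_filter] at hy hz
      exact le_antisymm (hy.2.1 z hz.1 e.symm) (hz.2.1 y hy.1 e)

theorem first {γ : Type} {P : Finset ℕ} {k : ℕ → γ} (h : CvxF P k) {d y : ℕ} (hd : d ∈ P)
    (hy : y ∈ P) (l : d < y) (m : ∀ z ∈ P, d < z → y ≤ z) (n : k y ≠ k d) :
    ∀ z ∈ P, k z = k y → y ≤ z := fun z hz e => m z hz (not_le.1 fun a =>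
  n ((h z hz d hd y hy a l.le e).trans e).symm)

end CNTx

theorem p_CNT :
    S_CNT := by
  intro α β _ _ h θ P E f g hf hg hfg hW
  let I := inner h θ P f g
  let X := I.filter fun d => ∀ z ∈ P, f z = f d → z ≤ d
  have h1 : nP I f ≤ X.card := by
    refine le_trans (card_le_card fun q hq => ?_) (card_image_le (f := f))
    obtain ⟨v, hv, rfl⟩ := mem_image.1 hq
    obtain ⟨v1, v2, v3, ⟨p, p1, p2, p3⟩, p', p4, p5, p6⟩ := mem_filter.1 hv
    obtain ⟨d, d1, d2⟩ := (P.filter fun z => f z = f v).exists_max_image id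
      ⟨v, mem_filter.2 ⟨v1, rfl⟩⟩
    obtain ⟨d1, d3⟩ := mem_filter.1 d1
    have d4 := hfg d d1 v v1 d3
    have d5 : v ≤ d := d2 v (mem_filter.2 ⟨v1, rfl⟩)
    refine mem_image.2 ⟨d, mem_filter.2 ⟨mem_filter.2 ⟨d1, ?_⟩, fun z hz e =>
      d2 z (mem_filter.2 ⟨hz, e.trans d3⟩)⟩, d3⟩
    rw [d3, d4]
    exact ⟨v2, v3, ⟨p, p1, p2.trans_le d5, p3⟩, p', p4, not_le.1 fun a =>
      p6 (hg v v1 p' p4 d d1 p5.le a d4.symm), p6⟩
  let nx : ℕ → ℕ := fun d => sInf {z | z ∈ P ∧ d < z}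
  have n1 : ∀ d, ∀ z ∈ P, d < z → nx d ≤ z := fun d z a b => Nat.sInf_le ⟨a, b⟩
  have n2 : ∀ d ∈ X, nx d ∈ P ∧ d < nx d := fun d hd => by
    obtain ⟨-, -, -, -, p, a, b, -⟩ := mem_filter.1 (mem_filter.1 hd).1
    exact Nat.sInf_mem (s := {z | z ∈ P ∧ d < z}) ⟨p, a, b⟩
  let A := P.filter fun y => (∀ z ∈ P, f z = f y → y ≤ z) ∧
    h ≤ (P.filter fun v => f v = f y).card
  let B := P.filter fun y => (∀ z ∈ P, g z = g y → y ≤ z) ∧
    θ ≤ nP (P.filter fun v => g v = g y) f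
  let C := P.filter fun y => ∀ z ∈ P, z ≤ y
  let D := P.filter fun y => (∀ z ∈ P, g z = g y → y ≤ z) ∧ ∀ z ∈ P, y < z → g z = g y
  have hA : A.card ≤ nH h P f := CNTx.least P f fun p => h ≤ (P.filter fun v => f v = p).card
  have hB : B.card ≤ nW θ P f g := CNTx.least P g fun q => θ ≤ nP (P.filter fun v => g v = q) f
  have hC : C.card ≤ 1 := card_le_one.2 fun a ha b hb => by
    rw [mem_filter] at ha hb
    exact le_antisymm (hb.2 a ha.1) (ha.2 b hb.1)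
  have hD : D.card ≤ 1 := card_le_one.2 fun a ha b hb => by
    rw [mem_filter] at ha hb
    rcases lt_trichotomy a b with c | c | c
    exacts [absurd (hb.2.1 a ha.1 (ha.2.2 b hb.1 c).symm) (not_le.2 c), c,
      absurd (ha.2.1 b hb.1 (hb.2.2 a ha.1 c).symm) (not_le.2 c)]
  have h2 : (X \ E).card ≤ (E ∩ I ∪ A ∪ B ∪ C ∪ D).card := by
    refine card_le_card_of_injOn nx (fun d hd => ?_) fun a ha b hb e => ?_
    · obtain ⟨hd, dE⟩ := mem_sdiff.1 (mem_coe.1 hd)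
      obtain ⟨y1, y2⟩ := n2 d hd
      obtain ⟨hd, d6⟩ := mem_filter.1 hd
      obtain ⟨d1, -, d3, ⟨p, p1, p2, p3⟩, p', p4, p5, p6⟩ := mem_filter.1 hd
      have y3 := CNTx.first hf d1 y1 y2 (n1 d) fun e => absurd (d6 _ y1 e) (not_le.2 y2)
      have y4 := CNTx.first hg d1 y1 y2 (n1 d)
      simp only [mem_coe, mem_union]
      by_contra c
      simp only [not_or, A, B, C, D, mem_filter, y1, true_and, not_and, not_forall, not_le] at c
      obtain ⟨⟨⟨⟨c1, c2⟩, c3⟩, z, z1, z2⟩, c5⟩ := c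
      refine c1 (mem_inter.2 ⟨(hW p p1 d d1 _ y1 z z1 p2 y2 z2 fun z a b =>
        absurd (n1 d z a b.1) (not_le.2 b.2)).resolve_left dE, mem_filter.2 ⟨y1, c2 y3, ?_⟩⟩)
      by_cases e : g (nx d) = g d
      · rw [e]
        exact ⟨d3, ⟨p, p1, p2.trans y2, p3⟩, p', p4, lt_of_le_of_ne (n1 d p' p4 p5)
          fun a => p6 (a ▸ e), p6⟩
      · obtain ⟨u, u1, u2, u3⟩ := c5 (y4 e)
        exact ⟨c3 (y4 e), ⟨d, d1, y2, Ne.symm e⟩, u, u1, u2, u3⟩
    · have a1 := (mem_sdiff.1 (mem_coe.1 ha)).1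
      have b1 := (mem_sdiff.1 (mem_coe.1 hb)).1
      have a2 := (mem_filter.1 (mem_filter.1 a1).1).1
      have b2 := (mem_filter.1 (mem_filter.1 b1).1).1
      rcases lt_trichotomy a b with c | c | c
      exacts [absurd (e ▸ n1 a b b2 c) (not_le.2 (n2 b b1).2), c,
        absurd (e ▸ n1 b a a2 c) (not_le.2 (n2 a a1).2)]
  have h3 : (X ∩ E).card ≤ (E ∩ I).card := card_le_card fun d hd =>
    mem_inter.2 ⟨(mem_inter.1 hd).2, (mem_filter.1 (mem_inter.1 hd).1).1⟩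
  have h4 := card_sdiff_add_card_inter X E
  have h5 := card_union_le (E ∩ I ∪ A ∪ B ∪ C) D
  have h6 := card_union_le (E ∩ I ∪ A ∪ B) C
  have h7 := card_union_le (E ∩ I ∪ A) B
  have h8 := card_union_le (E ∩ I) A
  change nP I f ≤ 2 * (E ∩ I).card + _ + _ + 2
  omega

end Pool.Agent.P.MP_119182_lc.UM
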