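import Pool.Agent.P.MP_119182_lc.UM.Iface

/-! Step DEC. -/

set_option autoImplicit false
set_option linter.unusedSectionVars false

namespace Pool.Agent.P.MP_119182_lc.UM

open Finset

namespace DECx

theorem img {P : Finset ℕ} {f : ℕ → ℕ × ℕ} {g : ℕ → ℕ} {r : ℕ} (h : ∀ v ∈ P, f v = (r, g v)) :
    P.image f = (P.image g).image fun b => (r, b) := by
  rw [image_image]
  exact image_congr fun v hv => h v hv

theorem inj (r : ℕ) : Function.Injective fun b : ℕ => (r, b) := fun _ _ h => (Prod.ext_iff.1 h).2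

theorem nP_eq {P : Finset ℕ} {f : ℕ → ℕ × ℕ} {g : ℕ → ℕ} {r : ℕ} (h : ∀ v ∈ P, f v = (r, g v)) :
    nP P f = nP P g := by
  rw [nP, nP, img h, card_image_of_injective _ (inj r)]

theorem nH_eq {P : Finset ℕ} {f : ℕ → ℕ × ℕ} {g : ℕ → ℕ} {r : ℕ} (k : ℕ)
    (h : ∀ v ∈ P, f v = (r, g v)) : nH k P f = nH k P g := by
  rw [nH, nH, img h, filter_image, card_image_of_injective _ (inj r)]
  congr 1
  refine filter_congr fun b _ => ?_
  have : (P.filter fun v => f v = (r, b)) = P.filter fun v => g v = b :=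
    filter_congr fun v hv => by rw [h v hv]; simp
  rw [this]

end DECx

open DECx in
theorem p_DEC (hLEV : S_LEV) (hSPL : S_SPL) :
    S_DEC := by
  intro d t lam h hd hl i _
  have hK : ∀ v ∈ d.El (t 0) (t lam) i, d.lev t lam i v ∈ range lam := fun v hv =>
    mem_range.2 ((hLEV d t lam hd hl i v).1 (mem_filter.1 hv).2.1 (mem_filter.1 hv).2.2).1
  have hE : ∀ r ∈ range lam, ((d.El (t 0) (t lam) i).filter fun v => d.lev t lam i v = r) =
      d.El (t r) (t (r + 1)) i := by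
    intro r hr
    ext v
    simp only [Dat.El, mem_filter]
    constructor
    · rintro ⟨⟨a, b, c⟩, e⟩
      have := (hLEV d t lam hd hl i v).1 b c
      rw [e] at this
      exact ⟨a, this.2.1, this.2.2⟩
    · rintro ⟨a, b, c⟩
      have := (hLEV d t lam hd hl i v).2 r (mem_range.1 hr) b c
      exact ⟨⟨a, this.2.1, this.2.2⟩, this.1⟩
  have hs : ∀ r, ∀ v ∈ (d.El (t 0) (t lam) i).filter fun v => d.lev t lam i v = r,
      d.sup t lam i v = (r, v / 2 ^ t r) := by
    intro r v hv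
    rw [Dat.sup, (mem_filter.1 hv).2]
  obtain ⟨h1, h2, -, -⟩ := hSPL (ℕ × ℕ) (ℕ × ℕ) ℕ h 0 (d.El (t 0) (t lam) i) (range lam)
    (d.sup t lam i) (d.sup t lam i) (d.lev t lam i) hK (fun _ _ _ _ e => e)
    (fun _ _ _ _ e => congrArg Prod.fst e)
  refine ⟨?_, ?_, ?_⟩
  · rw [Dat.cS, h1]
    refine sum_congr rfl fun r hr => ?_
    rw [nP_eq (hs r), hE r hr, Dat.cI]
  · rw [Dat.cU, card_eq_sum_card_fiberwise (f := d.lev t lam i) (t := range lam)
      (fun v hv => hK v (mem_inter.1 hv).1)]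
    refine sum_congr rfl fun r hr => ?_
    rw [Dat.cU, ← hE r hr, filter_inter]
  · rw [Dat.cHS, h2]
    refine sum_congr rfl fun r hr => ?_
    rw [nH_eq h (hs r), hE r hr, Dat.cH]

end Pool.Agent.P.MP_119182_lc.UM
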