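import Pool.Agent.P.MP_119182_lc.UM.Iface

/-! Step GAP. -/

set_option autoImplicit false
set_option linter.unusedSectionVars false

namespace Pool.Agent.P.MP_119182_lc.UM

open Finset

theorem p_GAP (hGAP1 : S_GAP1) (hGAP2 : S_GAP2) (hTEL : S_TEL) :
    S_GAP := by
  intro d t lam h θ ok hl
  have g := hGAP2 d t lam (2 * h) (2 * h * θ) ok hl
  generalize 2 * h * θ * (lam * (d.c * (d.c + 1))) = Bd at g ⊢
  have a1 := hTEL d.m (d.cN t lam θ) (fun i => 2 * d.cHS t lam h i + d.cW t lam θ i +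
      7 * d.cU (t 0) (t lam) i + 7 * min (d.cI (t 0) (t lam) i) (56 * (2 * θ + 8)))
    (fun i => if i ∈ d.chg (t 0) then Bd else 0) (d.Theta t lam (2 * h) (2 * h * θ))
    (fun i hi => by have := hGAP1 d t lam h θ ok hl i hi; omega)
    (fun i hi => by
      split_ifs with c
      · exact (g _ _).1.trans (Nat.le_add_left _ _)
      · exact ((g _ _).2 hi c).le)
  have a2 : ∑ i ∈ range d.m, (if i ∈ d.chg (t 0) then Bd else 0) ≤ (d.chg (t 0)).card * Bd := by
    rw [sum_ite_mem, sum_const, smul_eq_mul]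
    exact Nat.mul_le_mul_right _ (card_le_card inter_subset_right)
  have a3 := ok.few (t 0) hl.bot ((hl.top 0).trans hl.cap)
  have a4 := (g 0 0).1
  have a5 := Nat.mul_le_mul_left (2 ^ t 0)
    (a1.trans (Nat.add_le_add_right (Nat.add_le_add (Nat.mul_le_mul_left 2 a4)
      (Nat.mul_le_mul_left 2 a2)) _))
  have a6 := Nat.mul_le_mul_left (2 * Bd) a3
  nlinarith

end Pool.Agent.P.MP_119182_lc.UM
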