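import Pool.Agent.P.MP_119182_lc.UM.Iface

/-! Step GAP1. -/

set_option autoImplicit false
set_option linter.unusedSectionVars false

namespace Pool.Agent.P.MP_119182_lc.UM

open Finset

theorem p_GAP1 (hGCV : S_GCV) (hSPL : S_SPL) (hHV : S_HV) (hL1 : S_L1) (hGMET : S_GMET) :
    S_GAP1 := by
  intro d t lam h θ ok lad i hi
  obtain ⟨cv, rf⟩ := hGCV d t lam ok lad i
  have sub : d.El (t 0) (t lam) i ⊆ d.dom t lam i := fun v hv =>
    mem_filter.2 ⟨ok.psub i hi (mem_filter.1 hv).1, (mem_filter.1 hv).2⟩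
  have eq : ∀ q, d.Pa i ∩ d.gap t lam i q =
      (d.El (t 0) (t lam) i).filter fun v => d.gl t lam i v = q := fun q => by
    ext v
    rw [mem_inter, mem_filter]
    exact ⟨fun a => ⟨mem_filter.2 ⟨a.1, (mem_filter.1 (mem_filter.1 a.2).1).2⟩,
      (mem_filter.1 a.2).2⟩, fun a => ⟨(mem_filter.1 a.1).1, mem_filter.2 ⟨sub a.1, a.2⟩⟩⟩
  have hK : ∀ v ∈ d.El (t 0) (t lam) i, d.gl t lam i v ∈ (d.dom t lam i).image (d.gl t lam i) :=
    fun v hv => mem_image_of_mem _ (sub hv)
  obtain ⟨-, s1, s2, s3⟩ := hSPL _ _ _ h θ _ _ (d.sup t lam i) (d.pc t lam i) _ hK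
    (fun u hu v hv => (rf u (sub hu) v (sub hv)).2.1) fun u hu v hv => (rf u (sub hu) v (sub hv)).2.2
  obtain ⟨s4, -⟩ := hSPL _ _ _ h θ _ _ (fun v => v / 2 ^ t 0) (d.gl t lam i) _ hK
    (fun u hu v hv e => (rf u (sub hu) v (sub hv)).2.2 ((rf u (sub hu) v (sub hv)).2.1
      ((rf u (sub hu) v (sub hv)).1 e))) fun _ _ _ _ e => e
  have s5 := card_eq_sum_card_fiberwise (s := d.El (t 0) (t lam) i ∩ d.Up i)
    (f := d.gl t lam i) fun v hv => hK v (mem_inter.1 (mem_coe.1 hv)).1
  have s6 : ∑ q ∈ (d.dom t lam i).image (d.gl t lam i),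
      (if q ∈ (d.El (t 0) (t lam) i \ d.Up i).image (d.gl t lam i) then 2 * θ + 8 else 0) ≤
      56 * (2 * θ + 8) := by
    rw [sum_ite_mem, sum_const, smul_eq_mul]
    exact Nat.mul_le_mul_right _ ((card_le_card inter_subset_right).trans (hGMET d t lam ok lad i hi))
  have key := fun q => hL1 _ _ h θ _ _ (d.sup t lam i) (d.pc t lam i) _ _
    (ok.wf i hi (d.gap t lam i q) ((filter_subset _ _).trans (filter_subset _ _)) (cv q).1
      fun a => (mem_filter.1 (mem_filter.1 a).1).2.1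
        (ok.own _ i lad.bot ((lad.top 0).trans lad.cap) hi)) (cv q).2.1 (cv q).2.2
    fun u hu v hv => (rf u (mem_filter.1 hu).1 v (mem_filter.1 hv).1).2.1
  simp only [eq] at key
  have v1 := fun q => hHV _ _ h θ ((d.El (t 0) (t lam) i).filter fun v => d.gl t lam i v = q)
    (d.sup t lam i) (d.pc t lam i) fun u hu v hv =>
      (rf u (sub (mem_filter.1 hu).1) v (sub (mem_filter.1 hv).1)).2.1
  have v2 := fun q => hHV _ _ h θ ((d.El (t 0) (t lam) i).filter fun v => d.gl t lam i v = q)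
    (fun v => v / 2 ^ t 0) (d.sup t lam i) fun u hu v hv =>
      (rf u (sub (mem_filter.1 hu).1) v (sub (mem_filter.1 hv).1)).1
  unfold Dat.cN Dat.Theta Dat.cHS Dat.cW Dat.cU Dat.cI
  rw [s1, s2, s3]
  rcases le_total (nP (d.El (t 0) (t lam) i) fun v => v / 2 ^ t 0) (56 * (2 * θ + 8)) with c | c
  · rw [min_eq_left c, s4]
    refine le_trans ?_ (Nat.add_le_add_right (Nat.le_add_right _ _) _)
    simp only [mul_sum, ← sum_add_distrib]
    refine sum_le_sum fun q _ => ?_
    obtain ⟨a1, a2, -⟩ := key q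
    obtain ⟨-, -, -, b1, b2, -⟩ := v1 q
    obtain ⟨-, -, b3, -⟩ := v2 q
    rcases ((d.El (t 0) (t lam) i).filter fun v => d.gl t lam i v = q).eq_empty_or_nonempty with
      e | e
    · have := a2 e
      have := card_eq_zero.2 e
      omega
    · have : 0 < nP ((d.El (t 0) (t lam) i).filter fun v => d.gl t lam i v = q)
        fun v => v / 2 ^ t 0 := card_pos.2 (e.image _)
      omega
  · rw [min_eq_right c, s5]
    refine le_trans ?_ (Nat.add_le_add_left (s6.trans (Nat.le_mul_of_pos_left _ (by norm_num))) _)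
    simp only [mul_sum, ← sum_add_distrib]
    refine sum_le_sum fun q _ => ?_
    obtain ⟨a1, a2, a3⟩ := key q
    obtain ⟨-, -, -, b1, b2, -⟩ := v1 q
    split_ifs with m
    · omega
    · have e' : ((d.El (t 0) (t lam) i).filter fun v => d.gl t lam i v = q) ⊆
          (d.El (t 0) (t lam) i ∩ d.Up i).filter fun v => d.gl t lam i v = q := fun v hv => by
        rw [mem_filter] at hv ⊢
        refine ⟨mem_inter.2 ⟨hv.1, by_contra fun n => m ?_⟩, hv.2⟩
        exact mem_image.2 ⟨v, mem_sdiff.2 ⟨hv.1, n⟩, hv.2⟩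
      have := card_le_card e'
      rcases ((d.El (t 0) (t lam) i).filter fun v => d.gl t lam i v = q).eq_empty_or_nonempty with
        e | e
      · have := a2 e
        have := card_eq_zero.2 e
        omega
      · have := card_pos.2 e
        omega

end Pool.Agent.P.MP_119182_lc.UM
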