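import Pool.Agent.P.MP_119182_lc.UM.Iface

/-! Step GAP2. -/

set_option autoImplicit false
set_option linter.unusedSectionVars false

namespace Pool.Agent.P.MP_119182_lc.UM

open Finset

theorem p_GAP2 (hLEV : S_LEV) (hGCV : S_GCV) (hSPL : S_SPL) :
    S_GAP2 := by
  intro d t lam c1 c2 hd hl j k
  have lo : ∀ r, d.s0 ≤ t r := fun r => hl.bot.trans (hl.mono (Nat.zero_le r))
  have hi : ∀ r, t r ≤ d.S := fun r => (hl.top r).trans hl.cap
  refine ⟨?_, fun hj hc => ?_⟩
  · have h1 := (hSPL _ _ _ 0 0 (d.dom t lam j) ((d.dom t lam j).image (d.gl t lam j))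
      (d.pc t lam j) (d.pc t lam j) (d.gl t lam j) (fun v hv => mem_image_of_mem _ hv)
      (fun _ _ _ _ h => h) fun u hu v hv => ((hGCV d t lam hd hl j).2 u hu v hv).2.2).1
    have h2 : nP (d.dom t lam j) (d.pc t lam j) ≤ lam * (d.c * (d.c + 1)) := by
      refine (card_le_card (t := (range lam).biUnion fun r =>
        {r} ×ˢ d.Act (t (r + 1)) j ×ˢ range (d.c + 1)) fun p hp => ?_).trans
        ((card_biUnion_le_card_mul _ _ (d.c * (d.c + 1)) fun r _ => ?_).trans (by simp))
      · obtain ⟨v, hv, rfl⟩ := mem_image.1 hp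
        obtain ⟨-, a, b⟩ := mem_filter.1 hv
        obtain ⟨e1, -, e3⟩ := (hLEV d t lam hd hl j v).1 a b
        refine mem_biUnion.2 ⟨_, mem_range.2 e1, mem_product.2 ⟨mem_singleton_self _,
          mem_product.2 ⟨e3, mem_range.2 (Nat.lt_succ_of_le ?_)⟩⟩⟩
        exact (card_filter_le _ _).trans (hd.card _ _ (lo _) (hi _))
      · rw [card_product, card_product, card_singleton, card_range, one_mul]
        exact Nat.mul_le_mul_right _ (hd.card _ _ (lo _) (hi _))
    refine le_trans ?_ (Nat.mul_le_mul_left c2 h2)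
    rw [h1, mul_sum]
    refine sum_le_sum fun q _ => ?_
    refine (sum_le_card_nsmul _ _ c2 fun _ _ => min_le_left _ _).trans ?_
    rw [smul_eq_mul, mul_comm]
    exact le_rfl
  · have e : ∀ r, d.Act (t r) (j + 1) = d.Act (t r) j := fun r => by
      by_contra h
      exact hc (mem_filter.2 ⟨mem_range.2 hj, t r,
        mem_Icc.2 ⟨hl.mono (Nat.zero_le r), hi r⟩, h⟩)
    have e1 : d.dom t lam (j + 1) = d.dom t lam j := by simp only [Dat.dom, e]
    have e2 : d.lev t lam (j + 1) = d.lev t lam j := by funext v; simp only [Dat.lev, e]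
    have e3 : d.sup t lam (j + 1) = d.sup t lam j := by funext v; simp only [Dat.sup, e2]
    have e4 : d.pc t lam (j + 1) = d.pc t lam j := by funext v; simp only [Dat.pc, e2, e]
    have e5 : d.gl t lam (j + 1) = d.gl t lam j := by funext v; simp only [Dat.gl, e]
    have e6 : d.gap t lam (j + 1) = d.gap t lam j := by funext q; simp only [Dat.gap, e1, e5]
    simp only [Dat.Theta, e1, e3, e4, e5, e6]

end Pool.Agent.P.MP_119182_lc.UM
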