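import Pool.Agent.P.MP_119182_lc.UM.Iface

/-! Step GMET. -/

set_option autoImplicit false
set_option linter.unusedSectionVars false

namespace Pool.Agent.P.MP_119182_lc.UM

open Finset

namespace GMETx

theorem cnt (A : Finset ℕ) (Q a b v0 v : ℕ) (hQ : 0 < Q) (h0 : v0 / Q ∉ A) (ha : a < v0)
    (hb : v < b) :
    (A.filter fun B => B < v / Q).card ≤ (A.filter fun B => B < v0 / Q).card +
      (A.filter fun B => ∃ w ∈ Ioo a b, w / Q = B).card := by
  classical
  refine le_trans (card_le_card ?_) (card_union_le _ _)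
  intro B hB
  rw [mem_filter] at hB
  rw [mem_union, mem_filter, mem_filter]
  by_cases h : B < v0 / Q
  · exact Or.inl ⟨hB.1, h⟩
  · right
    refine ⟨hB.1, B * Q, ?_, Nat.mul_div_cancel _ hQ⟩
    have hne : B ≠ v0 / Q := fun e => h0 (e ▸ hB.1)
    have hlt : v0 / Q < B := lt_of_le_of_ne (not_lt.mp h) (Ne.symm hne)
    have h1 : v0 < B * Q := (Nat.div_lt_iff_lt_mul hQ).mp hlt
    have h2 : B * Q ≤ v := (Nat.le_div_iff_mul_le hQ).mp hB.2.le
    rw [mem_Ioo]
    omega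

end GMETx

theorem p_GMET :
    S_GMET := by
  classical
  intro d t lam hOK hL i hi
  obtain ⟨a, b, hab, hcard⟩ := hOK.near i hi
  have h0 : t 0 ≤ t lam := hL.top 0
  have c0 := hcard (t 0) hL.bot (h0.trans hL.cap)
  have c1 := hcard (t lam) (hL.bot.trans h0) hL.cap
  set X := d.El (t 0) (t lam) i \ d.Up i with hX
  have hmem : ∀ v ∈ X, a < v ∧ v < b ∧ v / 2 ^ t 0 ∉ d.Act (t 0) i ∧
      v / 2 ^ t lam ∈ d.Act (t lam) i := by
    intro v hv
    rw [hX, mem_sdiff, Dat.El, mem_filter] at hv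
    obtain ⟨⟨h1, h2, h3⟩, h4⟩ := hv
    obtain ⟨h5, h6⟩ := hab v h1 h4
    exact ⟨h5, h6, h2, h3⟩
  unfold nP
  rcases X.eq_empty_or_nonempty with hE | hN
  · rw [hE]; simp
  set v0 := X.min' hN with hv0
  have hv0X : v0 ∈ X := X.min'_mem hN
  set k := ((d.Act (t 0) i).filter fun B => B < v0 / 2 ^ t 0).card with hk
  have hsub : X.image (d.gl t lam i) ⊆
      ((d.Act (t lam) i).filter fun B => ∃ v ∈ Ioo a b, v / 2 ^ t lam = B) ×ˢ Icc k (k + 7) := by
    intro q hq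
    rw [mem_image] at hq
    obtain ⟨v, hv, rfl⟩ := hq
    obtain ⟨h1, h2, h3, h4⟩ := hmem v hv
    obtain ⟨g1, g2, g3, g4⟩ := hmem v0 hv0X
    have hle : v0 ≤ v := X.min'_le v hv
    rw [mem_product, mem_filter, mem_Icc]
    refine ⟨⟨h4, v, mem_Ioo.mpr ⟨h1, h2⟩, rfl⟩, ?_, ?_⟩
    · show k ≤ ((d.Act (t 0) i).filter fun B => B < v / 2 ^ t 0).card
      refine card_le_card ?_
      intro B hB
      rw [mem_filter] at hB ⊢
      exact ⟨hB.1, lt_of_lt_of_le hB.2 (Nat.div_le_div_right hle)⟩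
    · show ((d.Act (t 0) i).filter fun B => B < v / 2 ^ t 0).card ≤ k + 7
      have := GMETx.cnt (d.Act (t 0) i) (2 ^ t 0) a b v0 v (by positivity) g3 g1 h2
      omega
  refine (card_le_card hsub).trans ?_
  rw [card_product, Nat.card_Icc]
  have e : k + 7 + 1 - k = 8 := by omega
  rw [e]
  omega

end Pool.Agent.P.MP_119182_lc.UM
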