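import Pool.Agent.P.MP_119182_lc.UM.Iface

/-! Step GROW. -/

set_option autoImplicit false
set_option linter.unusedSectionVars false

namespace Pool.Agent.P.MP_119182_lc.UM

open Finset

namespace GROWx

theorem pw (k : ℕ) : 192 ^ k ≤ 2 ^ (8 * k) := by
  rw [pow_mul]
  exact Nat.pow_le_pow_left (by norm_num) k

theorem step (k : ℕ) : AA (k + 1) + EE (k + 1) + 1 ≤ 2 ^ 16 * (192 ^ k) ^ 3 * (AA k + EE k + 1) := by
  rw [AA, EE]
  have h : 1 ≤ 192 ^ k := Nat.one_le_pow _ _ (by norm_num)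
  generalize 192 ^ k = q at *
  generalize AA k = A
  generalize EE k = E
  have h1 : q ≤ q ^ 3 := Nat.le_self_pow (by norm_num) q
  have h2 : q * (A + 1) ≤ q ^ 3 * (A + 1) := Nat.mul_le_mul_right _ h1
  have h3 : q * E ≤ q ^ 3 * E := Nat.mul_le_mul_right _ h1
  have h4 : 1 ≤ q ^ 3 * (A + 1) := Nat.mul_pos (by omega) (by omega)
  have e1 : 56 * (2 * (4 * q * (A + 1)) + 8) +
      (12 + 96 * q * (144 * q) * (4 * q * (A + 1)) + 24 * (144 * q) * E) + 1 =
      448 * (q * (A + 1)) + 461 + 55296 * (q ^ 3 * (A + 1)) + 3456 * (q * E) := by ring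
  have e2 : 2 ^ 16 * q ^ 3 * (A + E + 1) = 65536 * (q ^ 3 * (A + 1)) + 65536 * (q ^ 3 * E) := by
    ring
  rw [e1, e2]
  omega

theorem bound (k : ℕ) : AA k + EE k + 1 ≤ 2 ^ (4 + 16 * k + 12 * k ^ 2) := by
  induction k with
  | zero => simp [AA, EE]
  | succ k ih =>
    refine (step k).trans ?_
    refine (Nat.mul_le_mul (Nat.mul_le_mul_left _ (Nat.pow_le_pow_left (pw k) 3)) ih).trans ?_
    rw [← pow_mul, ← pow_add, ← pow_add]
    exact Nat.pow_le_pow_right (by norm_num) (by nlinarith)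

end GROWx

theorem p_GROW :
    S_GROW := by
  refine ⟨2 ^ 40, fun k => ?_⟩
  refine (Nat.mul_le_mul (GROWx.pw _) (GROWx.bound _)).trans ?_
  rw [← pow_mul, ← pow_add]
  exact Nat.pow_le_pow_right (by norm_num) (by nlinarith)

end Pool.Agent.P.MP_119182_lc.UM
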