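import Pool.Agent.P.MP_119182_lc.UM.Iface

/-! Step HV. -/

set_option autoImplicit false
set_option linter.unusedSectionVars false

namespace Pool.Agent.P.MP_119182_lc.UM

open Finset

namespace HVx

theorem mul_card_le {κ : Type} (K : Finset κ) (t : ℕ) (Q : κ → Prop) [DecidablePred Q]
    (w : κ → ℕ) (hw : ∀ q ∈ K, Q q → t ≤ w q) : t * (K.filter Q).card ≤ ∑ q ∈ K, w q := by
  rw [mul_comm, ← smul_eq_mul, ← sum_const]
  exact (sum_le_sum fun q hq => hw q (mem_filter.1 hq).1 (mem_filter.1 hq).2).trans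
    (sum_le_sum_of_subset (filter_subset _ _))

theorem fib_ne {β : Type} [DecidableEq β] {P : Finset ℕ} {g : ℕ → β} {q : β}
    (hq : q ∈ P.image g) : (P.filter fun v => g v = q).Nonempty := by
  obtain ⟨v, hv, e⟩ := mem_image.1 hq
  exact ⟨v, mem_filter.2 ⟨hv, e⟩⟩

theorem key {α : Type} [DecidableEq α] (h θ : ℕ) (Q : Finset ℕ) (f : ℕ → α) (hQ : Q.Nonempty)
    (hc : h * θ ≤ Q.card) : θ ≤ nP Q f + θ * nH h Q f := by
  rcases Nat.eq_zero_or_pos (nH h Q f) with h0 | h0
  · have hl : ∀ p ∈ Q.image f, (Q.filter fun v => f v = p).card + 1 ≤ h := fun p hp => by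
      have := filter_eq_empty_iff.1 (card_eq_zero.1 h0) hp
      omega
    have h1 := sum_le_sum hl
    rw [sum_add_distrib, ← card_eq_sum_card_image, sum_const, sum_const, smul_eq_mul, smul_eq_mul,
      mul_one] at h1
    have h2 : 0 < (Q.image f).card := card_pos.2 (hQ.image f)
    have h3 : h * θ < h * (Q.image f).card := by rw [mul_comm h (Q.image f).card]; omega
    have := lt_of_mul_lt_mul_left h3 (Nat.zero_le _)
    unfold nP
    omega
  · exact (Nat.le_mul_of_pos_right θ h0).trans (Nat.le_add_left _ _)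

end HVx

theorem p_HV (hSPL : S_SPL) :
    S_HV := by
  intro α β _ _ h θ P f g hfg
  obtain ⟨e1, e2, -, -⟩ := hSPL α β β h θ P (P.image g) f g g
    (fun v hv => mem_image_of_mem g hv) hfg fun _ _ _ _ e => e
  refine ⟨?_, ?_, ?_, ?_, card_image_le, ?_⟩
  · rw [e1, e2, mul_sum, ← sum_add_distrib]
    exact HVx.mul_card_le _ θ _ _ fun q hq hc => HVx.key h θ _ f (HVx.fib_ne hq) hc
  · rw [e1]
    exact HVx.mul_card_le _ θ _ _ fun q _ hc => hc
  · rw [e1, nP, card_eq_sum_ones]
    exact sum_le_sum fun q hq => card_pos.2 ((HVx.fib_ne hq).image f)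
  · exact card_le_card (image_subset_image (filter_subset _ _))
  · rw [card_eq_sum_card_image f P]
    exact HVx.mul_card_le _ h _ _ fun q _ hc => hc

end Pool.Agent.P.MP_119182_lc.UM
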