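import Pool.Agent.P.MP_119182_lc.UM.Iface

/-! Step IND. -/

set_option autoImplicit false
set_option linter.unusedSectionVars false

namespace Pool.Agent.P.MP_119182_lc.UM

open Finset

theorem p_IND (hBASE : S_BASE) (hSTEP : S_STEP) :
    S_IND := by
  intro d hd k
  induction k with
  | zero => exact hBASE d hd
  | succ k ih =>
    have h := hSTEP d (FF k) (192 ^ k) (AA k) (EE k) hd (Nat.one_le_pow _ _ (by norm_num)) ih
    rw [pow_succ']
    exact h

end Pool.Agent.P.MP_119182_lc.UM
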