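import Pool.Agent.P.MP_119182_lc.UM.Iface

/-! Step INN. -/

set_option autoImplicit false
set_option linter.unusedSectionVars false

namespace Pool.Agent.P.MP_119182_lc.UM

open Finset

theorem p_INN :
    S_INN := by
  intro α β _ _ h θ D P f g w hPD hc hfg hw v hv
  obtain ⟨hvP, h1, h2, ⟨p, hp, hpv, hgp⟩, p', hp', hvp, hgp'⟩ := mem_filter.1 hv
  have key : ∀ z ∈ D, g z = g v → w z ≤ if z ∈ P then 2 else 0 := by
    intro z hz e
    refine hw z hz p hp p' hp' ?_ ?_
    · by_contra hn
      exact hgp ((hc z hz p (hPD hp) v (hPD hvP) (not_lt.1 hn) hpv.le e).trans e)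
    · by_contra hn
      exact hgp' (hc v (hPD hvP) p' (hPD hp') z hz hvp.le (not_lt.1 hn) e.symm)
  constructor
  · calc _ ≤ ∑ z ∈ D.filter (fun z => f z = f v), (if z ∈ P then 2 else 0) :=
          sum_le_sum fun z hz => key z (mem_filter.1 hz).1
            (hfg z (mem_filter.1 hz).1 v (hPD hvP) (mem_filter.1 hz).2)
      _ = 2 * ((D.filter fun z => f z = f v).filter fun z => z ∈ P).card := by
          rw [← sum_filter, sum_const, smul_eq_mul, mul_comm]
      _ ≤ 2 * h := by
          refine Nat.mul_le_mul_left 2 (le_trans (card_le_card fun z hz => ?_) h1.le)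
          simp only [mem_filter] at hz ⊢
          exact ⟨hz.2, hz.1.2⟩
  · unfold Th1
    calc _ ≤ ∑ q ∈ (D.filter fun z => g z = g v).image f,
          (if q ∈ (P.filter fun z => g z = g v).image f then 2 * h else 0) := by
          refine sum_le_sum fun q _ => ?_
          split_ifs with hq
          · exact min_le_left _ _
          · refine (min_le_right _ _).trans (le_of_eq (sum_eq_zero fun z hz => ?_))
            simp only [mem_filter] at hz
            have := key z hz.1.1 hz.1.2
            rw [if_neg fun hzP => hq (mem_image.2 ⟨z, mem_filter.2 ⟨hzP, hz.1.2⟩, hz.2⟩)] at this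
            omega
      _ = 2 * h * (((D.filter fun z => g z = g v).image f).filter
            fun q => q ∈ (P.filter fun z => g z = g v).image f).card := by
          rw [← sum_filter, sum_const, smul_eq_mul, mul_comm]
      _ ≤ 2 * h * θ :=
          Nat.mul_le_mul_left _ (le_trans (card_le_card fun q hq => (mem_filter.1 hq).2) h2.le)

end Pool.Agent.P.MP_119182_lc.UM
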