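import Pool.Agent.P.MP_119182_lc.UM.Iface

/-! Step L1. -/

set_option autoImplicit false
set_option linter.unusedSectionVars false

namespace Pool.Agent.P.MP_119182_lc.UM

open Finset

namespace L1x

theorem cvx_mono {α : Type} {D P : Finset ℕ} {f : ℕ → α} (h : CvxF D f) (s : P ⊆ D) :
    CvxF P f := fun a ha b hb c hc => h a (s ha) b (s hb) c (s hc)

theorem th_congr {α β : Type} [DecidableEq α] [DecidableEq β] (c1 c2 : ℕ) (D : Finset ℕ)
    (f : ℕ → α) (g : ℕ → β) {w w' : ℕ → ℕ} (h : ∀ v ∈ D, w' v = w v) :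
    Th c1 c2 D f g w' = Th c1 c2 D f g w := by
  unfold Th Th1
  refine sum_congr rfl fun q _ => congrArg _ (sum_congr rfl fun p _ => congrArg _ ?_)
  exact sum_congr rfl fun v hv => h v (mem_filter.1 (mem_filter.1 hv).1).1

end L1x

theorem p_L1 (hCAP2 : S_CAP2) (hINN : S_INN) (hCNT : S_CNT) (hNAR : S_NAR) :
    S_L1 := by
  intro α β _ _ h θ D P f g w w' hW hf hg hfg
  obtain ⟨E, δ, hEP, hwin, hδ, hw⟩ := hW.ex
  have sub := hW.sub
  refine ⟨?_, fun e => L1x.th_congr _ _ _ _ _ (hW.emp e), ?_⟩
  · have := hCAP2 α β (2 * h) (2 * h * θ) D ∅ f g w w' δ (empty_subset _) hfg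
      (fun v hv => by
        have := hw v hv
        simp only [notMem_empty, if_false]
        omega)
      (fun v hv => absurd hv (notMem_empty v))
    simp only [card_empty] at this
    omega
  · have hfg' : ∀ u ∈ P, ∀ v ∈ P, f u = f v → g u = g v :=
      fun u hu v hv => hfg u (sub hu) v (sub hv)
    have h1 := hCAP2 α β (2 * h) (2 * h * θ) D (E ∩ inner h θ P f g) f g w w' δ
      (inter_subset_left.trans (hEP.trans sub)) hfg
      (fun v hv => by
        have := hw v hv
        by_cases e : v ∈ E ∩ inner h θ P f g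
        · rw [if_pos e]
          rwa [if_pos (mem_inter.1 e).1] at this
        · rw [if_neg e]
          omega)
      (fun v hv => hINN α β h θ D P f g w sub hg hfg hW.mid v (mem_inter.1 hv).2)
    have h2 := hCNT α β h θ P E f g (L1x.cvx_mono hf sub) (L1x.cvx_mono hg sub) hfg' hwin
    have h3 := hNAR α β h θ P f g (L1x.cvx_mono hg sub) hfg'
    omega

end Pool.Agent.P.MP_119182_lc.UM
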