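import Pool.Agent.P.MP_119182_lc.UM.Iface

/-! Step L1S. -/

set_option autoImplicit false
set_option linter.unusedSectionVars false

namespace Pool.Agent.P.MP_119182_lc.UM

open Finset

namespace L1Sx
variable {α : Type} [DecidableEq α]

theorem nP_le (P : Finset ℕ) (f : ℕ → α) (q : α) : nP (P.filter fun v => f v = q) f ≤ 1 :=
  card_le_one.2 fun a ha b hb => by
    obtain ⟨u, hu, rfl⟩ := mem_image.1 ha
    obtain ⟨v, hv, rfl⟩ := mem_image.1 hb
    rw [(mem_filter.1 hu).2, (mem_filter.1 hv).2]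

theorem th (c : ℕ) (D : Finset ℕ) (f : ℕ → α) (w : ℕ → ℕ) :
    Th c (c * 2) D f f w = Th1 c D f w := by
  refine sum_congr rfl fun q hq => ?_
  obtain ⟨v, hv, rfl⟩ := mem_image.1 hq
  have e : (D.filter fun z => f z = f v).image f = {f v} :=
    eq_singleton_iff_unique_mem.2 ⟨mem_image_of_mem f (mem_filter.2 ⟨hv, rfl⟩), fun a ha => by
      obtain ⟨u, hu, rfl⟩ := mem_image.1 ha
      exact (mem_filter.1 hu).2⟩
  rw [Th1, e, sum_singleton, filter_filter]
  simp only [and_self]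
  omega

theorem nN_eq (P : Finset ℕ) (f : ℕ → α) : nN 2 P f f = nP P f := by
  rw [nN, filter_true_of_mem fun v _ => Nat.lt_succ_of_le (nP_le P f (f v))]

theorem nW_eq (P : Finset ℕ) (f : ℕ → α) : nW 2 P f f = 0 := by
  rw [nW, filter_false_of_mem fun q _ => not_le.2 (Nat.lt_succ_of_le (nP_le P f q)), card_empty]

end L1Sx

theorem p_L1S (hL1 : S_L1) :
    S_L1S := by
  intro α _ h D P f w w' hW hf
  obtain ⟨-, a, b⟩ := hL1 α α h 2 D P f f w w' hW hf hf fun _ _ _ _ e => e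
  rw [L1Sx.th, L1Sx.th] at a b
  rw [L1Sx.nN_eq, L1Sx.nW_eq] at b
  exact ⟨a, by omega⟩

end Pool.Agent.P.MP_119182_lc.UM
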