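import Pool.Agent.P.MP_119182_lc.UM.Iface

/-! Step LEV. -/

set_option autoImplicit false
set_option linter.unusedSectionVars false

namespace Pool.Agent.P.MP_119182_lc.UM

open Finset

theorem p_LEV :
    S_LEV := by
  intro d t lam ok L j v
  have up : ∀ a b, a ≤ b → v / 2 ^ t a ∈ d.Act (t a) j → v / 2 ^ t b ∈ d.Act (t b) j :=
    fun a b e => ok.nest _ _ j v (L.bot.trans (L.mono a.zero_le)) (L.mono e) ((L.top b).trans L.cap)
  refine ⟨fun h0 h1 => ?_, fun r hr h0 h1 => ⟨?_, fun c => h0 (up 0 r r.zero_le c),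
    up _ _ hr h1⟩⟩
  · have a : v / 2 ^ t (d.lev t lam j v) ∉ d.Act (t (d.lev t lam j v)) j :=
      Nat.findGreatest_spec (P := fun r => v / 2 ^ t r ∉ d.Act (t r) j) lam.zero_le h0
    have b : d.lev t lam j v ≤ lam := Nat.findGreatest_le lam
    have c : d.lev t lam j v < lam := lt_of_le_of_ne b fun e => a (e.symm ▸ h1)
    exact ⟨c, a, not_not.1 (Nat.findGreatest_is_greatest
      (P := fun r => v / 2 ^ t r ∉ d.Act (t r) j) (Nat.lt_succ_self _) c)⟩
  · exact Nat.findGreatest_eq_iff.2 ⟨hr.le, fun _ => h0, fun n a _ c => c (up _ _ a h1)⟩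

end Pool.Agent.P.MP_119182_lc.UM
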