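import Pool.Agent.P.MP_119182_lc.UM.Iface

/-! Step LVL. -/

set_option autoImplicit false
set_option linter.unusedSectionVars false

namespace Pool.Agent.P.MP_119182_lc.UM

open Finset

theorem p_LVL (hDEC : S_DEC) (hXB : S_XB) :
    S_LVL := by
  intro d F D A E t lam h θ hOK hT hL hh hstep
  have key : ∀ r ∈ range lam, 2 ^ t 0 * ∑ i ∈ range d.m, d.cI (t r) (t (r + 1)) i ≤
      2 ^ t 0 * (D * ∑ i ∈ range d.m, (min (d.cI (t r) (t (r + 1)) i) A +
        d.cU (t r) (t (r + 1)) i + d.cH h (t r) (t (r + 1)) i)) +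
        h * (d.c * (d.c + 1)) * E * d.M := by
    intro r hr
    have hr' : r < lam := mem_range.mp hr
    have h0 : t 0 ≤ t r := hL.mono (Nat.zero_le r)
    have h1 : t r ≤ t (r + 1) := hL.mono (Nat.le_succ r)
    have h2 := hT (t r) (t (r + 1)) (2 ^ (t r - t 0)) h (le_trans hL.bot h0) h1
      (le_trans (hL.top _) hL.cap) (hstep r hr') hh
    have h3 : 2 ^ t r = 2 ^ (t r - t 0) * 2 ^ t 0 := by
      rw [← pow_add, Nat.sub_add_cancel h0]
    have h4 : 0 < 2 ^ (t r - t 0) := Nat.two_pow_pos _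
    refine Nat.le_of_mul_le_mul_left ?_ h4
    rw [h3] at h2
    calc _ = 2 ^ (t r - t 0) * 2 ^ t 0 * ∑ i ∈ range d.m, d.cI (t r) (t (r + 1)) i := by ring
      _ ≤ _ := h2
      _ = _ := by ring
  have hsum := sum_le_sum key
  rw [← mul_sum, sum_add_distrib, ← mul_sum, ← mul_sum, sum_const, card_range, smul_eq_mul,
    sum_comm, sum_comm (s := range lam) (t := range d.m)] at hsum
  have e1 : ∑ i ∈ range d.m, ∑ r ∈ range lam, d.cI (t r) (t (r + 1)) i =
      ∑ i ∈ range d.m, d.cS t lam i :=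
    sum_congr rfl fun i hi => (hDEC d t lam h hOK hL i (mem_range.mp hi)).1
  have e2 : ∑ i ∈ range d.m, ∑ r ∈ range lam, (min (d.cI (t r) (t (r + 1)) i) A +
        d.cU (t r) (t (r + 1)) i + d.cH h (t r) (t (r + 1)) i) ≤
      ∑ i ∈ range d.m, (d.cN t lam θ i + A * d.cW t lam θ i +
        d.cU (t 0) (t lam) i + d.cHS t lam h i) := by
    refine sum_le_sum fun i hi => ?_
    have hi' := mem_range.mp hi
    obtain ⟨_, a2, a3⟩ := hDEC d t lam h hOK hL i hi'
    have a4 := hXB d t lam θ A hOK hL i hi'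
    rw [sum_add_distrib, sum_add_distrib, a2, a3]
    omega
  rw [e1] at hsum
  refine le_trans hsum ?_
  have e3 := Nat.mul_le_mul_left (2 ^ t 0) (Nat.mul_le_mul_left D e2)
  have e4 : lam * (h * (d.c * (d.c + 1)) * E * d.M) = h * (d.c * (d.c + 1)) * E * lam * d.M := by
    ring
  rw [e4]
  exact Nat.add_le_add_right e3 _

end Pool.Agent.P.MP_119182_lc.UM
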