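import Pool.Agent.P.MP_119182_lc.UM.Iface

/-! Step MAIN. -/

set_option autoImplicit false
set_option linter.unusedSectionVars false

namespace Pool.Agent.P.MP_119182_lc.UM

open Finset

namespace MAINx

theorem keys {n m : ℕ} {T : BT} {a : ℕ → ℕ} (hT : T.keys = List.range' 1 n)
    (h : ∀ i < m, 1 ≤ a i ∧ a i ≤ n) : ∀ i ≤ m, (MainA.Tr T a i).keys = List.range' 1 n
  | 0, _ => hT
  | i + 1, hi => (p_STRUCT n (a i) _ (keys hT h i (by omega)) (h i hi).1 (h i hi).2).1

theorem big (D N : ℕ) (h : 1 ≤ D) : 3 * (D + 2) * (3 * (D + 2) + 1) *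
    (6 * (3 * (D + 2) + 1) * (D + 2) * N) ≤ D ^ 4 * (16200 * N) :=
  calc _ ≤ 9 * D * (10 * D) * (6 * (10 * D) * (3 * D) * N) :=
        Nat.mul_le_mul (Nat.mul_le_mul (by omega) (by omega)) (Nat.mul_le_mul_right _
          (Nat.mul_le_mul (Nat.mul_le_mul_left _ (by omega)) (by omega)))
    _ = _ := by ring

theorem fin {c P Q U p A E n m u j : ℕ} (hp : 1 ≤ p)
    (h1 : c ≤ n * (4 * (4 * u) + 10) + m * (16 * (4 * u) + 45) + 12 * P)
    (h2 : 24 * P ≤ Q + 48 * p * (U + (A + 7) * m) + 576 * p * E * (j + 4) * (16200 * (n + m)))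
    (h3 : Q ≤ c) (h4 : U ≤ 9 * (u + 2) * (n + m)) :
    c ≤ 37400000 * (p * (A + E + 1) * (u + j + 1) * (n + m)) := by
  have a1 : n * (4 * (4 * u) + 10) + m * (16 * (4 * u) + 45) ≤
      64 * (p * (A + E + 1) * (u + j + 1) * (n + m)) :=
    calc _ ≤ n * (64 * (u + j + 1)) + m * (64 * (u + j + 1)) := by gcongr <;> omega
      _ = 64 * (1 * 1 * (u + j + 1) * (n + m)) := by ring
      _ ≤ _ := by gcongr; omega
  have a2 : p * U ≤ 18 * (p * (A + E + 1) * (u + j + 1) * (n + m)) :=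
    calc _ ≤ p * (9 * (2 * (u + j + 1)) * (n + m)) :=
          Nat.mul_le_mul_left _ (h4.trans (by gcongr; omega))
      _ = 18 * (p * 1 * (u + j + 1) * (n + m)) := by ring
      _ ≤ _ := by gcongr; omega
  have a3 : p * ((A + 7) * m) ≤ 7 * (p * (A + E + 1) * (u + j + 1) * (n + m)) :=
    calc _ ≤ p * (7 * (A + E + 1) * (n + m)) := by gcongr <;> omega
      _ = 7 * (p * (A + E + 1) * 1 * (n + m)) := by ring
      _ ≤ _ := by gcongr; omega
  have a4 : p * E * (j + 4) * (n + m) ≤ 4 * (p * (A + E + 1) * (u + j + 1) * (n + m)) :=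
    calc _ ≤ p * (A + E + 1) * (4 * (u + j + 1)) * (n + m) := by gcongr <;> omega
      _ = _ := by ring
  have e1 : 48 * p * (U + (A + 7) * m) = 48 * (p * U) + 48 * (p * ((A + 7) * m)) := by ring
  have e2 : 576 * p * E * (j + 4) * (16200 * (n + m)) =
      9331200 * (p * E * (j + 4) * (n + m)) := by ring
  omega

end MAINx

theorem p_MAIN (hROK : S_ROK) (hUP : S_UP) (hBLK : S_BLK) (hSUM : S_SUM) (hGROW : S_GROW) :
    S_MAIN := by
  obtain ⟨C, hC⟩ := hGROW
  refine ⟨37400000 * C, fun k j n u m T a hn hT hy => ?_⟩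
  have hp : 1 ≤ 192 ^ (k + 1) := Nat.one_le_pow _ _ (by norm_num)
  have hb := hBLK n m (4 * u) T a hT hy.1
  have main : cost T ((List.range m).map a) ≤ 37400000 *
      (192 ^ (k + 1) * (AA (k + 1) + EE (k + 1) + 1) * (u + j + 1) * (n + m)) := by
    rcases le_or_gt (Nat.size n) (4 * u) with h | h
    · have s : ∑ i ∈ range m, nP (pth n (a i) (lpar (MainA.Tr T a i)) (rpar n (MainA.Tr T a i)))
          (fun v => v / 2 ^ (4 * u)) ≤ ∑ _i ∈ range m, 1 := by
        refine sum_le_sum fun i _ => (card_le_card (t := {0}) fun y hy => ?_).trans_eq rfl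
        obtain ⟨v, hv, rfl⟩ := mem_image.1 hy
        have : v ≤ n := (mem_union.1 hv).elim (fun h => (mem_Icc.1 (mem_filter.1 h).1).2)
          fun h => (mem_Icc.1 (mem_filter.1 h).1).2
        exact mem_singleton.2 (Nat.div_eq_of_lt (this.trans_lt ((Nat.lt_size_self n).trans_le
          (Nat.pow_le_pow_right two_pos h))))
      rw [sum_const, card_range, smul_eq_mul, mul_one] at s
      refine MAINx.fin (P := m) (Q := 0) (U := 0) hp (by omega) ?_ (Nat.zero_le _) (Nat.zero_le _)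
      calc 24 * m ≤ 48 * 1 * (0 + (0 + 7) * m) := by omega
        _ ≤ 48 * 192 ^ (k + 1) * (0 + (AA (k + 1) + 7) * m) := by gcongr; omega
        _ ≤ _ := by omega
    · have n1 : 1 ≤ n := Nat.size_pos.1 (by omega)
      refine MAINx.fin hp hb (hSUM (run n m u T a) k j (hROK n m u T a hT hy n1) h.le
        (Nat.lt_size_self n) ((Nat.size_le.2 n.lt_two_pow_self).trans hn)
        (fun i hi => (hy.1 i hi).2) _ ?_) ?_ (hUP n m u T a hT hy)
      · refine (MAINx.big (2 ^ u) (n + m) Nat.one_le_two_pow).trans_eq ?_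
        rw [← pow_mul, mul_comm u]
        rfl
      · rw [MainA.cost_eq]
        refine sum_le_sum fun i hi => ?_
        have hi := mem_range.1 hi
        rw [(p_STRUCT n (a i) _ (MAINx.keys hT hy.1 i hi.le) (hy.1 i hi).1 (hy.1 i hi).2).2.2.1]
        exact (card_union_le _ _).trans (Nat.le_succ _)
  refine main.trans ?_
  rw [← mul_assoc, ← mul_assoc, mul_pow]
  gcongr
  · exact Nat.le_self_pow (by positivity) _
  · exact hC k

end Pool.Agent.P.MP_119182_lc.UM
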