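import Pool.Agent.P.MP_119182_lc.UM.Iface

/-! Step MET. -/

set_option autoImplicit false
set_option linter.unusedSectionVars false

namespace Pool.Agent.P.MP_119182_lc.UM

open Finset

theorem p_MET :
    S_MET := by
  classical
  intro d hd hs hn i hi hx
  obtain ⟨a, b, hab, hnear⟩ := hd.near i hi
  have h7 := hnear d.s0 le_rfl hs
  have hown := hd.own d.S i hs le_rfl hi
  rw [Nat.div_eq_of_lt (lt_of_le_of_lt hx hn)] at hown
  have hsub : (d.Pa i).image (fun v => v / 2 ^ d.s0) ⊆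
      (d.El d.s0 d.S i).image (fun v => v / 2 ^ d.s0) ∪
        ((d.Act d.s0 i).filter fun B => ∃ v ∈ Ioo a b, v / 2 ^ d.s0 = B) ∪
        (d.Up i).image (fun v => v / 2 ^ d.s0) := by
    intro B hB
    obtain ⟨v, hv, rfl⟩ := mem_image.1 hB
    by_cases hU : v ∈ d.Up i
    · exact mem_union_right _ (mem_image_of_mem _ hU)
    · refine mem_union_left _ ?_
      by_cases hA : v / 2 ^ d.s0 ∈ d.Act d.s0 i
      · exact mem_union_right _ (mem_filter.2 ⟨hA, v, mem_Ioo.2 (hab v hv hU), rfl⟩)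
      · refine mem_union_left _ (mem_image_of_mem _ (mem_filter.2 ⟨hv, hA, ?_⟩))
        have hvn : v ≤ d.n := (mem_Icc.1 (hd.psub i hi hv)).2
        rw [Nat.div_eq_of_lt (lt_of_le_of_lt hvn hn)]
        exact hown
  have h1 := card_le_card hsub
  have h2 := card_union_le ((d.El d.s0 d.S i).image (fun v => v / 2 ^ d.s0) ∪
        ((d.Act d.s0 i).filter fun B => ∃ v ∈ Ioo a b, v / 2 ^ d.s0 = B))
        ((d.Up i).image (fun v => v / 2 ^ d.s0))
  have h3 := card_union_le ((d.El d.s0 d.S i).image (fun v => v / 2 ^ d.s0))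
        ((d.Act d.s0 i).filter fun B => ∃ v ∈ Ioo a b, v / 2 ^ d.s0 = B)
  have h4 : ((d.Up i).image (fun v => v / 2 ^ d.s0)).card ≤ (d.Up i).card := card_image_le
  unfold Dat.cI nP
  omega

end Pool.Agent.P.MP_119182_lc.UM
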