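import Pool.Agent.P.MP_119182_lc.UM.Iface

/-! Step MIRF. -/

set_option autoImplicit false
set_option linter.unusedSectionVars false

namespace Pool.Agent.P.MP_119182_lc.UM

open Finset

theorem p_MIRF :
    S_MIRF := by
  intro N D P w1 w2 w1' w2' hN hP hw h
  have hmem : ∀ v ∈ D, N - v ∈ D.image fun z => N - z := fun v hv => mem_image_of_mem _ hv
  have hmemP : ∀ v ∈ P, N - v ∈ P.image fun z => N - z := fun v hv => mem_image_of_mem _ hv
  have hiff : ∀ v ∈ D, (N - v ∈ P.image fun z => N - z) ↔ v ∈ P := by
    intro v hv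
    refine ⟨fun hm => ?_, hmemP v⟩
    obtain ⟨z, hz, e⟩ := mem_image.1 hm
    have h1 := hN v hv
    have h2 := hN z (hP hz)
    have : z = v := by omega
    exact this ▸ hz
  refine ⟨hP, ?_, ?_, ?_⟩
  · intro he v hv
    have := h.emp (by rw [he, image_empty]) _ (hmem v hv)
    rw [← (hw v hv).1, ← (hw v hv).2, this]
  · intro v hv p hp p' hp' h1 h2
    have a1 := hN v hv
    have a2 := hN p (hP hp)
    have a3 := hN p' (hP hp')
    have := h.mid _ (hmem v hv) _ (hmemP p' hp') _ (hmemP p hp) (by omega) (by omega)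
    rw [(hw v hv).1] at this
    simpa only [hiff v hv] using this
  · obtain ⟨E, δ, hE, hW, hs, hd⟩ := h.ex
    refine ⟨P.filter fun v => N - v ∈ E, fun v => δ (N - v), filter_subset _ _, ?_, ?_, ?_⟩
    · intro p hp d hd d' hd' p' hp' h1 h2 h3 hz
      have a1 := hN p (hP hp)
      have a2 := hN d (hP hd)
      have a3 := hN d' (hP hd')
      have a4 := hN p' (hP hp')
      have := hW _ (hmemP p' hp') _ (hmemP d' hd') _ (hmemP d hd) _ (hmemP p hp) (by omega)
        (by omega) (by omega) (by
          intro z hz'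
          obtain ⟨y, hy, rfl⟩ := mem_image.1 hz'
          have a5 := hN y (hP hy)
          have := hz y hy
          omega)
      rcases this with h' | h'
      · exact .inr (mem_filter.2 ⟨hd', h'⟩)
      · exact .inl (mem_filter.2 ⟨hd, h'⟩)
    · rw [sum_image (by
        intro a ha b hb e
        have a1 := hN a ha
        have a2 := hN b hb
        simp only at e
        omega)] at hs
      exact hs
    · intro v hv
      have := hd _ (hmem v hv)
      rw [(hw v hv).1, (hw v hv).2] at this
      have e : (v ∈ P.filter fun v => N - v ∈ E) ↔ N - v ∈ E :=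
        ⟨fun h' => (mem_filter.1 h').2, fun h' => mem_filter.2 ⟨(hiff v hv).1 (hE h'), h'⟩⟩
      simpa only [e] using this

end Pool.Agent.P.MP_119182_lc.UM
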