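import Pool.Agent.P.MP_119182_lc.UM.Iface

/-! Step MIRW. -/

set_option autoImplicit false
set_option linter.unusedSectionVars false

namespace Pool.Agent.P.MP_119182_lc.UM

open Finset

theorem p_MIRW :
    S_MIRW := by
  intro N D lp rp lp' rp' hb he v hv
  have hm : ∀ a, a ≤ N → (N - a ∈ D.image (fun z => N - z) ↔ a ∈ D) := fun a ha => by
    rw [mem_image]
    constructor
    · rintro ⟨z, hz, e⟩
      have := (hb z hz).1
      have h : z = a := by omega
      exact h ▸ hz
    · exact fun h => ⟨a, h, rfl⟩
  obtain ⟨b1, b2, b3⟩ := hb v hv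
  obtain ⟨e1, e2⟩ := he v hv
  have h1 : inH (D.image fun z => N - z) lp' rp' (N - v) ↔ inH D lp rp v := by
    rw [inH, inH, e1, e2, hm _ b3, hm _ b2, or_comm]
  have h2 : inL (D.image fun z => N - z) lp' (N - v) ↔ inR D rp v := by
    rw [inL, inR, e1, hm _ b3, forall_mem_image]
    refine and_congr_right fun _ => forall₂_congr fun d hd => ?_
    obtain ⟨c1, _, c3⟩ := hb d hd
    rw [(he d hd).1]
    constructor
    · intro h h' h''
      exact h (by omega) (by rw [h''])
    · intro h h' h''
      exact h (by omega) (by omega)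
  have h3 : inR (D.image fun z => N - z) rp' (N - v) ↔ inL D lp v := by
    rw [inL, inR, e2, hm _ b2, forall_mem_image]
    refine and_congr_right fun _ => forall₂_congr fun d hd => ?_
    obtain ⟨c1, c2, _⟩ := hb d hd
    rw [(he d hd).2]
    constructor
    · intro h h' h''
      exact h (by omega) (by rw [h''])
    · intro h h' h''
      exact h (by omega) (by omega)
  unfold wt
  rw [propext h1, propext h2, propext h3]
  exact add_right_comm _ _ _

end Pool.Agent.P.MP_119182_lc.UM
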