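import Pool.Agent.P.MP_119182_lc.UM.Iface

/-! Step NAR. -/

set_option autoImplicit false
set_option linter.unusedSectionVars false

namespace Pool.Agent.P.MP_119182_lc.UM

open Finset

namespace NARx

theorem one {α β : Type} [DecidableEq α] [DecidableEq β] (θ : ℕ) (P S : Finset ℕ) (f : ℕ → α)
    (g : ℕ → β) (h1 : ∀ v ∈ S, v ∈ P ∧ nP (P.filter fun z => g z = g v) f < θ)
    (h2 : ∀ u ∈ S, ∀ v ∈ S, u < v → g u = g v) : (S.image f).card ≤ θ := by
  rcases S.eq_empty_or_nonempty with rfl | ⟨v, hv⟩
  · simp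
  · refine le_trans (card_le_card (image_subset_image fun u hu => ?_)) (h1 v hv).2.le
    refine mem_filter.2 ⟨(h1 u hu).1, ?_⟩
    rcases lt_trichotomy u v with h | rfl | h
    exacts [h2 u hu v hv h, rfl, (h2 v hv u hu h).symm]

end NARx

theorem p_NAR :
    S_NAR := by
  intro α β _ _ h θ P f g _ _
  classical
  set L := P.filter fun v => nP (P.filter fun z => g z = g v) f < θ ∧
    ¬ ∃ p ∈ P, p < v ∧ g p ≠ g v with hL
  set R := P.filter fun v => nP (P.filter fun z => g z = g v) f < θ ∧
    ¬ ∃ p ∈ P, v < p ∧ g p ≠ g v with hR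
  have l : (L.image f).card ≤ θ :=
    NARx.one θ P L f g (fun v hv => ⟨(mem_filter.1 hv).1, (mem_filter.1 hv).2.1⟩)
      fun u hu v hv huv => by
        by_contra e
        exact (mem_filter.1 hv).2.2 ⟨u, (mem_filter.1 hu).1, huv, e⟩
  have r : (R.image f).card ≤ θ :=
    NARx.one θ P R f g (fun v hv => ⟨(mem_filter.1 hv).1, (mem_filter.1 hv).2.1⟩)
      fun u hu v hv huv => by
        by_contra e
        exact (mem_filter.1 hu).2.2 ⟨v, (mem_filter.1 hv).1, huv, fun e' => e e'.symm⟩
  have sub : (P.filter fun v => nP (P.filter fun z => g z = g v) f < θ).image f ⊆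
      ((inner h θ P f g).image f ∪
        (P.image f).filter fun p => h ≤ (P.filter fun v => f v = p).card) ∪
        (L.image f ∪ R.image f) := by
    intro p hp
    obtain ⟨v, hv, rfl⟩ := mem_image.1 hp
    obtain ⟨hvP, hn⟩ := mem_filter.1 hv
    by_cases a : ∃ p ∈ P, p < v ∧ g p ≠ g v
    · by_cases b : ∃ p ∈ P, v < p ∧ g p ≠ g v
      · refine mem_union_left _ ?_
        by_cases c : (P.filter fun z => f z = f v).card < h
        · exact mem_union_left _ (mem_image_of_mem f (mem_filter.2 ⟨hvP, c, hn, a, b⟩))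
        · exact mem_union_right _ (mem_filter.2 ⟨mem_image_of_mem f hvP, not_lt.1 c⟩)
      · exact mem_union_right _ (mem_union_right _
          (mem_image_of_mem f (mem_filter.2 ⟨hvP, hn, b⟩)))
    · exact mem_union_right _ (mem_union_left _ (mem_image_of_mem f (mem_filter.2 ⟨hvP, hn, a⟩)))
  have k := (card_le_card sub).trans ((card_union_le _ _).trans
    (add_le_add (card_union_le _ _) (card_union_le _ _)))
  unfold nN nH nP
  unfold nP at k
  omega

end Pool.Agent.P.MP_119182_lc.UM
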