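import Pool.Agent.P.MP_119182_lc.UM.Iface

/-! Step NEAR. -/

set_option autoImplicit false
set_option linter.unusedSectionVars false

namespace Pool.Agent.P.MP_119182_lc.UM

open Finset

namespace NEARx

theorem drift (hREC : S_REC) (a : ℕ → ℕ) (D m i : ℕ) :
    ∀ k : ℕ, i + k < m → (∀ l ∈ Ioc i (i + k), ¬ birth a D m l) →
      ∀ y ∈ insert (a (i + k)) (Rc a D (i + k)),
        ∃ z ∈ insert (a i) (Rc a D i), Nat.dist y z ≤ k * D := by
  intro k
  induction k with
  | zero =>
    intro _ _ y hy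
    exact ⟨y, by simpa using hy, by simp [Nat.dist_self]⟩
  | succ k ih =>
    intro hm hb y hy
    have ih' := ih (by omega) (fun l hl => hb l (by
      rw [mem_Ioc] at hl ⊢
      omega))
    have hsub : Rc a D (i + k + 1) ⊆ insert (a (i + k)) (Rc a D (i + k)) := (hREC a D (i + k)).2.1
    have hmul : (k + 1) * D = k * D + D := by ring
    have e : i + (k + 1) = i + k + 1 := by ring
    rw [e] at hy hm
    rcases mem_insert.1 hy with h | h
    · have hnb : ¬ birth a D m (i + k + 1) := hb _ (by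
        rw [mem_Ioc]
        omega)
      have : ∃ y' ∈ Rc a D (i + k + 1), Nat.dist (a (i + k + 1)) y' ≤ D := by
        by_contra hc
        apply hnb
        refine ⟨hm, fun y' hy' => ?_⟩
        by_contra hlt
        exact hc ⟨y', hy', by omega⟩
      obtain ⟨y', hy', hd⟩ := this
      obtain ⟨z, hz, hz2⟩ := ih' y' (hsub hy')
      refine ⟨z, hz, ?_⟩
      have := Nat.dist.triangle_inequality y y' z
      rw [h] at this ⊢
      omega
    · obtain ⟨z, hz, hz2⟩ := ih' y (hsub h)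
      exact ⟨z, hz, by omega⟩

theorem short (q i j : ℕ) (hq : 0 < q) (h : ∀ l ∈ Ioc i j, ¬ q ∣ l) : j < i + q := by
  by_contra hc
  have h1 : i < (i / q + 1) * q := by
    have := Nat.div_add_mod i q
    have h2 := Nat.mod_lt i hq
    nlinarith
  have h3 : (i / q + 1) * q ≤ i + q := by
    have := Nat.div_mul_le_self i q
    nlinarith
  exact h ((i / q + 1) * q) (by
    rw [mem_Ioc]
    omega) (Dvd.intro_left _ rfl)

end NEARx

theorem p_NEAR (hREC : S_REC) :
    S_NEAR := by
  classical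
  intro m u σ i a hu B hB
  unfold act at hB
  rw [mem_image] at hB
  obtain ⟨j, hj, rfl⟩ := hB
  rw [mem_filter, mem_Ico] at hj
  obtain ⟨⟨hij, hjm⟩, hc⟩ := hj
  obtain ⟨k, rfl⟩ := Nat.exists_eq_add_of_le hij
  have h1 : ∀ l ∈ Ioc i (i + k), ¬ birth a (2 ^ u) m l := fun l hl hb => hc l hl (Or.inl hb)
  have h2 : ∀ l ∈ Ioc i (i + k), ¬ 2 ^ (σ - u) ∣ l := fun l hl hb => hc l hl (Or.inr hb)
  have h3 := NEARx.short (2 ^ (σ - u)) i (i + k) (by positivity) h2
  obtain ⟨z, hz, hd⟩ := NEARx.drift hREC a (2 ^ u) m i k hjm h1 (a (i + k)) (mem_insert_self _ _)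
  refine ⟨a (i + k), rfl, z, hz, hd.trans ?_⟩
  have h4 : 2 ^ σ = 2 ^ (σ - u) * 2 ^ u := by
    rw [← pow_add]
    congr 1
    omega
  rw [h4]
  exact Nat.mul_le_mul_right _ (by omega)

end Pool.Agent.P.MP_119182_lc.UM
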