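import Pool.Agent.P.MP_119182_lc.UM.Iface

/-! Step PHI. -/

set_option autoImplicit false
set_option linter.unusedSectionVars false

namespace Pool.Agent.P.MP_119182_lc.UM

open Finset

theorem p_PHI (hPHI1 : S_PHI1) (hPHI2 : S_PHI2) (hTEL : S_TEL) :
    S_PHI := by
  intro d t lam h ok lad
  have key : ∀ r, 2 ^ t 0 * ((∑ i ∈ range d.m,
      if i ∈ d.chg (t r) then 2 * h * d.c * 2 ^ (t r - t 0) else 0) +
        2 * h * d.c * 2 ^ (t r - t 0)) ≤ 2 * h * d.c * d.M := fun r => by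
    have h1 := lad.mono r.zero_le
    refine le_trans (le_of_eq ?_) (Nat.mul_le_mul_left _
      (ok.few (t r) (lad.bot.trans h1) ((lad.top r).trans lad.cap)))
    rw [sum_ite_mem, inter_eq_right.2 (show d.chg (t r) ⊆ range d.m from filter_subset _ _),
      sum_const, smul_eq_mul, ← Nat.pow_sub_mul_pow 2 h1]
    ring
  have h1 := hTEL d.m _ (fun i => 2 * d.cH h (t 0) (t lam) i + 12 * d.cS t lam i) _
    (d.Phi t lam (2 * h)) (fun i hi => (hPHI1 d t lam h ok lad i hi).trans (add_assoc _ _ _).le)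
    fun i hi => (hPHI2 d t lam (2 * h) ok lad (i + 1)).2 i hi
  have h2 := (hPHI2 d t lam (2 * h) ok lad 0).1
  have h3 : 2 ^ t 0 * (∑ r ∈ range lam, 2 * h * d.c * 2 ^ (t (r + 1) - t 0) +
      ∑ i ∈ range d.m, ∑ r ∈ range lam,
        ((if i ∈ d.chg (t r) then 2 * h * d.c * 2 ^ (t r - t 0) else 0) +
          if i ∈ d.chg (t (r + 1)) then 2 * h * d.c * 2 ^ (t (r + 1) - t 0) else 0)) ≤
      lam * (4 * h * d.c * d.M) := by
    rw [sum_comm, ← sum_add_distrib, mul_sum]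
    refine (sum_le_card_nsmul _ _ _ fun r _ => ?_).trans (by rw [card_range, smul_eq_mul])
    have := key r
    have := key (r + 1)
    rw [sum_add_distrib]
    nlinarith [Nat.zero_le (2 ^ t 0 * (2 * h * d.c * 2 ^ (t r - t 0)))]
  nlinarith [Nat.mul_le_mul_left (2 ^ t 0) h1, Nat.mul_le_mul_left (2 ^ t 0) h2]

end Pool.Agent.P.MP_119182_lc.UM
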