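import Pool.Agent.P.MP_119182_lc.UM.Iface

/-! Step PHI1. -/

set_option autoImplicit false
set_option linter.unusedSectionVars false

namespace Pool.Agent.P.MP_119182_lc.UM

open Finset

namespace PHI1x

theorem div_mid {a b c k : ℕ} (h1 : a ≤ b) (h2 : b ≤ c) (h : a / k = c / k) : b / k = a / k :=
  le_antisymm (h ▸ Nat.div_le_div_right h2) (Nat.div_le_div_right h1)

theorem div_up {u v s s' : ℕ} (hs : s ≤ s') (h : v / 2 ^ s = u / 2 ^ s) :
    v / 2 ^ s' = u / 2 ^ s' := by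
  obtain ⟨e, rfl⟩ := Nat.exists_eq_add_of_le hs
  rw [pow_add, ← Nat.div_div_eq_div_mul, ← Nat.div_div_eq_div_mul, h]

theorem mem_blk {d : Dat} {t : ℕ → ℕ} {q : ℕ × ℕ} {v : ℕ} :
    v ∈ d.blkS t q ↔ v ∈ Icc 1 d.n ∧ v / 2 ^ t q.1 = q.2 := mem_filter

theorem el_dom (d : Dat) (t : ℕ → ℕ) (lam : ℕ) (ok : d.OK) (i : ℕ) (hi : i < d.m) :
    d.El (t 0) (t lam) i ⊆ d.dom t lam i := fun v hv => by
  obtain ⟨h1, h2⟩ := mem_filter.1 hv
  exact mem_filter.2 ⟨ok.psub i hi h1, h2⟩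

theorem fib (hLEV : S_LEV) (d : Dat) (t : ℕ → ℕ) (lam : ℕ) (ok : d.OK) (la : d.Lad t lam) (i : ℕ)
    (hi : i < d.m) (u : ℕ) (hu : u ∈ d.dom t lam i) :
    (d.El (t 0) (t lam) i).filter (fun v => d.sup t lam i v = d.sup t lam i u) =
      d.Pa i ∩ d.blkS t (d.sup t lam i u) ∧ d.x i ∉ d.blkS t (d.sup t lam i u) := by
  obtain ⟨-, u1, u2⟩ := mem_filter.1 hu
  obtain ⟨a1, a2, a3⟩ := (hLEV d t lam ok la i u).1 u1 u2
  constructor
  · ext v
    rw [mem_inter, mem_blk]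
    simp only [mem_filter, Dat.El, Dat.sup, Prod.mk.injEq]
    constructor
    · rintro ⟨⟨h1, -⟩, h2, h3⟩
      exact ⟨h1, ok.psub i hi h1, by rw [← h3, h2]⟩
    · rintro ⟨h1, -, h2⟩
      have h3 := div_up (la.mono (Nat.le_succ (d.lev t lam i u))) h2
      obtain ⟨b1, b2, b3⟩ := (hLEV d t lam ok la i v).2 _ a1 (by rw [h2]; exact a2)
        (by rw [h3]; exact a3)
      exact ⟨⟨h1, b2, b3⟩, b1, by rw [b1, h2]⟩
  · intro hx
    have h2 : d.x i / 2 ^ t (d.lev t lam i u) = u / 2 ^ t (d.lev t lam i u) := (mem_filter.1 hx).2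
    refine a2 (h2 ▸ ok.own _ i (la.bot.trans (la.mono (Nat.zero_le _))) ((la.top _).trans la.cap) hi)

theorem blk_cvx (d : Dat) (t : ℕ → ℕ) (q : ℕ × ℕ) : Cvx (d.blkS t q) := by
  intro a ha c hc b h1 h2
  simp only [Dat.blkS, mem_filter, mem_Icc] at ha hc ⊢
  exact ⟨⟨by omega, by omega⟩, (div_mid h1 h2 (ha.2.trans hc.2.symm)).trans ha.2⟩

end PHI1x

open PHI1x in
theorem p_PHI1 (hLEV : S_LEV) (hGCV : S_GCV) (hSPL : S_SPL) (hL1S : S_L1S) :
    S_PHI1 := by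
  intro d t lam h ok la i hi
  have hsub := el_dom d t lam ok i hi
  obtain ⟨s1, s2, -⟩ := hSPL ℕ ℕ (ℕ × ℕ) h 0 (d.El (t 0) (t lam) i)
    ((d.dom t lam i).image (d.sup t lam i)) (fun v => v / 2 ^ t 0) (fun v => v / 2 ^ t 0)
    (d.sup t lam i) (fun v hv => mem_image_of_mem _ (hsub hv)) (fun _ _ _ _ e => e)
    (fun u hu v hv e => ((hGCV d t lam ok la i).2 u (hsub hu) v (hsub hv)).1 e)
  have key : ∀ q ∈ (d.dom t lam i).image (d.sup t lam i),
      nP ((d.El (t 0) (t lam) i).filter fun v => d.sup t lam i v = q) (fun v => v / 2 ^ t 0) +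
        2 * Th1 (2 * h) (d.blkS t q) (fun v => v / 2 ^ t 0) (d.W (i + 1) (d.blkS t q)) ≤
      2 * Th1 (2 * h) (d.blkS t q) (fun v => v / 2 ^ t 0) (d.W i (d.blkS t q)) +
        2 * nH h ((d.El (t 0) (t lam) i).filter fun v => d.sup t lam i v = q)
          (fun v => v / 2 ^ t 0) +
        12 * (if q ∈ (d.El (t 0) (t lam) i).image (d.sup t lam i) then 1 else 0) := by
    intro q hq
    obtain ⟨u, hu, rfl⟩ := mem_image.1 hq
    obtain ⟨e, hx⟩ := fib hLEV d t lam ok la i hi u hu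
    have wf := ok.wf i hi (d.blkS t (d.sup t lam i u)) (fun v hv => (mem_blk.1 hv).1)
      (blk_cvx d t (d.sup t lam i u)) hx
    obtain ⟨l1, l2⟩ := hL1S ℕ h _ _ (fun v => v / 2 ^ t 0) _ _ wf
      (fun a _ b _ c _ h1 h2 e => div_mid h1 h2 e)
    split_ifs with hm
    · rw [e]
      exact l2
    · have e0 : (d.El (t 0) (t lam) i).filter (fun v => d.sup t lam i v = d.sup t lam i u) = ∅ :=
        filter_eq_empty_iff.2 fun v hv ev => hm (mem_image.2 ⟨v, hv, ev⟩)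
      have l3 := l1 (e.symm.trans e0)
      rw [e0]
      have z : nP (∅ : Finset ℕ) (fun v => v / 2 ^ t 0) = 0 := by simp [nP]
      rw [z, l3]
      omega
  have hs := sum_le_sum key
  simp only [sum_add_distrib, ← mul_sum] at hs
  have hc : ∑ q ∈ (d.dom t lam i).image (d.sup t lam i),
      (if q ∈ (d.El (t 0) (t lam) i).image (d.sup t lam i) then 1 else 0) ≤ d.cS t lam i := by
    rw [← card_filter]
    exact card_le_card fun q hq => (mem_filter.1 hq).2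
  rw [← s1, ← s2] at hs
  unfold Dat.cI Dat.cH Dat.Phi
  omega

end Pool.Agent.P.MP_119182_lc.UM
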