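import Pool.Agent.P.MP_119182_lc.UM.Iface

/-! Step PHI2. -/

set_option autoImplicit false
set_option linter.unusedSectionVars false

namespace Pool.Agent.P.MP_119182_lc.UM

open Finset

namespace PHI2x

/-- The numbers whose quotient by `2 ^ e` lies in `X`. -/
def kids (X : Finset ℕ) (e : ℕ) : Finset ℕ :=
  X.biUnion fun b => Ico (b * 2 ^ e) (b * 2 ^ e + 2 ^ e)

theorem card_kids (X : Finset ℕ) (e : ℕ) : (kids X e).card ≤ X.card * 2 ^ e := by
  unfold kids
  refine card_biUnion_le_card_mul _ _ _ ?_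
  intro b _
  rw [Nat.card_Ico, Nat.add_sub_cancel_left]

theorem mem_kids (X : Finset ℕ) (e y : ℕ) (h : y / 2 ^ e ∈ X) : y ∈ kids X e := by
  unfold kids
  refine mem_biUnion.2 ⟨y / 2 ^ e, h, mem_Ico.2 ⟨Nat.div_mul_le_self _ _, ?_⟩⟩
  exact Nat.lt_div_mul_add (by positivity)

theorem div_div (v s s' : ℕ) (h : s ≤ s') : v / 2 ^ s / 2 ^ (s' - s) = v / 2 ^ s' := by
  rw [Nat.div_div_eq_div_mul, ← pow_add, Nat.add_sub_cancel' h]

theorem th1_le (c : ℕ) (D : Finset ℕ) (f w : ℕ → ℕ) : Th1 c D f w ≤ (D.image f).card * c := by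
  unfold Th1
  have := sum_le_card_nsmul (D.image f)
    (fun p => min c (∑ v ∈ D.filter (fun v => f v = p), w v)) c (fun p _ => min_le_left _ _)
  simpa using this

theorem term_le (d : Dat) (t : ℕ → ℕ) (ht : Monotone t) (c1 : ℕ) (q : ℕ × ℕ) (w : ℕ → ℕ) :
    Th1 c1 (d.blkS t q) (fun v => v / 2 ^ t 0) w ≤ c1 * 2 ^ (t q.1 - t 0) := by
  refine (th1_le _ _ _ _).trans ?_
  rw [mul_comm]
  refine Nat.mul_le_mul_left _ ?_
  have hs : (d.blkS t q).image (fun v => v / 2 ^ t 0) ⊆ kids {q.2} (t q.1 - t 0) := by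
    intro y hy
    obtain ⟨v, hv, rfl⟩ := mem_image.1 hy
    have hv2 : v / 2 ^ t q.1 = q.2 := (mem_filter.1 hv).2
    refine mem_kids _ _ _ ?_
    rw [div_div v _ _ (ht (Nat.zero_le _)), hv2]
    exact mem_singleton_self _
  have := (card_le_card hs).trans (card_kids _ _)
  simpa using this

theorem sum_lev (lam : ℕ) (I : Finset (ℕ × ℕ)) (B : ℕ → Finset ℕ) (g : ℕ × ℕ → ℕ) (u : ℕ → ℕ)
    (h : ∀ q ∈ I, q.1 < lam ∧ q.2 ∈ B q.1) (hg : ∀ q, g q ≤ u q.1) :
    ∑ q ∈ I, g q ≤ ∑ r ∈ range lam, (B r).card * u r := by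
  rw [← sum_fiberwise_of_maps_to (s := I) (t := range lam) (g := fun q => q.1)
    (fun q hq => mem_range.2 (h q hq).1)]
  refine sum_le_sum fun r _ => ?_
  have h1 := sum_le_card_nsmul (I.filter fun q => q.1 = r) g (u r) (fun q hq => by
    have := hg q
    rwa [(mem_filter.1 hq).2] at this)
  have h2 : (I.filter fun q => q.1 = r).card ≤ (B r).card := by
    refine card_le_card_of_injOn (fun q => q.2) ?_ ?_
    · intro q hq
      have hq' := mem_filter.1 (mem_coe.1 hq)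
      have := (h q hq'.1).2
      rw [hq'.2] at this
      exact mem_coe.2 this
    · intro p hp q hq hpq
      have hp' := mem_filter.1 (mem_coe.1 hp)
      have hq' := mem_filter.1 (mem_coe.1 hq)
      exact Prod.ext (hp'.2.trans hq'.2.symm) hpq
  rw [smul_eq_mul] at h1
  exact h1.trans (Nat.mul_le_mul_right _ h2)

theorem kids_le (c c1 a b e : ℕ) (X : Finset ℕ) (hX : X.card ≤ c) (h1 : a ≤ b) (h2 : b ≤ e) :
    (kids X (e - b)).card * (c1 * 2 ^ (b - a)) ≤ c1 * c * 2 ^ (e - a) := by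
  have h3 : 2 ^ (e - a) = 2 ^ (e - b) * 2 ^ (b - a) := by
    rw [← pow_add]
    congr 1
    omega
  have h4 : (kids X (e - b)).card ≤ c * 2 ^ (e - b) :=
    (card_kids _ _).trans (Nat.mul_le_mul_right _ hX)
  calc (kids X (e - b)).card * (c1 * 2 ^ (b - a))
      ≤ c * 2 ^ (e - b) * (c1 * 2 ^ (b - a)) := Nat.mul_le_mul_right _ h4
    _ = c1 * c * 2 ^ (e - a) := by rw [h3]; ring

end PHI2x

open PHI2x in
theorem p_PHI2 (hLEV : S_LEV) :
    S_PHI2 := by
  intro d t lam c1 hOK hL k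
  have hcard : ∀ r j, (d.Act (t r) j).card ≤ d.c := fun r j =>
    hOK.card _ _ (hL.bot.trans (hL.mono (Nat.zero_le r))) ((hL.top r).trans hL.cap)
  have hmem : ∀ j, ∀ q ∈ (d.dom t lam j).image (d.sup t lam j), ∃ v ∈ Icc 1 d.n,
      q.2 = v / 2 ^ t q.1 ∧ q.1 < lam ∧ v / 2 ^ t q.1 ∉ d.Act (t q.1) j ∧
        v / 2 ^ t (q.1 + 1) ∈ d.Act (t (q.1 + 1)) j := by
    intro j q hq
    obtain ⟨v, hv, rfl⟩ := mem_image.1 hq
    have hv' := mem_filter.1 hv
    exact ⟨v, hv'.1, rfl, (hLEV d t lam hOK hL j v).1 hv'.2.1 hv'.2.2⟩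
  have hkid : ∀ j r v, v / 2 ^ t (r + 1) ∈ d.Act (t (r + 1)) j →
      v / 2 ^ t r ∈ kids (d.Act (t (r + 1)) j) (t (r + 1) - t r) := by
    intro j r v hv
    refine mem_kids _ _ _ ?_
    rwa [div_div v _ _ (hL.mono (Nat.le_succ r))]
  refine ⟨?_, ?_⟩
  · unfold Dat.Phi
    refine (sum_lev lam _ (fun r => kids (d.Act (t (r + 1)) 0) (t (r + 1) - t r)) _
      (fun r => c1 * 2 ^ (t r - t 0)) ?_ (fun q => term_le d t hL.mono c1 q _)).trans ?_
    · intro q hq
      obtain ⟨v, _, h1, h2, _, h4⟩ := hmem 0 q hq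
      refine ⟨h2, ?_⟩
      rw [h1]
      exact hkid 0 _ v h4
    · refine sum_le_sum fun r _ => ?_
      exact kids_le _ _ _ _ _ _ (hcard _ _) (hL.mono (Nat.zero_le r)) (hL.mono (Nat.le_succ r))
  · intro i hi
    unfold Dat.Phi
    have hchg : ∀ r, d.Act (t r) (i + 1) ≠ d.Act (t r) i → i ∈ d.chg (t r) := by
      intro r hr
      exact mem_filter.2 ⟨mem_range.2 hi, t r, mem_Icc.2 ⟨le_rfl, (hL.top r).trans hL.cap⟩, hr⟩
    set I := (d.dom t lam i).image (d.sup t lam i) with hI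
    set I' := (d.dom t lam (i + 1)).image (d.sup t lam (i + 1)) with hI'
    set g : ℕ × ℕ → ℕ := fun q =>
      Th1 c1 (d.blkS t q) (fun v => v / 2 ^ t 0) (d.W k (d.blkS t q)) with hg
    have h0 : ∑ q ∈ I', g q ≤ ∑ q ∈ I, g q + ∑ q ∈ I' \ I, g q := by
      have h1 : ∑ q ∈ I', g q ≤ ∑ q ∈ I ∪ (I' \ I), g q := by
        refine sum_le_sum_of_subset ?_
        intro q hq
        by_cases h : q ∈ I
        · exact mem_union_left _ h
        · exact mem_union_right _ (mem_sdiff.2 ⟨hq, h⟩)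
      rwa [sum_union disjoint_sdiff] at h1
    refine h0.trans (Nat.add_le_add_left ?_ _)
    refine (sum_lev lam _ (fun r => (if i ∈ d.chg (t r) then d.Act (t r) i else ∅) ∪
      (if i ∈ d.chg (t (r + 1)) then kids (d.Act (t (r + 1)) (i + 1)) (t (r + 1) - t r) else ∅))
      _ (fun r => c1 * 2 ^ (t r - t 0)) ?_ (fun q => term_le d t hL.mono c1 q _)).trans ?_
    · intro q hq
      have hq' := mem_sdiff.1 hq
      obtain ⟨v, hv, h1, h2, h3, h4⟩ := hmem (i + 1) q hq'.1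
      refine ⟨h2, ?_⟩
      by_cases ha : v / 2 ^ t q.1 ∈ d.Act (t q.1) i
      · refine mem_union_left _ ?_
        have hc : i ∈ d.chg (t q.1) := hchg _ fun he => h3 (he ▸ ha)
        rw [if_pos hc, h1]
        exact ha
      · by_cases hb : v / 2 ^ t (q.1 + 1) ∈ d.Act (t (q.1 + 1)) i
        · exfalso
          obtain ⟨e1, e2, e3⟩ := (hLEV d t lam hOK hL i v).2 q.1 h2 ha hb
          refine hq'.2 (mem_image.2 ⟨v, mem_filter.2 ⟨hv, e2, e3⟩, ?_⟩)
          unfold Dat.sup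
          rw [e1]
          exact Prod.ext rfl h1.symm
        · refine mem_union_right _ ?_
          have hc : i ∈ d.chg (t (q.1 + 1)) := hchg _ fun he => hb (he ▸ h4)
          rw [if_pos hc, h1]
          exact hkid _ _ v h4
    · refine sum_le_sum fun r _ => ?_
      refine (Nat.mul_le_mul_right _ (card_union_le _ _)).trans ?_
      rw [add_mul]
      refine Nat.add_le_add ?_ ?_
      · split_ifs
        · calc (d.Act (t r) i).card * (c1 * 2 ^ (t r - t 0))
              ≤ d.c * (c1 * 2 ^ (t r - t 0)) := Nat.mul_le_mul_right _ (hcard _ _)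
            _ = c1 * d.c * 2 ^ (t r - t 0) := by ring
        · simp
      · split_ifs
        · exact kids_le _ _ _ _ _ _ (hcard _ _) (hL.mono (Nat.zero_le r))
            (hL.mono (Nat.le_succ r))
        · simp

end Pool.Agent.P.MP_119182_lc.UM
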