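import Pool.Agent.P.MP_119182_lc.UM.Iface

/-! Step REC. -/

set_option autoImplicit false
set_option linter.unusedSectionVars false

namespace Pool.Agent.P.MP_119182_lc.UM

open Finset

theorem p_REC :
    S_REC := by
  intro a D i
  refine ⟨?_, fun z hz => ?_, fun z hz => ?_⟩
  · rcases ((range i).filter fun s => ((Ioo s i).image a).card ≤ D).eq_empty_or_nonempty with h | h
    · simp [Rc, h]
    · obtain ⟨s0, h0, hmin⟩ := exists_min_image _ id h
      have hsub : Rc a D i ⊆ insert (a s0) ((Ioo s0 i).image a) := fun z hz => by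
        obtain ⟨s, hs, rfl⟩ := mem_image.1 hz
        rcases (hmin s hs).eq_or_lt with e | e
        · exact mem_insert.2 (Or.inl (congrArg a e.symm))
        · exact mem_insert_of_mem
            (mem_image_of_mem a (mem_Ioo.2 ⟨e, mem_range.1 (mem_filter.1 hs).1⟩))
      exact (card_le_card hsub).trans ((card_insert_le _ _).trans
        (Nat.succ_le_succ (mem_filter.1 h0).2))
  · obtain ⟨s, hs, rfl⟩ := mem_image.1 hz
    obtain ⟨h1, h2⟩ := mem_filter.1 hs
    rcases (Nat.lt_succ_iff.1 (mem_range.1 h1)).eq_or_lt with e | e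
    · exact mem_insert.2 (Or.inl (congrArg a e))
    · refine mem_insert_of_mem (mem_image_of_mem a (mem_filter.2 ⟨mem_range.2 e, ?_⟩))
      exact (card_le_card (image_subset_image (Ioo_subset_Ioo_right i.le_succ))).trans h2
  · obtain ⟨s, hs, rfl⟩ := mem_image.1 hz
    exact ⟨s, mem_range.1 (mem_filter.1 hs).1, rfl⟩

end Pool.Agent.P.MP_119182_lc.UM
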