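import Pool.Agent.P.MP_119182_lc.UM.Iface

/-! Step ROK. -/

set_option autoImplicit false
set_option linter.unusedSectionVars false

namespace Pool.Agent.P.MP_119182_lc.UM

open Finset

namespace ROKx

theorem keys (n m : ℕ) (T : BT) (a : ℕ → ℕ) (hT : T.keys = List.range' 1 n)
    (ha : ∀ i < m, 1 ≤ a i ∧ a i ≤ n) : ∀ t ≤ m, (MainA.Tr T a t).keys = List.range' 1 n := by
  intro t
  induction t with
  | zero => exact fun _ => hT
  | succ t ih =>
    intro ht
    exact (p_STRUCT n (a t) _ (ih (by omega)) (ha t (by omega)).1 (ha t (by omega)).2).1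

theorem divup (σ τ v w : ℕ) (h : σ ≤ τ) (e : v / 2 ^ σ = w / 2 ^ σ) :
    v / 2 ^ τ = w / 2 ^ τ := by
  obtain ⟨k, rfl⟩ := Nat.exists_eq_add_of_le h
  rw [pow_add, ← Nat.div_div_eq_div_mul, ← Nat.div_div_eq_div_mul, e]

theorem psub (n x : ℕ) (lp rp : ℕ → ℕ) : pth n x lp rp ⊆ Icc 1 n :=
  union_subset (filter_subset _ _) (filter_subset _ _)

end ROKx

theorem p_ROK (hWT : S_WT) (hACARD : S_ACARD) (hFEW : S_FEW) :
    S_ROK := by
  classical
  intro n m u T a hT hH hn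
  have hK := ROKx.keys n m T a hT hH.1
  refine ⟨fun i _ => ROKx.psub _ _ _ _, ?_, ?_, ?_, ?_, ?_, ?_⟩
  · intro i hi D hD hC hx
    have hi' : i < m := hi
    exact hWT n (a i) (MainA.Tr T a i) D (hK i hi'.le) (hH.1 i hi').1 (hH.1 i hi').2 hD hC hx
  · intro σ i _ _ hi
    have hi' : i < m := hi
    change a i / 2 ^ σ ∈ act a u m σ i
    unfold act
    refine mem_image.mpr ⟨i, mem_filter.mpr ⟨mem_Ico.mpr ⟨le_rfl, hi'⟩, ?_⟩, rfl⟩
    intro l hl
    have := mem_Ioc.mp hl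
    omega
  · intro σ τ i v _ hστ _ hv
    change v / 2 ^ σ ∈ act a u m σ i at hv
    change v / 2 ^ τ ∈ act a u m τ i
    unfold act at hv ⊢
    obtain ⟨j, hj, e⟩ := mem_image.mp hv
    obtain ⟨hj1, hj2⟩ := mem_filter.mp hj
    refine mem_image.mpr ⟨j, mem_filter.mpr ⟨hj1, ?_⟩, ROKx.divup σ τ _ _ hστ e⟩
    intro l hl hc
    refine hj2 l hl ?_
    rcases hc with hc | hc
    · exact Or.inl hc
    · exact Or.inr ((pow_dvd_pow 2 (Nat.sub_le_sub_right hστ u)).trans hc)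
  · intro σ i h1 _
    have h1' : 4 * u ≤ σ := h1
    exact (hACARD m u σ i a (by omega)).1
  · intro σ h1 h2
    exact hFEW n m u T a hH hn σ h1 h2
  · intro i hi
    have hi' : i < m := hi
    refine ⟨mlo a (2 ^ u) i, mhi a n (2 ^ u) i, ?_, ?_⟩
    · intro v hv hU
      have hv' : v ∈ pth n (a i) (lpar (MainA.Tr T a i)) (rpar n (MainA.Tr T a i)) := hv
      have hI := mem_Icc.mp (ROKx.psub _ _ _ _ hv')
      have hb := (p_STRUCT n (a i) _ (hK i hi'.le) (hH.1 i hi').1 (hH.1 i hi').2).2.1.bnd v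
        hI.1 hI.2
      have hU' : ¬ (lpar (MainA.Tr T a i) v < mlo a (2 ^ u) i ∨
          mhi a n (2 ^ u) i < rpar n (MainA.Tr T a i) v) := fun h =>
        hU (mem_filter.mpr ⟨hv', h⟩)
      omega
    · intro σ h1 _
      have h1' : 4 * u ≤ σ := h1
      refine (hACARD m u σ i a (by omega)).2 _ _ ?_
      intro z hz
      rcases le_or_gt z (a i) with h | h
      · exact Or.inl (le_sup (f := id) (mem_filter.mpr ⟨hz, h⟩))
      · exact Or.inr (min'_le _ _ (mem_insert_of_mem (mem_filter.mpr ⟨hz, h⟩)))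

end Pool.Agent.P.MP_119182_lc.UM
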