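import Pool.Agent.P.MP_119182_lc.UM.Iface

/-! Step SPL. -/

set_option autoImplicit false
set_option linter.unusedSectionVars false

namespace Pool.Agent.P.MP_119182_lc.UM

open Finset

namespace SPLx

variable {α β κ : Type} [DecidableEq α] [DecidableEq β] [DecidableEq κ] {P : Finset ℕ}
  {K : Finset κ} {f : ℕ → α} {g : ℕ → β} {l : ℕ → κ}

theorem one (hK : ∀ v ∈ P, l v ∈ K) (hf : ∀ u ∈ P, ∀ v ∈ P, f u = f v → l u = l v) :
    nP P f = ∑ q ∈ K, nP (P.filter fun v => l v = q) f := by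
  unfold nP
  rw [← card_biUnion]
  · congr 1
    ext p
    simp only [mem_biUnion, mem_image, mem_filter]
    exact ⟨fun ⟨v, a, b⟩ => ⟨_, hK v a, v, ⟨a, rfl⟩, b⟩, fun ⟨_, _, v, a, b⟩ => ⟨v, a.1, b⟩⟩
  · intro q _ q' _ ne
    refine disjoint_left.2 fun p a b => ne ?_
    obtain ⟨u, a1, rfl⟩ := mem_image.1 a
    obtain ⟨v, b1, e⟩ := mem_image.1 b
    rw [mem_filter] at a1 b1
    rw [← a1.2, ← b1.2, hf v b1.1 u a1.1 e]

theorem two (A : Finset ℕ → Prop) [DecidablePred A] (hK : ∀ v ∈ P, l v ∈ K)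
    (hf : ∀ u ∈ P, ∀ v ∈ P, f u = f v → l u = l v)
    (hg : ∀ u ∈ P, ∀ v ∈ P, g u = g v → l u = l v) :
    nP (P.filter fun v => A (P.filter fun z => g z = g v)) f =
      ∑ q ∈ K, nP ((P.filter fun v => l v = q).filter fun v =>
        A ((P.filter fun v => l v = q).filter fun z => g z = g v)) f := by
  rw [one (K := K) (l := l) (fun v a => hK v (mem_filter.1 a).1)
    fun u a v b => hf u (mem_filter.1 a).1 v (mem_filter.1 b).1]
  refine sum_congr rfl fun q _ => ?_
  rw [filter_comm]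
  congr 1
  refine filter_congr fun v a => ?_
  rw [mem_filter] at a
  rw [filter_filter, filter_congr (q := fun z => l z = q ∧ g z = g v)
    fun z b => ⟨fun e => ⟨(hg z b v a.1 e).trans a.2, e⟩, And.right⟩]

end SPLx

theorem p_SPL :
    S_SPL := by
  intro α β κ _ _ _ h θ P K f g l hK h1 h2
  have h3 : ∀ u ∈ P, ∀ v ∈ P, f u = f v → l u = l v := fun u a v b e => h2 u a v b (h1 u a v b e)
  refine ⟨SPLx.one hK h3, ?_, ?_, SPLx.two (fun Q => nP Q f < θ) hK h3 h2⟩
  · simp only [nH, filter_image]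
    exact SPLx.two (fun Q => h ≤ Q.card) hK h3 h3
  · simp only [nW, filter_image]
    exact SPLx.two (fun Q => θ ≤ nP Q f) hK h2 h2

end Pool.Agent.P.MP_119182_lc.UM
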