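import Pool.Agent.P.MP_119182_lc.UM.Iface

/-! Step STEP. -/

set_option autoImplicit false
set_option linter.unusedSectionVars false

namespace Pool.Agent.P.MP_119182_lc.UM

open Finset

theorem p_STEP (hLVL : S_LVL) (hPHI : S_PHI) (hGAP : S_GAP) (hGCV : S_GCV) (hHV : S_HV) (hALG : S_ALG) :
    S_STEP := by
  intro d F D A E hd hD hT s s' lam h h0 h1 h2 h3 h4
  have hm : Monotone (nx F) := monotone_nat_of_le_succ fun r => Nat.le_add_right _ _
  obtain ⟨t, ht⟩ : ∃ t : ℕ → ℕ, ∀ r, t r = min s' (s + nx F r) := ⟨_, fun _ => rfl⟩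
  have t0 : t 0 = s := by rw [ht]; exact min_eq_right h1
  have tl : t lam = s' := by rw [ht]; exact min_eq_left h3
  have hL : d.Lad t lam := by
    refine ⟨fun a b hab => ?_, t0 ▸ h0, fun r => ?_, tl ▸ h2⟩
    · rw [ht, ht]
      exact min_le_min_left _ (Nat.add_le_add_left (hm hab) _)
    · rw [tl, ht]
      exact min_le_left _ _
  have hs : ∀ r < lam, t (r + 1) ≤ t r + F (2 ^ (t r - t 0)) := by
    intro r _
    rcases le_total s' (s + nx F r) with c | c
    · rw [ht r, min_eq_left c, ht (r + 1)]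
      exact (min_le_left _ _).trans (Nat.le_add_right _ _)
    · rw [ht r, min_eq_right c, t0, Nat.add_sub_cancel_left, ht (r + 1), Nat.add_assoc]
      exact min_le_right _ _
  obtain ⟨θ, hθ⟩ : ∃ θ, θ = 4 * D * (A + 1) := ⟨_, rfl⟩
  obtain ⟨vt, hvt⟩ : ∃ vt, vt = 144 * D := ⟨_, rfl⟩
  have hv : 1 ≤ h * vt := Nat.mul_pos h4 (by omega)
  have a1 := hLVL d F D A E t lam (h * vt) θ hd hT hL hv hs
  have a2 := hGAP d t lam (h * vt) θ hd hL
  have a3 := hPHI d t lam h hd hL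
  have hsub : ∀ i < d.m, ∀ v ∈ d.El (t 0) (t lam) i, v ∈ d.dom t lam i := fun i hi v hv' =>
    mem_filter.2 ⟨hd.psub i hi (mem_filter.1 hv').1, (mem_filter.1 hv').2⟩
  have a4 : θ * ∑ i ∈ range d.m, d.cW t lam θ i ≤ ∑ i ∈ range d.m, d.cS t lam i := by
    rw [mul_sum]
    refine sum_le_sum fun i hi => ?_
    have hi' := mem_range.1 hi
    exact (hHV _ _ h θ (d.El (t 0) (t lam) i) (d.sup t lam i) (d.pc t lam i) fun u hu v hv' =>
      ((hGCV d t lam hd hL i).2 u (hsub i hi' u hu) v (hsub i hi' v hv')).2.1).2.1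
  have a5 : vt * ∑ i ∈ range d.m, d.cHS t lam (h * vt) i ≤
      ∑ i ∈ range d.m, d.cI (t 0) (t lam) i + vt * ∑ i ∈ range d.m, d.cH h (t 0) (t lam) i := by
    rw [mul_sum, mul_sum, ← sum_add_distrib]
    refine sum_le_sum fun i hi => ?_
    have hi' := mem_range.1 hi
    exact (hHV _ _ h vt (d.El (t 0) (t lam) i) (fun v => v / 2 ^ t 0) (d.sup t lam i)
      fun u hu v hv' =>
      ((hGCV d t lam hd hL i).2 u (hsub i hi' u hu) v (hsub i hi' v hv')).1).1
  simp only [sum_add_distrib, ← mul_sum] at a1 a2 a3 ⊢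
  rw [t0, tl] at a1 a2 a3 a5
  have key := hALG (2 ^ s) D A _ _ _ _ (∑ i ∈ range d.m, d.cH h s s' i) _ _ _ _ _ _
    (4 * h * d.c * lam * d.M) hD a1 le_rfl
    (by rw [← hθ]; exact a4) a2 (by rw [← hvt]; exact a5) (a3.trans (le_of_eq (by ring)))
  rw [← hθ, ← hvt]
  refine key.trans (Nat.add_le_add (le_of_eq rfl) ?_)
  clear key a1 a2 a3 a4 a5
  have hc : d.c ≤ d.c * (d.c + 1) := Nat.le_mul_of_pos_right _ (Nat.succ_pos _)
  generalize d.c * (d.c + 1) = cc at hc ⊢
  have := Nat.mul_le_mul_left (12 * h * lam * d.M) hc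
  calc _ = 12 * h * lam * d.M * d.c +
        h * cc * (96 * D * vt * θ + 24 * vt * E) * lam * d.M := by ring
    _ ≤ 12 * h * lam * d.M * cc + h * cc * (96 * D * vt * θ + 24 * vt * E) * lam * d.M :=
        Nat.add_le_add_right this _
    _ = _ := by ring

end Pool.Agent.P.MP_119182_lc.UM
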