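import Pool.Agent.P.MP_119182_lc.UM.Iface

/-! Step STR. -/

set_option autoImplicit false
set_option linter.unusedSectionVars false

namespace Pool.Agent.P.MP_119182_lc.UM

open Finset

theorem p_STR (hLOW : S_LOW) (hWIN : S_WIN) (hANC : S_ANC) :
    S_STR := by
  intro n x T hT h1 h2
  have s := (p_STRUCT n x T hT h1 h2).2.1
  exact ⟨s.off, s.bnd, s.lam, (hANC n T hT).1, (hANC n T hT).2, s.los, hLOW n x T hT h1 h2,
    hWIN n x T hT h1 h2⟩

end Pool.Agent.P.MP_119182_lc.UM
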