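import Pool.Agent.P.MP_119182_lc.UM.Iface

/-! Step SUM. -/

set_option autoImplicit false
set_option linter.unusedSectionVars false

namespace Pool.Agent.P.MP_119182_lc.UM

open Finset

theorem p_SUM (hIND : S_IND) (hACK : S_ACK) (hMET : S_MET) (hHV : S_HV) :
    S_SUM := by
  intro d k j ok h0 hn hS hx K hK
  have hD : 1 ≤ 192 ^ (k + 1) := Nat.one_le_pow _ _ (by norm_num)
  have h1 := hIND d ok (k + 1) d.s0 d.S (j + 4) (24 * 192 ^ (k + 1)) le_rfl h0 le_rfl
    (by have := hACK k j; omega) (by omega)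
  generalize 192 ^ (k + 1) = D at *
  generalize AA (k + 1) = A at *
  generalize EE (k + 1) = E at *
  have h2 : ∑ i ∈ range d.m, d.cI d.s0 d.S i ≤ D * ∑ i ∈ range d.m,
      (min (d.cI d.s0 d.S i) A + d.cU d.s0 d.S i + d.cH (24 * D) d.s0 d.S i) +
        24 * D * E * (j + 4) * K := by
    refine Nat.le_of_mul_le_mul_left (h1.trans ?_) (Nat.two_pow_pos d.s0)
    rw [mul_add (2 ^ d.s0)]
    refine Nat.add_le_add_left ?_ _
    calc _ = 24 * D * E * (j + 4) * (d.c * (d.c + 1) * d.M) := by ring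
      _ ≤ 24 * D * E * (j + 4) * (2 ^ d.s0 * K) := Nat.mul_le_mul_left _ hK
      _ = _ := by ring
  have h3 : 24 * D * ∑ i ∈ range d.m,
      (min (d.cI d.s0 d.S i) A + d.cU d.s0 d.S i + d.cH (24 * D) d.s0 d.S i) ≤
      ∑ i ∈ range d.m, (24 * D * (A + (d.Up i).card) + (d.Pa i).card) := by
    rw [mul_sum]
    refine sum_le_sum fun i _ => ?_
    rw [mul_add]
    refine Nat.add_le_add (Nat.mul_le_mul_left _ (Nat.add_le_add (min_le_right _ _)
      (card_le_card inter_subset_right))) ?_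
    exact (hHV ℕ ℕ (24 * D) 0 (d.El d.s0 d.S i) (fun v => v / 2 ^ d.s0) (fun _ => 0)
      fun _ _ _ _ _ => rfl).2.2.2.2.2.trans (card_le_card (filter_subset _ _))
  have h4 : ∑ i ∈ range d.m, nP (d.Pa i) (fun v => v / 2 ^ d.s0) ≤
      ∑ i ∈ range d.m, (d.cI d.s0 d.S i + 7 + (d.Up i).card) :=
    sum_le_sum fun i hi => hMET d ok h0 hn i (mem_range.1 hi) (hx i (mem_range.1 hi))
  generalize ∑ i ∈ range d.m,
    (min (d.cI d.s0 d.S i) A + d.cU d.s0 d.S i + d.cH (24 * D) d.s0 d.S i) = Z at *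
  rw [sum_add_distrib, ← mul_sum, sum_add_distrib, sum_const, card_range, smul_eq_mul] at h3
  rw [sum_add_distrib, sum_add_distrib, sum_const, card_range, smul_eq_mul] at h4
  generalize ∑ i ∈ range d.m, (d.Up i).card = U at *
  have h5 : U ≤ D * U := Nat.le_mul_of_pos_left _ hD
  have h6 : d.m ≤ D * d.m := Nat.le_mul_of_pos_left _ hD
  nlinarith [Nat.zero_le (D * d.m * A), Nat.zero_le (D * d.m)]

end Pool.Agent.P.MP_119182_lc.UM
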