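import Pool.Agent.P.MP_119182_lc.UM.Iface

/-! Step TEL. -/

set_option autoImplicit false
set_option linter.unusedSectionVars false

namespace Pool.Agent.P.MP_119182_lc.UM

open Finset

theorem p_TEL :
    S_TEL := by
  intro m A B J Φ h1 h2
  have key : ∀ k ≤ m, ∑ i ∈ range k, A i + 2 * Φ k k ≤
      2 * Φ 0 0 + 2 * ∑ i ∈ range k, J i + ∑ i ∈ range k, B i := by
    intro k
    induction k with
    | zero => intro _; simp
    | succ k ih =>
      intro hk
      have a1 := ih (by omega)
      have a2 := h1 k (by omega)
      have a3 := h2 k (by omega)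
      simp only [sum_range_succ]
      omega
  have := key m le_rfl
  omega

end Pool.Agent.P.MP_119182_lc.UM
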