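import Pool.Agent.P.MP_119182_lc.UM.Iface

/-! Step UP. -/

set_option autoImplicit false
set_option linter.unusedSectionVars false

namespace Pool.Agent.P.MP_119182_lc.UM

open Finset

namespace UPx

theorem mlo_mem (a : ℕ → ℕ) (D i : ℕ) : mlo a D i ∈ insert 0 (Rc a D i) := by
  rcases ((Rc a D i).filter fun z => z ≤ a i).eq_empty_or_nonempty with h | h
  · rw [mlo, h, sup_empty]
    exact mem_insert_self _ _
  · obtain ⟨z, hz, e⟩ := exists_mem_eq_sup _ h id
    rw [mlo, e]
    exact mem_insert_of_mem (mem_filter.1 hz).1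

theorem mhi_mem (a : ℕ → ℕ) (n D i : ℕ) :
    mhi a n D i = n + 1 ∨ mhi a n D i ∈ Rc a D i ∧ a i < mhi a n D i :=
  (mem_insert.1 (min'_mem _ (insert_nonempty _ _))).imp id fun h => mem_filter.1 h

end UPx

open MainA UPx in
theorem p_UP (hREC : S_REC) :
    S_UP := by
  intro n m u T a hT hH
  obtain ⟨Φ, hΦ0, hΦ⟩ := p_POT
  have hx := hH.1
  have hK : ∀ t ≤ m, (Tr T a t).keys = List.range' 1 n := fun t => by
    induction t with
    | zero => exact fun _ => hT
    | succ t ih => exact fun ht => (p_STRUCT n (a t) _ (ih (by omega)) (hx t ht).1 (hx t ht).2).1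
  have hc : ∀ i, (insert 0 (Rc a (2 ^ u) i)).card ≤ 2 ^ u + 2 := fun i =>
    (card_insert_le _ _).trans (Nat.succ_le_succ (hREC a _ i).1)
  have e4 := tele (fun i => ((run n m u T a).Up i).card)
    (fun t => Φ (insert 0 (Rc a (2 ^ u) t)) (Tr T a t)) (8 * Nat.size (2 ^ u + 2) + 1) m
    fun t ht => by
      have h1 := mhi_mem a n (2 ^ u) t
      have h2 := (hx t ht).2
      refine (hΦ n _ (a t) (mlo a (2 ^ u) t) (mhi a n (2 ^ u) t) _ _ _ (hK t ht.le) (hx t ht).1 h2
        (hc t) (hc (t + 1)) ?_ (Finset.sup_le fun z hz => (mem_filter.1 hz).2)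
        (h1.elim (fun h => by omega) And.right) (min'_le _ _ (mem_insert_self _ _))
        (mlo_mem a _ t) fun h => mem_insert_of_mem (h1.resolve_left (by omega)).1).trans_eq
        (add_assoc _ _ _)
      rw [insert_comm]
      exact insert_subset_insert _ (hREC a _ t).2.1
  have e0 := hΦ0 n _ T _ hT (hc 0)
  have e1 : Nat.size (2 ^ u + 2) ≤ u + 2 := Nat.size_le.2 (by
    have := Nat.one_le_two_pow (n := u)
    rw [pow_add]
    omega)
  have e2 := Nat.mul_le_mul_left n e1
  have e3 := Nat.mul_le_mul_left m e1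
  change _ ≤ 2 * Φ _ T + _ at e4
  nlinarith [Nat.zero_le (n * u), Nat.zero_le (m * u)]

end Pool.Agent.P.MP_119182_lc.UM
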