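import Pool.Agent.P.MP_119182_lc.UM.Iface

/-! Step WIN. -/

set_option autoImplicit false
set_option linter.unusedSectionVars false

namespace Pool.Agent.P.MP_119182_lc.UM

open Finset

namespace WINx

variable {x c d : ℕ}

theorem lo_cH : ∀ (π : List Fr) (t : BT), Ord (plug t π) c d → cH d π < d →
    lo (plug t π) (cH d π) c ≤ cL c π
  | [], _, _, h => absurd h (lt_irrefl _)
  | Fr.rgt y b :: π, t, h, _ => (head_val (Fr.rgt y b) π t h).1.le
  | Fr.lft a y :: π, t, h, h' =>
    (lo_cH π _ h h').trans (hole_le (Fr.lft a y) π t h).1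

theorem is_rgt (π : List Fr) (t : BT) (h : Ord (plug t π) c d) (h1 : cH d π < d)
    (h2 : lo (plug t π) (cH d π) c = cL c π) : ∃ y b ρ, π = Fr.rgt y b :: ρ := by
  obtain _ | ⟨⟨a, y⟩ | ⟨y, b⟩, ρ⟩ := π
  · exact absurd h1 (lt_irrefl _)
  · have a1 := lo_cH ρ _ h h1
    have a2 := (hole_le (Fr.lft a y) ρ t h).2.2.1
    simp only [cL, cH, plug, key] at h2 a1 a2
    omega
  · exact ⟨y, b, ρ, rfl⟩

theorem zz (l r b e : BT) (p g : ℕ) (π : List Fr)
    (h : Ord (plug (BT.node l x r) (Fr.rgt p b :: Fr.rgt g e :: π)) c d) :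
    lo (splayUp x l r (Fr.rgt p b :: Fr.rgt g e :: π)) g c ≠ x := by
  have o := ord_hole π _ h
  have loc := loc_RR l r b e o
  have h1 := ord_repl π _ _ h loc.ord
  obtain ⟨_, -, f⟩ := facts_splay _ _ π h1
  have o0 := Ord.lt o.1.1.1
  have o1 := Ord.lt o.1.1.2
  have o2 := Ord.lt o.1.2
  have o3 := Ord.lt o.2
  have rg := hole_rng π _ h1
  have nm : g ∉ π.map key := fun hm => by
    have := key_out π _ h1 hm
    omega
  have n1 : ¬ g < x := by omega
  have n2 : ¬ g < p := by omega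
  have n3 : x < g := by omega
  rw [splayUp, (f.off g (by omega) (by omega) (by omega) nm).1,
    (plug_in (y := g) π _ h1 (by omega) o3).1]
  simp only [lo, n1, n2, n3, o2, lt_irrefl, if_true, if_false]
  omega

theorem top (l r t : BT) (π : List Fr) (h : Ord (plug t π) c d)
    (h' : Ord (plug (BT.node l x r) π) c d) (h0 : cH d π < d)
    (h1 : hi (plug t π) (cH d π) d < d) (h2 : lo (plug t π) (cH d π) c = cL c π)
    (h3 : lo (plug t π) (hi (plug t π) (cH d π) d) c = cL c π) :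
    lo (splayUp x l r π) (hi (plug t π) (cH d π) d) c ≠ x := by
  obtain ⟨p, b, ρ, rfl⟩ := is_rgt π t h h0 h2
  have e : hi (plug t (Fr.rgt p b :: ρ)) (cH d (Fr.rgt p b :: ρ)) d = cH d ρ :=
    (head_val (Fr.rgt p b) ρ t h).2
  rw [e] at h1 h3 ⊢
  obtain ⟨g, b', ρ', rfl⟩ := is_rgt ρ _ h h1 h3
  exact zz l r b b' p g ρ' h'

/-- The statement for a tree `T0` before and a tree `T1` after the access. -/
def W (x c d : ℕ) (T0 T1 : BT) (u : ℕ) : Prop :=
  x < u → hi T0 u d < d → hi T0 (hi T0 u d) d < d → lo T0 (hi T0 u d) c = lo T0 u c →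
    lo T0 (hi T0 (hi T0 u d) d) c = lo T0 u c →
    lo T1 (hi T0 u d) c ≠ x ∨ lo T1 (hi T0 (hi T0 u d) d) c ≠ x

theorem far (π : List Fr) (t0 t1 T1 : BT) (h0 : Ord (plug t0 π) c d) (h1 : Ord (plug t1 π) c d)
    (hx : cL c π < x) {u : ℕ} (hu : u ∈ π.map key) (w : W x c d (plug t1 π) T1 u) :
    W x c d (plug t0 π) T1 u := by
  intro a0 a1 a2
  have k := key_out π _ h0 hu
  have b1 := lt_hi (plug t0 π) u d k.2.2
  have b2 := lt_hi (plug t0 π) _ d a1
  have e1 := plug_out k.2.1 k.2.2 π _ _ h0 h1 k.1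
  have e2 := plug_out (y := hi (plug t0 π) u d) (by omega) a1 π _ _ h0 h1 (by omega)
  have e3 := plug_out (y := hi (plug t0 π) (hi (plug t0 π) u d) d) (by omega) a2 π _ _ h0 h1
    (by omega)
  rw [e3.1, e2.1, e1.1]
  rw [e2.2] at a2 ⊢
  rw [e1.2] at a1 a2 ⊢
  exact w a0 a1 a2

theorem up (l r t : BT) (g : Fr) (π : List Fr) (h : Ord (plug t (g :: π)) c d)
    (h' : Ord (plug (BT.node l x r) π) c d) :
    W x c d (plug t (g :: π)) (splayUp x l r π) (key g) := by
  have e := head_val g π t h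
  intro _
  rw [e.1, e.2]
  exact fun a1 a2 a3 a4 => Or.inr (top l r _ π h h' a1 a2 a3 a4)

theorem win (l r : BT) (π : List Fr) (h : Ord (plug (BT.node l x r) π) c d) :
    ∀ u ∈ π.map key, W x c d (plug (BT.node l x r) π) (splayUp x l r π) u := by
  fun_induction splayUp x l r π with
  | case1 l r => simp
  | case2 l r a p =>
    intro u hu a0
    have := Ord.lt h.2.1
    simp only [List.map, key, List.mem_singleton] at hu
    omega
  | case3 l r p b =>
    intro u hu _ a1
    rw [List.mem_singleton.1 hu, (head_val (Fr.rgt p b) [] _ h).2] at a1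
    exact absurd a1 (lt_irrefl _)
  | case4 l r p b g e π ih =>
    have h1 := ord_repl π _ _ h (loc_RR l r b e (ord_hole π _ h)).ord
    intro u hu
    rcases List.mem_cons.1 hu with rfl | hu
    · intro _ _ _ _ _
      rw [show hi _ u d = _ from (head_val (Fr.rgt u b) _ _ h).2]
      exact Or.inl (zz l r b e u _ π h)
    rcases List.mem_cons.1 hu with rfl | hu
    · exact up _ _ _ _ π h h1
    · exact far π _ _ _ h h1 (two_in _ _ π l r h).1.1 hu (ih h1 u hu)
  | case5 l r b p a g π ih =>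
    have o := ord_hole π _ h
    have h1 := ord_repl π _ _ h (loc_LL l r b a o).ord
    intro u hu
    rcases List.mem_cons.1 hu with rfl | hu
    · exact fun a0 => absurd (Ord.lt o.2.2.1) (not_lt.2 a0.le)
    rcases List.mem_cons.1 hu with rfl | hu
    · exact up _ _ _ _ π h h1
    · exact far π _ _ _ h h1 (two_in _ _ π l r h).1.1 hu (ih h1 u hu)
  | case6 l r p b a g π ih =>
    have h1 := ord_repl π _ _ h (loc_RL l r b a (ord_hole π _ h)).ord
    intro u hu
    rcases List.mem_cons.1 hu with rfl | hu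
    · have e : lo _ u c = _ ∧ hi _ u d = _ := head_val (Fr.rgt u b) _ _ h
      intro _ a1 _ a3 _
      rw [e.2] at a1 a3
      rw [e.1] at a3
      have b1 := lo_cH π _ h a1
      have b2 := (hole_le (Fr.lft a g) π _ h).2.2.1
      simp only [cL, cH, plug, key] at a3 b1 b2
      omega
    rcases List.mem_cons.1 hu with rfl | hu
    · exact up _ _ _ _ π h h1
    · exact far π _ _ _ h h1 (two_in _ _ π l r h).1.1 hu (ih h1 u hu)
  | case7 l r a p g e π ih =>
    have o := ord_hole π _ h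
    have h1 := ord_repl π _ _ h (loc_LR l r a e o).ord
    intro u hu
    rcases List.mem_cons.1 hu with rfl | hu
    · exact fun a0 => absurd (Ord.lt o.1.2.1) (not_lt.2 a0.le)
    rcases List.mem_cons.1 hu with rfl | hu
    · exact up _ _ _ _ π h h1
    · exact far π _ _ _ h h1 (two_in _ _ π l r h).1.1 hu (ih h1 u hu)

end WINx

theorem p_WIN :
    S_WIN := by
  intro n x T hT h1 h2 d a1 a2 a3 a4 a5 a6 a7
  have o := ord_of_keys hT
  obtain ⟨l, r, π, e1, e2, hk⟩ := access_zip hT h1 h2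
  have bh : d < rpar n T d := lt_hi T d _ (by omega)
  have w := WINx.win l r π (e1 ▸ o) d
    ((hk d).2 ⟨mem_Icc.2 (by omega), by omega, a3, by omega⟩)
  rw [← e1] at w
  rw [e2]
  exact w a1 (Nat.lt_succ_of_le a4) (Nat.lt_succ_of_le a5) a6 a7

end Pool.Agent.P.MP_119182_lc.UM
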