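import Pool.Agent.P.MP_119182_lc.UM.Iface

/-! Step WRA. -/

set_option autoImplicit false
set_option linter.unusedSectionVars false

namespace Pool.Agent.P.MP_119182_lc.UM

open Finset

namespace WRAx

theorem sum_le_one (D : Finset ℕ) (Q : ℕ → Prop) [DecidablePred Q]
    (h : ∀ u ∈ D, ∀ v ∈ D, u < v → Q u → Q v → False) :
    ∑ v ∈ D, (if Q v then 1 else 0) ≤ 1 := by
  rw [← card_filter]
  refine card_le_one.2 fun a ha b hb => ?_
  rw [mem_filter] at ha hb
  rcases lt_trichotomy a b with l | l | l
  · exact (h a ha.1 b hb.1 l ha.2 hb.2).elim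
  · exact l
  · exact (h b hb.1 a ha.1 l hb.2 ha.2).elim

end WRAx

open Classical in
theorem p_WRA :
    S_WRA := by
  intro n x lp rp lq rq D hs hD hc hx
  have hb : ∀ v ∈ D, 1 ≤ v ∧ v ≤ n := fun v hv => mem_Icc.1 (hD hv)
  have hoff : ∀ v ∈ D, ¬ lp v < x → lq v = lp v ∧ rq v = rp v := fun v hv h =>
    hs.off v (hb v hv).1 (hb v hv).2 (hx v hv).ne' (fun h' => h h'.1)
  refine ⟨fun v => (if lp v < x ∧ inL D lq v ∧ lq v = x then 1 else 0) +
    (if lp v < x ∧ inL D lq v ∧ lq v ≠ x then 1 else 0) +
    (if lp v < x ∧ inR D rq v then 1 else 0), ?_, fun v hv => ?_⟩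
  · rw [sum_add_distrib, sum_add_distrib]
    have h1 := WRAx.sum_le_one D (fun v => lp v < x ∧ inL D lq v ∧ lq v = x)
      fun u hu v _ l a b => b.2.1.2 u hu l (a.2.2.trans b.2.2.symm)
    have h2 := WRAx.sum_le_one D (fun v => lp v < x ∧ inL D lq v ∧ lq v ≠ x)
      fun u hu v hv l a b => by
        obtain ⟨e1, e2, -, e4, -⟩ := hs.los v (hx v hv) (hb v hv).2 b.1 b.2.2
        have e5 : lq v < u := by
          by_contra h
          exact b.2.1.1 (hc u hu v hv _ (not_lt.1 h) e2.le)
        have := (hs.lamR (lq v) u (by omega) (by have := (hb v hv).2; omega) e5 (by omega)).1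
        have := a.1
        omega
    have h3 := WRAx.sum_le_one D (fun v => lp v < x ∧ inR D rq v)
      fun u hu v hv l a b => by
        have e1 := (hs.lamL v u (hb v hv).1 (hb v hv).2 (b.1.trans (hx u hu)) l).2
        have e2 := (hs.bnd u (hb u hu).1 (hb u hu).2).2
        have e3 : rp u ∈ D := hc u hu v hv _ e2.le e1
        rcases hs.low u (hx u hu) (hb u hu).2 a.1 with h | h
        · exact a.2.1 (h ▸ e3)
        · exact a.2.2 _ e3 e2 h.2.symm
    omega
  · by_cases hP : lp v < x
    · have hH : inH D lp rp v := Or.inl fun h => absurd (hx _ h) (by omega)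
      have hpay : v ∈ pay n x D lp lq rq → inL D lp v ∨ ¬ inH D lq rq v := fun h =>
        (mem_filter.1 h).2
      simp only [wt, hP, true_and, if_pos hH]
      by_cases a : v ∈ pay n x D lp lq rq <;> by_cases b : inL D lp v <;>
        by_cases c : inH D lq rq v <;> by_cases d : inL D lq v <;> by_cases e : lq v = x <;>
        simp [a, b, c, d, e] at hpay ⊢ <;> omega
    · obtain ⟨e1, e2⟩ := hoff v hv hP
      have hpay : v ∉ pay n x D lp lq rq := fun h =>
        hP (mem_filter.1 (mem_inter.1 (mem_filter.1 h).1).1).2.2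
      have hH : inH D lq rq v → inH D lp rp v := by
        unfold inH
        rw [e1, e2]
        exact id
      have hL : inL D lq v → inL D lp v := fun h => ⟨e1 ▸ h.1, fun d hd l e =>
        h.2 d hd l (by rw [e1, (hoff d hd (by omega)).1, e])⟩
      have hR : inR D rq v → inR D rp v := fun h => ⟨e2 ▸ h.1, fun d hd l e => by
        have a := (hs.bnd d (hb d hd).1 (hb d hd).2).2
        have b := (hs.lamR v d (hb v hv).1 (hb v hv).2 l (by omega)).1
        have c := hx v hv
        exact h.2 d hd l (by rw [e2, (hoff d hd (by omega)).2, e])⟩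
      simp only [wt, hP, false_and, if_false, if_neg hpay, add_zero]
      gcongr <;> split_ifs <;> simp_all

end Pool.Agent.P.MP_119182_lc.UM
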