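import Pool.Agent.P.MP_119182_lc.UM.Iface

/-! Step WRB. -/

set_option autoImplicit false
set_option linter.unusedSectionVars false

namespace Pool.Agent.P.MP_119182_lc.UM

open Finset

theorem p_WRB :
    S_WRB := by
  intro n x lp rp lq rq D h hD hc hx
  have hm : ∀ v ∈ D, v ∈ rgtPath n x lp ∩ D ↔ lp v < x := fun v hv => by
    have := mem_Icc.1 (hD hv)
    have := hx v hv
    simp only [rgtPath, mem_inter, mem_filter, mem_Icc, hv, and_true]
    omega
  constructor
  · intro he v hv
    have key : ∀ d ∈ D, lq d = lp d ∧ rq d = rp d := fun d hd => by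
      have a := mem_Icc.1 (hD hd)
      refine h.off d a.1 a.2 (hx d hd).ne' fun b => ?_
      have := (hm d hd).2 b.1
      rw [he] at this
      exact notMem_empty _ this
    have e1 : inH D lq rq v ↔ inH D lp rp v := by
      unfold inH; rw [(key v hv).1, (key v hv).2]
    have e2 : inL D lq v ↔ inL D lp v := by
      unfold inL; rw [(key v hv).1]
      exact and_congr_right fun _ => forall₂_congr fun d hd => by rw [(key d hd).1]
    have e3 : inR D rq v ↔ inR D rp v := by
      unfold inR; rw [(key v hv).2]
      exact and_congr_right fun _ => forall₂_congr fun d hd => by rw [(key d hd).2]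
    unfold wt
    rw [propext e1, propext e2, propext e3]
  · intro v hv p hp p' hp' h1 h2
    have pD := (mem_inter.1 hp).2
    have p'D := (mem_inter.1 hp').2
    have lp1 := (hm p pD).1 hp
    have lp2 := (hm p' p'D).1 hp'
    have a := mem_Icc.1 (hD hv)
    have a' := mem_Icc.1 (hD p'D)
    have xv := hx v hv
    have xp := hx p pD
    have b := h.bnd v a.1 a.2
    have r1 := (h.lamL p' v a'.1 a'.2 (by omega) h2).2
    have rD : rp v ∈ D := hc v hv p' p'D _ b.2.le r1
    have nR : ¬ inR D rp v := fun c => c.1 rD
    unfold wt
    rw [if_neg nR]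
    by_cases hP : v ∈ rgtPath n x lp ∩ D
    · rw [if_pos hP]
      split_ifs <;> omega
    · rw [if_neg hP]
      have l1 : ¬ lp v < x := fun c => hP ((hm v hv).2 c)
      have l2 : p ≤ lp v := by
        by_contra c
        have := (h.lamL v p a.1 a.2 (by omega) h1).1
        omega
      have lD : lp v ∈ D := hc p pD v hv _ l2 b.1.le
      rw [if_neg (fun c : inH D lp rp v => c.elim (fun e => e lD) fun e => e rD),
        if_neg (fun c : inL D lp v => c.1 lD)]

end Pool.Agent.P.MP_119182_lc.UM
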