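import Pool.Agent.P.MP_119182_lc.UM.Iface

/-! Step WRC. -/

set_option autoImplicit false
set_option linter.unusedSectionVars false

namespace Pool.Agent.P.MP_119182_lc.UM

open Finset

namespace WRCx

variable {n x : ℕ} {lp rp lq rq : ℕ → ℕ} {D : Finset ℕ}

lemma mem (hD : D ⊆ Icc 1 n) (hx : ∀ v ∈ D, x < v) {v : ℕ} :
    v ∈ rgtPath n x lp ∩ D ↔ v ∈ D ∧ lp v < x := by
  simp only [rgtPath, mem_inter, mem_filter]
  exact ⟨fun h => ⟨h.2, h.1.2.2⟩, fun h => ⟨⟨hD h.1, hx v h.1, h.2⟩, h.1⟩⟩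

lemma lam (H : StR n x lp rp lq rq) (hD : D ⊆ Icc 1 n) (hx : ∀ v ∈ D, x < v) {a b : ℕ}
    (ha : a ∈ D) (hb : b ∈ D) (lb : lp b < x) (hab : a < b) : lp b ≤ lp a ∧ rp a ≤ b :=
  H.lamL b a (mem_Icc.1 (hD hb)).1 (mem_Icc.1 (hD hb)).2 (lb.trans (hx a ha)) hab

lemma rpD (H : StR n x lp rp lq rq) (hD : D ⊆ Icc 1 n) (hC : Cvx D) (hx : ∀ v ∈ D, x < v)
    {a b : ℕ} (ha : a ∈ D) (hb : b ∈ D) (lb : lp b < x) (hab : a < b) : rp a ∈ D :=
  hC a ha b hb _ (H.bnd a (mem_Icc.1 (hD ha)).1 (mem_Icc.1 (hD ha)).2).2.le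
    (lam H hD hx ha hb lb hab).2

lemma nxt (H : StR n x lp rp lq rq) (hD : D ⊆ Icc 1 n) (hC : Cvx D) (hx : ∀ v ∈ D, x < v)
    {a b : ℕ} (ha : a ∈ D) (hb : b ∈ D) (la : lp a < x) (lb : lp b < x) (hab : a < b)
    (hc : ∀ z ∈ D, lp z < x → ¬ (a < z ∧ z < b)) : rp a = b := by
  have h1 := rpD H hD hC hx ha hb lb hab
  have h2 := (lam H hD hx ha hb lb hab).2
  have h3 := (H.bnd a (mem_Icc.1 (hD ha)).1 (mem_Icc.1 (hD ha)).2).2
  have h4 := H.anc a (mem_Icc.1 (hD ha)).1 (mem_Icc.1 (hD ha)).2 (mem_Icc.1 (hD h1)).2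
  have h5 := hc _ h1 (h4.trans_lt la)
  omega

lemma isL (H : StR n x lp rp lq rq) (hD : D ⊆ Icc 1 n) (hx : ∀ v ∈ D, x < v)
    {a b : ℕ} (ha : a ∈ D) (hb : b ∈ D) (la : lp a < x) (lb : lp b < x) (hab : a < b)
    (hc : ∀ z ∈ D, lp z < x → ¬ (a < z ∧ z < b)) (hne : lp b ≠ lp a) : inL D lp b := by
  refine ⟨fun h => absurd (hx _ h) (not_lt.2 lb.le), fun e he heb hl => ?_⟩
  have h1 := hc e he (hl ▸ lb)
  have h2 := (lam H hD hx ha hb lb hab).1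
  rcases Nat.lt_or_ge e a with h | h
  · have h3 := (lam H hD hx he ha la h).1
    omega
  · have : e = a := by omega
    exact hne (this ▸ hl.symm)

lemma upp (H : StR n x lp rp lq rq) (hD : D ⊆ Icc 1 n) (hC : Cvx D) (hx : ∀ v ∈ D, x < v)
    {a b c : ℕ} (ha : a ∈ D) (hb : b ∈ D) (hc : c ∈ D) (la : lp a < x) (lb : lp b < x)
    (lc : lp c < x) (hab : a < b) (hbc : b < c) (hq : lq b ≠ x) : ¬ inH D lq rq b := by
  have hn := (mem_Icc.1 (hD hb)).2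
  obtain ⟨h1, h2, -, h4, h5⟩ := H.los b (hx b hb) hn lb hq
  have h6 : a ≤ lq b := by
    by_contra h
    have := (H.lamR (lq b) a (by omega) (by omega) (by omega) (by omega)).1
    omega
  rintro (h | h)
  · exact h (hC a ha b hb _ h6 h2.le)
  · exact h (h5 ▸ rpD H hD hC hx hb hc lc hbc)

end WRCx

open WRCx in
theorem p_WRC :
    S_WRC := by
  classical
  intro n x lp rp lq rq D H hD hC hx p hp d hd d' hd' p' hp' h1 h2 h3 hc
  have hne : ((rgtPath n x lp ∩ D).filter fun z => z < d).Nonempty := ⟨p, mem_filter.2 ⟨hp, h1⟩⟩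
  obtain ⟨a, ha, hmax⟩ := exists_max_image _ id hne
  obtain ⟨ha, had⟩ := mem_filter.1 ha
  obtain ⟨aD, la⟩ := (mem hD hx).1 ha
  obtain ⟨dD, ld⟩ := (mem hD hx).1 hd
  obtain ⟨eD, le⟩ := (mem hD hx).1 hd'
  obtain ⟨pD, lp'⟩ := (mem hD hx).1 hp'
  have c1 : ∀ z ∈ D, lp z < x → ¬ (a < z ∧ z < d) := fun z hz lz h =>
    absurd (hmax z (mem_filter.2 ⟨(mem hD hx).2 ⟨hz, lz⟩, h.2⟩)) (not_le.2 h.1)
  have c2 : ∀ z ∈ D, lp z < x → ¬ (d < z ∧ z < d') := fun z hz lz => hc z ((mem hD hx).2 ⟨hz, lz⟩)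
  have r1 := nxt H hD hC hx aD dD la ld had c1
  have r2 := nxt H hD hC hx dD eD ld le h2 c2
  simp only [pay, mem_filter]
  by_cases e1 : lp d = lp a
  · by_cases e2 : lp d' = lp d
    · have hw := H.win a (hx a aD) (mem_Icc.1 (hD aD)).2 la
      rw [r1, r2] at hw
      rcases hw (mem_Icc.1 (hD dD)).2 (mem_Icc.1 (hD eD)).2 e1 (e2.trans e1) with h | h
      · exact Or.inl ⟨hd, Or.inr (upp H hD hC hx aD dD eD la ld le had h2 h)⟩
      · exact Or.inr ⟨hd', Or.inr (upp H hD hC hx dD eD pD ld le lp' h2 h3 h)⟩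
    · exact Or.inr ⟨hd', Or.inl (isL H hD hx dD eD ld le h2 c2 e2)⟩
  · exact Or.inl ⟨hd, Or.inl (isL H hD hx aD dD la ld had c1 e1)⟩

end Pool.Agent.P.MP_119182_lc.UM
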