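import Pool.Agent.P.MP_119182_lc.UM.Iface

/-! Step WT. -/

set_option autoImplicit false
set_option linter.unusedSectionVars false

namespace Pool.Agent.P.MP_119182_lc.UM

open Finset

namespace WTx

theorem hi_mir {N y : ℕ} (hy : y ≤ N) : ∀ (t : BT) (c : ℕ), (∀ k ∈ t.keys, k ≤ N) →
    hi (Dyn.mir N t) (N - y) (N - c) = N - lo t y c
  | BT.nil, _, _ => rfl
  | BT.node l k r, c, h => by
    have hk := h k (by simp [BT.keys])
    have a := hi_mir hy l c fun y hy => h y (by simp [BT.keys, hy])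
    have b := hi_mir hy r k fun y hy => h y (by simp [BT.keys, hy])
    simp only [Dyn.mir, lo, hi]
    rcases lt_trichotomy y k with e | e | e
    · rw [if_neg (by omega), if_pos (by omega), if_pos e]; exact a
    · rw [if_neg (by omega), if_neg (by omega), if_neg (by omega), if_neg (by omega)]
    · rw [if_pos (by omega), if_neg (by omega), if_pos e]; exact b

theorem rpar_mir {n : ℕ} {T : BT} (hT : T.keys = List.range' 1 n) {y : ℕ} (hy : y ≤ n + 1) :
    rpar n (Dyn.mir (n + 1) T) (n + 1 - y) = n + 1 - lpar T y :=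
  hi_mir hy T 0 (Dyn.key_le hT)

theorem right (hSTR : S_STR) (hWRA : S_WRA) (hWRB : S_WRB) (hWRC : S_WRC) {n x : ℕ} {T : BT}
    {D : Finset ℕ} (hT : T.keys = List.range' 1 n) (h1 : 1 ≤ x) (h2 : x ≤ n) (hD : D ⊆ Icc 1 n)
    (hc : Cvx D) (hx : ∀ v ∈ D, x < v) :
    WF D (rgtPath n x (lpar T) ∩ D) (wt D (lpar T) (rpar n T))
      (wt D (lpar (access T x).1) (rpar n (access T x).1)) := by
  have s := hSTR n x T hT h1 h2
  obtain ⟨δ, a1, a2⟩ := hWRA n x _ _ _ _ D s hD hc hx
  obtain ⟨b1, b2⟩ := hWRB n x _ _ _ _ D s hD hc hx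
  exact ⟨inter_subset_right, b1, b2, _, δ, by
    classical exact filter_subset _ _, hWRC n x _ _ _ _ D s hD hc hx, a1, a2⟩

theorem mirw (hMIRW : S_MIRW) {n : ℕ} {T : BT} {D : Finset ℕ} (hT : T.keys = List.range' 1 n)
    (hD : D ⊆ Icc 1 n) : ∀ v ∈ D, wt (D.image fun z => n + 1 - z) (lpar (Dyn.mir (n + 1) T))
      (rpar n (Dyn.mir (n + 1) T)) (n + 1 - v) = wt D (lpar T) (rpar n T) v := by
  refine hMIRW (n + 1) D _ _ _ _ (fun v hv => ?_) fun v hv => ?_
  · have a := mem_Icc.1 (hD hv)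
    have b : lpar T v < v := lo_lt T v 0 a.1
    exact ⟨by omega, by omega, hi_le v (ord_of_keys hT)⟩
  · have a := mem_Icc.1 (hD hv)
    exact ⟨Dyn.lpar_mir hT (by omega), rpar_mir hT (by omega)⟩

end WTx

theorem p_WT (hSTR : S_STR) (hWRA : S_WRA) (hWRB : S_WRB) (hWRC : S_WRC) (hMIRW : S_MIRW) (hMIRF : S_MIRF) :
    S_WT := by
  intro n x T D hT h1 h2 hD hc hx
  by_cases hr : ∀ v ∈ D, x < v
  · have e : pth n x (lpar T) (rpar n T) ∩ D = rgtPath n x (lpar T) ∩ D := by
      ext y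
      simp only [pth, mem_inter, mem_union, lftPath, rgtPath, mem_filter]
      constructor
      · rintro ⟨h | h, d⟩
        · have := hr y d
          omega
        · exact ⟨h, d⟩
      · exact fun h => ⟨Or.inr h.1, h.2⟩
    rw [e]
    exact WTx.right hSTR hWRA hWRB hWRC hT h1 h2 hD hc hr
  have hl : ∀ v ∈ D, v < x := fun v hv => by
    push Not at hr
    obtain ⟨u, hu, hux⟩ := hr
    by_contra c
    exact hx (hc u hu v hv x hux (by omega))
  have hN : ∀ v ∈ D, 1 ≤ v ∧ v ≤ n := fun v hv => mem_Icc.1 (hD hv)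
  have k := WTx.right hSTR hWRA hWRB hWRC (x := n + 1 - x) (D := D.image fun z => n + 1 - z)
    (Dyn.keys_mir' hT) (by omega) (by omega)
    (fun y hy => by
      obtain ⟨v, hv, rfl⟩ := mem_image.1 hy
      have := hN v hv
      exact mem_Icc.2 (by omega))
    (fun a ha c hc' b e1 e2 => by
      obtain ⟨u, hu, rfl⟩ := mem_image.1 ha
      obtain ⟨v, hv, rfl⟩ := mem_image.1 hc'
      have := hN u hu
      have := hN v hv
      exact mem_image.2 ⟨n + 1 - b, hc v hv u hu _ (by omega) (by omega), by omega⟩)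
    (fun y hy => by
      obtain ⟨v, hv, rfl⟩ := mem_image.1 hy
      have := hN v hv
      have := hl v hv
      omega)
  have e : rgtPath n (n + 1 - x) (lpar (Dyn.mir (n + 1) T)) ∩ (D.image fun z => n + 1 - z) =
      (pth n x (lpar T) (rpar n T) ∩ D).image fun z => n + 1 - z := by
    ext y
    simp only [pth, mem_inter, mem_union, lftPath, rgtPath, mem_filter, mem_image, mem_Icc]
    constructor
    · rintro ⟨h, v, hv, rfl⟩
      have := hN v hv
      rw [Dyn.lpar_mir hT (by omega)] at h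
      exact ⟨v, ⟨Or.inl (by omega), hv⟩, rfl⟩
    · rintro ⟨v, ⟨h, hv⟩, rfl⟩
      have := hN v hv
      have := hl v hv
      have : rpar n T v ≤ n + 1 := hi_le v (ord_of_keys hT)
      rw [Dyn.lpar_mir hT (by omega)]
      exact ⟨by omega, v, hv, rfl⟩
  rw [e, Dyn.access_mir hT h2] at k
  exact hMIRF (n + 1) D _ _ _ _ _ (fun v hv => by have := hN v hv; omega) inter_subset_right
    (fun v hv => ⟨WTx.mirw hMIRW hT hD v hv,
      WTx.mirw hMIRW (p_STRUCT n x T hT h1 h2).1 hD v hv⟩) k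

end Pool.Agent.P.MP_119182_lc.UM
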