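import Pool.Agent.P.MP_119182_lc.UM.Iface

/-! Step XB. -/

set_option autoImplicit false
set_option linter.unusedSectionVars false

namespace Pool.Agent.P.MP_119182_lc.UM

open Finset

namespace XBx

theorem one {α β : Type} [DecidableEq α] [DecidableEq β] (θ A : ℕ) (X : Finset ℕ) (f : ℕ → α)
    (g : ℕ → β) : min (nP X f) A ≤ nN θ X f g + A * nW θ X f g := by
  rcases Nat.eq_zero_or_pos (nW θ X f g) with e | e
  · have : nN θ X f g = nP X f := by
      rw [nN, filter_true_of_mem fun v hv => ?_]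
      rw [nW, card_eq_zero, filter_eq_empty_iff] at e
      exact not_le.1 (e (mem_image_of_mem g hv))
    rw [this]
    exact (min_le_left _ _).trans (Nat.le_add_right _ _)
  · exact (min_le_right _ _).trans ((Nat.le_mul_of_pos_right A e).trans (Nat.le_add_left _ _))

end XBx

theorem p_XB (hLEV : S_LEV) (hSPL : S_SPL) (hGCV : S_GCV) (hHV : S_HV) :
    S_XB := by
  intro d t lam θ A ok lad i hi
  have _ := hHV
  have hd : ∀ v ∈ d.El (t 0) (t lam) i, v ∈ d.dom t lam i := fun v hv =>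
    mem_filter.2 ⟨ok.psub i hi (mem_filter.1 hv).1, (mem_filter.1 hv).2⟩
  obtain ⟨-, -, e1, e2⟩ := hSPL _ _ _ 0 θ (d.El (t 0) (t lam) i) (range lam) (d.sup t lam i)
    (d.pc t lam i) (d.lev t lam i)
    (fun v hv => mem_range.2
      ((hLEV d t lam ok lad i v).1 (mem_filter.1 hv).2.1 (mem_filter.1 hv).2.2).1)
    (fun u hu v hv => ((hGCV d t lam ok lad i).2 u (hd u hu) v (hd v hv)).2.1)
    (fun u _ v _ e => congrArg Prod.fst e)
  rw [Dat.cN, Dat.cW, e1, e2, mul_sum, ← sum_add_distrib]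
  refine sum_le_sum fun r hr => le_trans (le_of_eq ?_) (XBx.one θ A _ _ _)
  have e : (d.El (t 0) (t lam) i).filter (fun v => d.lev t lam i v = r) =
      d.El (t r) (t (r + 1)) i := by
    ext v
    simp only [Dat.El, mem_filter]
    constructor
    · rintro ⟨⟨a, b, c⟩, rfl⟩
      exact ⟨a, ((hLEV d t lam ok lad i v).1 b c).2⟩
    · rintro ⟨a, b, c⟩
      obtain ⟨k1, k2⟩ := (hLEV d t lam ok lad i v).2 r (mem_range.1 hr) b c
      exact ⟨⟨a, k2⟩, k1⟩
  congr 1
  rw [Dat.cI, ← e, nP, nP, ← card_image_of_injective _ (Prod.mk_right_injective r), image_image]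
  congr 1
  refine image_congr fun v hv => ?_
  have k : d.lev t lam i v = r := (mem_filter.1 hv).2
  rw [Dat.sup, k]
  rfl

end Pool.Agent.P.MP_119182_lc.UM
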