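import Pool.Agent.P.MP_119182_lc.UM.TLOW
import Pool.Agent.P.MP_119182_lc.UM.TWIN
import Pool.Agent.P.MP_119182_lc.UM.TANC
import Pool.Agent.P.MP_119182_lc.UM.TSTR
import Pool.Agent.P.MP_119182_lc.UM.TWRA
import Pool.Agent.P.MP_119182_lc.UM.TWRB
import Pool.Agent.P.MP_119182_lc.UM.TWRC
import Pool.Agent.P.MP_119182_lc.UM.TMIRW
import Pool.Agent.P.MP_119182_lc.UM.TMIRF
import Pool.Agent.P.MP_119182_lc.UM.TWT
import Pool.Agent.P.MP_119182_lc.UM.TCAP1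
import Pool.Agent.P.MP_119182_lc.UM.TCAP2
import Pool.Agent.P.MP_119182_lc.UM.TINN
import Pool.Agent.P.MP_119182_lc.UM.TCNT
import Pool.Agent.P.MP_119182_lc.UM.TNAR
import Pool.Agent.P.MP_119182_lc.UM.TL1
import Pool.Agent.P.MP_119182_lc.UM.TL1S
import Pool.Agent.P.MP_119182_lc.UM.TSPL
import Pool.Agent.P.MP_119182_lc.UM.THV
import Pool.Agent.P.MP_119182_lc.UM.TBASE
import Pool.Agent.P.MP_119182_lc.UM.TLEV
import Pool.Agent.P.MP_119182_lc.UM.TGCV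
import Pool.Agent.P.MP_119182_lc.UM.TDEC
import Pool.Agent.P.MP_119182_lc.UM.TXB
import Pool.Agent.P.MP_119182_lc.UM.TPHI1
import Pool.Agent.P.MP_119182_lc.UM.TPHI2
import Pool.Agent.P.MP_119182_lc.UM.TTEL
import Pool.Agent.P.MP_119182_lc.UM.TPHI
import Pool.Agent.P.MP_119182_lc.UM.TGMET
import Pool.Agent.P.MP_119182_lc.UM.TGAP1
import Pool.Agent.P.MP_119182_lc.UM.TGAP2
import Pool.Agent.P.MP_119182_lc.UM.TGAP
import Pool.Agent.P.MP_119182_lc.UM.TALG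
import Pool.Agent.P.MP_119182_lc.UM.TLVL
import Pool.Agent.P.MP_119182_lc.UM.TSTEP
import Pool.Agent.P.MP_119182_lc.UM.TIND
import Pool.Agent.P.MP_119182_lc.UM.TACK
import Pool.Agent.P.MP_119182_lc.UM.TGROW
import Pool.Agent.P.MP_119182_lc.UM.TREC
import Pool.Agent.P.MP_119182_lc.UM.TBIR
import Pool.Agent.P.MP_119182_lc.UM.TNEAR
import Pool.Agent.P.MP_119182_lc.UM.TACARD
import Pool.Agent.P.MP_119182_lc.UM.TCHG
import Pool.Agent.P.MP_119182_lc.UM.TFEW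
import Pool.Agent.P.MP_119182_lc.UM.TROK
import Pool.Agent.P.MP_119182_lc.UM.TUP
import Pool.Agent.P.MP_119182_lc.UM.TBLK
import Pool.Agent.P.MP_119182_lc.UM.TMET
import Pool.Agent.P.MP_119182_lc.UM.TSUM
import Pool.Agent.P.MP_119182_lc.UM.TMAIN

/-! Assembly of the steps. -/

set_option autoImplicit false

namespace Pool.Agent.P.MP_119182_lc.UM

theorem q_LOW : S_LOW := p_LOW

theorem q_WIN : S_WIN := p_WIN

theorem q_ANC : S_ANC := p_ANC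

theorem q_STR : S_STR := p_STR q_LOW q_WIN q_ANC

theorem q_WRA : S_WRA := p_WRA

theorem q_WRB : S_WRB := p_WRB

theorem q_WRC : S_WRC := p_WRC

theorem q_MIRW : S_MIRW := p_MIRW

theorem q_MIRF : S_MIRF := p_MIRF

theorem q_WT : S_WT := p_WT q_STR q_WRA q_WRB q_WRC q_MIRW q_MIRF

theorem q_CAP1 : S_CAP1 := p_CAP1

theorem q_CAP2 : S_CAP2 := p_CAP2 q_CAP1

theorem q_INN : S_INN := p_INN

theorem q_CNT : S_CNT := p_CNT

theorem q_NAR : S_NAR := p_NAR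

theorem q_L1 : S_L1 := p_L1 q_CAP2 q_INN q_CNT q_NAR

theorem q_L1S : S_L1S := p_L1S q_L1

theorem q_SPL : S_SPL := p_SPL

theorem q_HV : S_HV := p_HV q_SPL

theorem q_BASE : S_BASE := p_BASE

theorem q_LEV : S_LEV := p_LEV

theorem q_GCV : S_GCV := p_GCV q_LEV

theorem q_DEC : S_DEC := p_DEC q_LEV q_SPL

theorem q_XB : S_XB := p_XB q_LEV q_SPL q_GCV q_HV

theorem q_PHI1 : S_PHI1 := p_PHI1 q_LEV q_GCV q_SPL q_L1S

theorem q_PHI2 : S_PHI2 := p_PHI2 q_LEV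

theorem q_TEL : S_TEL := p_TEL

theorem q_PHI : S_PHI := p_PHI q_PHI1 q_PHI2 q_TEL

theorem q_GMET : S_GMET := p_GMET

theorem q_GAP1 : S_GAP1 := p_GAP1 q_GCV q_SPL q_HV q_L1 q_GMET

theorem q_GAP2 : S_GAP2 := p_GAP2 q_LEV q_GCV q_SPL

theorem q_GAP : S_GAP := p_GAP q_GAP1 q_GAP2 q_TEL

theorem q_ALG : S_ALG := p_ALG

theorem q_LVL : S_LVL := p_LVL q_DEC q_XB

theorem q_STEP : S_STEP := p_STEP q_LVL q_PHI q_GAP q_GCV q_HV q_ALG

theorem q_IND : S_IND := p_IND q_BASE q_STEP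

theorem q_ACK : S_ACK := p_ACK

theorem q_GROW : S_GROW := p_GROW

theorem q_REC : S_REC := p_REC

theorem q_BIR : S_BIR := p_BIR

theorem q_NEAR : S_NEAR := p_NEAR q_REC

theorem q_ACARD : S_ACARD := p_ACARD q_REC q_NEAR

theorem q_CHG : S_CHG := p_CHG q_BIR q_ACARD

theorem q_FEW : S_FEW := p_FEW q_CHG

theorem q_ROK : S_ROK := p_ROK q_WT q_ACARD q_FEW

theorem q_UP : S_UP := p_UP q_REC

theorem q_BLK : S_BLK := p_BLK

theorem q_MET : S_MET := p_MET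

theorem q_SUM : S_SUM := p_SUM q_IND q_ACK q_MET q_HV

theorem q_MAIN : S_MAIN := p_MAIN q_ROK q_UP q_BLK q_SUM q_GROW

end Pool.Agent.P.MP_119182_lc.UM
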