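import Pool.Agent.P.MP_119182_lc.UM.All

/-! Epochs cut by the distance travelled. -/

set_option autoImplicit false

namespace Pool.Agent.P.MP_119182_lc.UM.Avg

open Finset

/-- The distance from access `i` to the nearest recent key. -/
noncomputable def ed (a : ℕ → ℕ) (D i : ℕ) : ℕ :=
  sInf ((fun z => Nat.dist (a i) z) '' (Rc a D i : Set ℕ))

/-- The distance travelled up to time `i`. -/
noncomputable def Ed (a : ℕ → ℕ) (D i : ℕ) : ℕ := ∑ l ∈ range (i + 1), ed a D l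

/-- The cuts between the epochs of scale `σ`. -/
def cut2 (a : ℕ → ℕ) (u m σ l : ℕ) : Prop :=
  l < m ∧ Ed a (2 ^ u) (l - 1) / 2 ^ σ ≠ Ed a (2 ^ u) l / 2 ^ σ

open Classical in
/-- The blocks of scale `σ` accessed from time `i` to the end of the epoch. -/
noncomputable def act2 (a : ℕ → ℕ) (u m σ i : ℕ) : Finset ℕ :=
  ((Ico i m).filter fun j => ∀ l ∈ Ioc i j, ¬ cut2 a u m σ l).image fun j => a j / 2 ^ σ

/-- The data of a splay run. -/
noncomputable def run2 (n m u : ℕ) (T : BT) (a : ℕ → ℕ) : Dat :=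
  { run n m u T a with
    M := 12 * (3 * (2 ^ u + 2) + 1) * 2 ^ u * (n + m)
    Act := act2 a u m }

theorem ed_le {a : ℕ → ℕ} {D i z : ℕ} (h : z ∈ Rc a D i) : ed a D i ≤ Nat.dist (a i) z :=
  Nat.sInf_le ⟨z, mem_coe.2 h, rfl⟩

theorem prev (a : ℕ → ℕ) (D i : ℕ) : a i ∈ Rc a D (i + 1) := by
  refine BIRx.mem_Rc (Nat.lt_succ_self i) ?_
  have : Ioo i (i + 1) = ∅ := eq_empty_of_forall_notMem fun z hz => by
    have := mem_Ioo.1 hz
    omega
  simp [this]

theorem ed_mem (a : ℕ → ℕ) (D i : ℕ) :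
    ∃ z ∈ Rc a D (i + 1), Nat.dist (a (i + 1)) z = ed a D (i + 1) := by
  obtain ⟨z, hz, e⟩ := Nat.sInf_mem
    (s := (fun z => Nat.dist (a (i + 1)) z) '' (Rc a D (i + 1) : Set ℕ))
    ⟨_, a i, mem_coe.2 (prev a D i), rfl⟩
  exact ⟨z, mem_coe.1 hz, e⟩

theorem ed_zero (a : ℕ → ℕ) (D : ℕ) : ed a D 0 = 0 := by
  simp [ed, Rc]

theorem Ed_succ (a : ℕ → ℕ) (D i : ℕ) : Ed a D (i + 1) = Ed a D i + ed a D (i + 1) :=
  sum_range_succ _ _

theorem drift (a : ℕ → ℕ) (D i : ℕ) : ∀ k : ℕ, ∀ y ∈ insert (a (i + k)) (Rc a D (i + k)),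
    ∃ z ∈ insert (a i) (Rc a D i), Nat.dist y z + Ed a D i ≤ Ed a D (i + k)
  | 0, y, hy => ⟨y, hy, by simp [Nat.dist_self]⟩
  | k + 1, y, hy => by
    have hsub : Rc a D (i + k + 1) ⊆ insert (a (i + k)) (Rc a D (i + k)) := (q_REC a D (i + k)).2.1
    have e1 := Ed_succ a D (i + k)
    rw [← add_assoc] at hy ⊢
    rcases mem_insert.1 hy with h | h
    · obtain ⟨y', hy', hd⟩ := ed_mem a D (i + k)
      obtain ⟨z, hz, hz2⟩ := drift a D i k y' (hsub hy')
      refine ⟨z, hz, ?_⟩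
      have := Nat.dist.triangle_inequality y y' z
      rw [h] at this ⊢
      omega
    · obtain ⟨z, hz, hz2⟩ := drift a D i k y (hsub h)
      exact ⟨z, hz, by omega⟩

theorem same (a : ℕ → ℕ) (u m σ i : ℕ) : ∀ k : ℕ, i + k < m →
    (∀ l ∈ Ioc i (i + k), ¬ cut2 a u m σ l) →
    Ed a (2 ^ u) (i + k) / 2 ^ σ = Ed a (2 ^ u) i / 2 ^ σ
  | 0, _, _ => rfl
  | k + 1, hm, h => by
    have ih := same a u m σ i k (by omega) fun l hl => h l (by
      rw [mem_Ioc] at hl ⊢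
      omega)
    have h1 := h (i + (k + 1)) (mem_Ioc.2 ⟨by omega, le_rfl⟩)
    rw [cut2, not_and, not_not] at h1
    rw [← h1 hm, ← ih]
    rfl

theorem near {m u σ i B : ℕ} {a : ℕ → ℕ} (hB : B ∈ act2 a u m σ i) :
    ∃ y, y / 2 ^ σ = B ∧ ∃ z ∈ insert (a i) (Rc a (2 ^ u) i), Nat.dist y z ≤ 2 ^ σ := by
  classical
  unfold act2 at hB
  obtain ⟨j, hj, rfl⟩ := mem_image.1 hB
  rw [mem_filter, mem_Ico] at hj
  obtain ⟨⟨hij, hjm⟩, hc⟩ := hj
  obtain ⟨k, rfl⟩ := Nat.exists_eq_add_of_le hij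
  obtain ⟨z, hz, hd⟩ := drift a (2 ^ u) i k (a (i + k)) (mem_insert_self _ _)
  refine ⟨a (i + k), rfl, z, hz, ?_⟩
  have h1 := same a u m σ i k hjm hc
  have h2 := Nat.div_add_mod (Ed a (2 ^ u) (i + k)) (2 ^ σ)
  have h3 := Nat.div_add_mod (Ed a (2 ^ u) i) (2 ^ σ)
  have h4 := Nat.mod_lt (Ed a (2 ^ u) (i + k)) (Nat.two_pow_pos σ)
  rw [h1] at h2
  omega

theorem acard (m u σ i : ℕ) (a : ℕ → ℕ) : (act2 a u m σ i).card ≤ 3 * (2 ^ u + 2) ∧
    ∀ lo hi : ℕ, (∀ z ∈ Rc a (2 ^ u) i, z ≤ lo ∨ hi ≤ z) →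
      ((act2 a u m σ i).filter fun B => ∃ v ∈ Ioo lo hi, v / 2 ^ σ = B).card ≤ 7 := by
  have hq : 0 < 2 ^ σ := Nat.two_pow_pos σ
  refine ⟨?_, fun lo hi h => ?_⟩
  · have h1 : act2 a u m σ i ⊆ (insert (a i) (Rc a (2 ^ u) i)).biUnion fun z =>
        {z / 2 ^ σ - 1, z / 2 ^ σ, z / 2 ^ σ + 1} := fun B hB => by
      obtain ⟨y, rfl, z, hz, d⟩ := near hB
      have := ACARDx.close hq d
      refine mem_biUnion.2 ⟨z, hz, ?_⟩
      simp only [mem_insert, mem_singleton]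
      generalize y / 2 ^ σ = b, z / 2 ^ σ = c at this ⊢
      omega
    refine (card_le_card h1).trans ((card_biUnion_le_card_mul _ _ 3 fun z _ =>
      card_le_three).trans ?_)
    have := card_insert_le (a i) (Rc a (2 ^ u) i)
    have := (q_REC a (2 ^ u) i).1
    omega
  · have h1 : ((act2 a u m σ i).filter fun B => ∃ v ∈ Ioo lo hi, v / 2 ^ σ = B) ⊆
        [lo / 2 ^ σ, lo / 2 ^ σ + 1, hi / 2 ^ σ - 1, hi / 2 ^ σ, a i / 2 ^ σ - 1, a i / 2 ^ σ,
          a i / 2 ^ σ + 1].toFinset := fun B hB => by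
      obtain ⟨hB, v, hv, e⟩ := mem_filter.1 hB
      obtain ⟨y, rfl, z, hz, d⟩ := near hB
      have := ACARDx.close hq d
      rw [mem_Ioo] at hv
      have a1 : lo / 2 ^ σ ≤ v / 2 ^ σ := Nat.div_le_div_right hv.1.le
      have a2 : v / 2 ^ σ ≤ hi / 2 ^ σ := Nat.div_le_div_right hv.2.le
      simp only [List.mem_toFinset, List.mem_cons, List.not_mem_nil, or_false]
      have a3 : z / 2 ^ σ = a i / 2 ^ σ ∨ z / 2 ^ σ ≤ lo / 2 ^ σ ∨ hi / 2 ^ σ ≤ z / 2 ^ σ := by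
        rcases mem_insert.1 hz with rfl | hz
        · exact Or.inl rfl
        · exact Or.inr ((h z hz).imp Nat.div_le_div_right Nat.div_le_div_right)
      rw [e] at a1 a2
      generalize y / 2 ^ σ = b, z / 2 ^ σ = c, lo / 2 ^ σ = l, hi / 2 ^ σ = k,
        a i / 2 ^ σ = w at this a1 a2 a3 ⊢
      omega
    exact (card_le_card h1).trans (List.toFinset_card_le _)

theorem sub (a : ℕ → ℕ) (u m σ i : ℕ) (h : ¬ cut2 a u m σ (i + 1)) :
    act2 a u m σ (i + 1) ⊆ act2 a u m σ i := by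
  classical
  refine image_subset_image fun j hj => ?_
  rw [mem_filter, mem_Ico] at hj ⊢
  refine ⟨⟨by omega, hj.1.2⟩, fun l hl => ?_⟩
  rw [mem_Ioc] at hl
  rcases Nat.lt_or_ge (i + 1) l with h' | h'
  · exact hj.2 l (mem_Ioc.2 ⟨h', hl.2⟩)
  · obtain rfl : l = i + 1 := by omega
    exact h

open Classical in
theorem cuts (a : ℕ → ℕ) (u m σ : ℕ) : ∀ k,
    ((range k).filter fun i => cut2 a u m σ (i + 1)).card ≤ Ed a (2 ^ u) (min k (m - 1)) / 2 ^ σ
  | 0 => by simp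
  | k + 1 => by
    have ih := cuts a u m σ k
    rw [range_add_one, filter_insert]
    split_ifs with h
    · rw [card_insert_of_notMem (by simp)]
      have h1 := h.1
      have h2 := h.2
      rw [min_eq_left (by omega)] at ih ⊢
      have h3 : Ed a (2 ^ u) k / 2 ^ σ ≤ Ed a (2 ^ u) (k + 1) / 2 ^ σ :=
        Nat.div_le_div_right (by rw [Ed_succ]; omega)
      simp only [Nat.add_sub_cancel] at h2
      omega
    · refine ih.trans (Nat.div_le_div_right (sum_le_sum_of_subset (range_subset_range.2 ?_)))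
      omega

/-- The total distance to recent keys. -/
theorem total {n m u : ℕ} {a y : ℕ → ℕ} (ha : ∀ i < m, 1 ≤ a i ∧ a i ≤ n)
    (hy : ∀ i < m, wset a i (y i) ≤ 2 ^ u)
    (hs : ∑ i ∈ range m, Nat.dist (a i) (y i) ≤ 2 ^ u * (n + m)) :
    Ed a (2 ^ u) (m - 1) ≤ 2 * (2 ^ u * (n + m)) := by
  classical
  rcases Nat.eq_zero_or_pos m with rfl | hm
  · simp [Ed, ed_zero]
  have e0 : Ed a (2 ^ u) (m - 1) = ∑ l ∈ range m, ed a (2 ^ u) l := by
    rw [Ed, Nat.sub_add_cancel hm]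
  set X := (range m).filter fun i => Nat.dist (a i) (y i) < ed a (2 ^ u) i with hX
  have small : ∀ i ∈ X, ((Ioc 0 i).image a).card ≤ 2 ^ u := fun i hi => by
    obtain ⟨h1, h2⟩ := mem_filter.1 hi
    have h3 := hy i (mem_range.1 h1)
    by_cases hne : ((range i).filter fun s => a s = y i).Nonempty
    · exfalso
      obtain ⟨l, hl, e⟩ := exists_mem_eq_sup _ hne id
      have e' : lastIdx a i (y i) = l := e
      obtain ⟨hl1, hl2⟩ := mem_filter.1 hl
      have h4 : ((Ioo l i).image a).card ≤ wset a i (y i) := by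
        rw [wset, e']
        exact card_le_card (image_subset_image Ioo_subset_Ioc_self)
      have h5 := ed_le (BIRx.mem_Rc (mem_range.1 hl1) (h4.trans h3))
      rw [hl2] at h5
      omega
    · have e : lastIdx a i (y i) = 0 := by
        rw [lastIdx, not_nonempty_iff_eq_empty.1 hne]; rfl
      rwa [wset, e] at h3
  have fresh : ∀ i ∈ X, ∀ s < i, a s ≠ a i := fun i hi s hs e => by
    have h1 : ((Ioo s i).image a).card ≤ 2 ^ u :=
      (card_le_card (image_subset_image fun z hz => by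
        simp only [mem_Ioo, mem_Ioc] at hz ⊢; omega)).trans (small i hi)
    have h2 := ed_le (BIRx.mem_Rc hs h1)
    rw [e, Nat.dist_self] at h2
    have := (mem_filter.1 hi).2
    omega
  have pos : ∀ i ∈ X, 0 < i := fun i hi => Nat.pos_of_ne_zero fun e => by
    have := (mem_filter.1 hi).2
    rw [e, ed_zero] at this
    omega
  have cX : X.card ≤ 2 ^ u := by
    rcases X.eq_empty_or_nonempty with h | hne
    · simp [h]
    refine le_trans ?_ (small _ (X.max'_mem hne))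
    refine card_le_card_of_injOn a (fun i hi => ?_) fun i hi j hj e => ?_
    · exact mem_coe.2 (mem_image_of_mem _ (mem_Ioc.2 ⟨pos i hi, X.le_max' _ hi⟩))
    · rcases lt_trichotomy i j with h | h | h
      · exact absurd e (fresh j hj i h)
      · exact h
      · exact absurd e.symm (fresh i hi j h)
  have big : ∀ l ∈ range m, ed a (2 ^ u) l ≤
      Nat.dist (a l) (y l) + if l ∈ X then n else 0 := fun l hl => by
    split_ifs with h
    · obtain ⟨k, rfl⟩ : ∃ k, l = k + 1 := ⟨l - 1, by have := pos l h; omega⟩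
      have h1 := ed_le (prev a (2 ^ u) k)
      have h2 := ha (k + 1) (mem_range.1 hl)
      have h3 := ha k (by have := mem_range.1 hl; omega)
      unfold Nat.dist at h1
      omega
    · have : ¬ Nat.dist (a l) (y l) < ed a (2 ^ u) l := fun h' => h (mem_filter.2 ⟨hl, h'⟩)
      omega
  have s1 := sum_le_sum big
  rw [sum_add_distrib, ← sum_filter, filter_mem_eq_inter,
    inter_eq_right.2 (filter_subset _ _), sum_const, smul_eq_mul] at s1
  have s2 : X.card * n ≤ 2 ^ u * (n + m) := Nat.mul_le_mul cX (by omega)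
  rw [← hX] at s1
  omega

theorem chg {m u τ Z : ℕ} {a : ℕ → ℕ} (hZ : Ed a (2 ^ u) (m - 1) ≤ Z) :
    2 ^ τ * ((range m).filter fun i => act2 a u m τ (i + 1) ≠ act2 a u m τ i).card ≤
      (3 * (2 ^ u + 2) + 1) * (2 ^ τ + Z) := by
  classical
  have h1 := CHGx.tele (act2 a u m τ) (fun i => cut2 a u m τ (i + 1)) (3 * (2 ^ u + 2))
    (fun i => (acard m u τ i a).1) (fun i => sub a u m τ i) m
  have h2 := cuts a u m τ m
  rw [min_eq_right (Nat.sub_le _ _)] at h2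
  have h3 : 2 ^ τ * (Ed a (2 ^ u) (m - 1) / 2 ^ τ) ≤ Z := (Nat.mul_div_le _ _).trans hZ
  have h4 : ((range m).filter fun i => act2 a u m τ (i + 1) ≠ act2 a u m τ i).card ≤
      (3 * (2 ^ u + 2) + 1) * (1 + Ed a (2 ^ u) (m - 1) / 2 ^ τ) := by
    have := Nat.mul_le_mul_left (3 * (2 ^ u + 2) + 1) h2
    refine le_trans (Nat.le_add_right _ _) (le_trans h1 ?_)
    refine le_trans (add_le_add (Nat.le_add_right _ 1) this) (le_of_eq (by ring))
  calc _ ≤ 2 ^ τ * ((3 * (2 ^ u + 2) + 1) * (1 + Ed a (2 ^ u) (m - 1) / 2 ^ τ)) :=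
        Nat.mul_le_mul_left _ h4
    _ = (3 * (2 ^ u + 2) + 1) * (2 ^ τ + 2 ^ τ * (Ed a (2 ^ u) (m - 1) / 2 ^ τ)) := by ring
    _ ≤ _ := Nat.mul_le_mul_left _ (add_le_add le_rfl h3)

theorem few {n m u : ℕ} (T : BT) {a : ℕ → ℕ}
    (hZ : Ed a (2 ^ u) (m - 1) ≤ 2 * (2 ^ u * (n + m))) (hn : 1 ≤ n) (σ : ℕ)
    (hS : σ ≤ Nat.size n) : 2 ^ σ * (((run2 n m u T a).chg σ).card + 1) ≤ (run2 n m u T a).M := by
  classical
  set K := 3 * (2 ^ u + 2) + 1 with hK
  set k : ℕ → ℕ := fun τ =>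
    ((range m).filter fun i => act2 a u m τ (i + 1) ≠ act2 a u m τ i).card with hk
  have hp := FEWx.pow_size hn
  have hle : ∀ τ, τ ≤ Nat.size n → 2 ^ τ ≤ 2 * n := fun τ hτ =>
    (Nat.pow_le_pow_right (by norm_num) hτ).trans hp
  have hsub : (run2 n m u T a).chg σ ⊆ (range (Nat.size n + 1 - σ)).biUnion fun j =>
      (range m).filter fun i => act2 a u m (σ + j) (i + 1) ≠ act2 a u m (σ + j) i := by
    intro i hi
    simp only [Dat.chg, run2, run, mem_filter, mem_Icc] at hi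
    obtain ⟨hi, τ, ⟨h1, h2⟩, h3⟩ := hi
    refine mem_biUnion.mpr ⟨τ - σ, mem_range.mpr (by omega), ?_⟩
    rw [show σ + (τ - σ) = τ by omega]
    exact mem_filter.mpr ⟨hi, h3⟩
  have hc : ((run2 n m u T a).chg σ).card ≤ ∑ j ∈ range (Nat.size n + 1 - σ), k (σ + j) :=
    (card_le_card hsub).trans card_biUnion_le
  have hD : n ≤ 2 ^ u * (n + m) :=
    (Nat.le_add_right n m).trans (Nat.le_mul_of_pos_left _ (Nat.two_pow_pos u))
  have hg := FEWx.geo k (K * (4 * (2 ^ u * (n + m)))) (Nat.size n + 1 - σ) σ (fun j hj => by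
    refine (chg hZ).trans (Nat.mul_le_mul_left _ ?_)
    have := hle (σ + j) (by omega)
    omega)
  have hσ := hle σ hS
  have hM : (run2 n m u T a).M = 12 * (K * (2 ^ u * (n + m))) := by
    simp only [run2, hK]; ring
  rw [hM, mul_add, mul_one]
  have h5 := (Nat.mul_le_mul_left (2 ^ σ) hc).trans hg
  have h6 : 2 ^ u * (n + m) ≤ K * (2 ^ u * (n + m)) := Nat.le_mul_of_pos_left _ (by omega)
  have e1 : 2 * (K * (4 * (2 ^ u * (n + m)))) = 8 * (K * (2 ^ u * (n + m))) := by ring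
  omega

theorem rok {n m u : ℕ} {T : BT} {a : ℕ → ℕ} (hT : T.keys = List.range' 1 n)
    (ha : ∀ i < m, 1 ≤ a i ∧ a i ≤ n) (hZ : Ed a (2 ^ u) (m - 1) ≤ 2 * (2 ^ u * (n + m)))
    (hn : 1 ≤ n) : (run2 n m u T a).OK := by
  classical
  have hK := ROKx.keys n m T a hT ha
  refine ⟨fun i _ => ROKx.psub _ _ _ _, ?_, ?_, ?_, ?_, ?_, ?_⟩
  · intro i hi D hD hC hx
    have hi' : i < m := hi
    exact q_WT n (a i) (MainA.Tr T a i) D (hK i hi'.le) (ha i hi').1 (ha i hi').2 hD hC hx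
  · intro σ i _ _ hi
    have hi' : i < m := hi
    change a i / 2 ^ σ ∈ act2 a u m σ i
    unfold act2
    refine mem_image.mpr ⟨i, mem_filter.mpr ⟨mem_Ico.mpr ⟨le_rfl, hi'⟩, ?_⟩, rfl⟩
    intro l hl
    have := mem_Ioc.mp hl
    omega
  · intro σ τ i v _ hστ _ hv
    change v / 2 ^ σ ∈ act2 a u m σ i at hv
    change v / 2 ^ τ ∈ act2 a u m τ i
    unfold act2 at hv ⊢
    obtain ⟨j, hj, e⟩ := mem_image.mp hv
    obtain ⟨hj1, hj2⟩ := mem_filter.mp hj
    refine mem_image.mpr ⟨j, mem_filter.mpr ⟨hj1, ?_⟩, ROKx.divup σ τ _ _ hστ e⟩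
    intro l hl hc
    exact hj2 l hl ⟨hc.1, fun e' => hc.2 (ROKx.divup σ τ _ _ hστ e')⟩
  · intro σ i _ _
    exact (acard m u σ i a).1
  · intro σ _ h2
    exact few T hZ hn σ h2
  · intro i hi
    have hi' : i < m := hi
    refine ⟨mlo a (2 ^ u) i, mhi a n (2 ^ u) i, ?_, ?_⟩
    · intro v hv hU
      have hv' : v ∈ pth n (a i) (lpar (MainA.Tr T a i)) (rpar n (MainA.Tr T a i)) := hv
      have hI := mem_Icc.mp (ROKx.psub _ _ _ _ hv')
      have hb := (p_STRUCT n (a i) _ (hK i hi'.le) (ha i hi').1 (ha i hi').2).2.1.bnd v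
        hI.1 hI.2
      have hU' : ¬ (lpar (MainA.Tr T a i) v < mlo a (2 ^ u) i ∨
          mhi a n (2 ^ u) i < rpar n (MainA.Tr T a i) v) := fun h =>
        hU (mem_filter.mpr ⟨hv', h⟩)
      omega
    · intro σ _ _
      refine (acard m u σ i a).2 _ _ ?_
      intro z hz
      rcases le_or_gt z (a i) with h | h
      · exact Or.inl (le_sup (f := id) (mem_filter.mpr ⟨hz, h⟩))
      · exact Or.inr (min'_le _ _ (mem_insert_of_mem (mem_filter.mpr ⟨hz, h⟩)))

open MainA UPx in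
theorem up {n m u : ℕ} {T : BT} {a : ℕ → ℕ} (hT : T.keys = List.range' 1 n)
    (hx : ∀ i < m, 1 ≤ a i ∧ a i ≤ n) :
    ∑ i ∈ range m, ((run n m u T a).Up i).card ≤ 9 * (u + 2) * (n + m) := by
  obtain ⟨Φ, hΦ0, hΦ⟩ := p_POT
  have hK := ROKx.keys n m T a hT hx
  have hc : ∀ i, (insert 0 (Rc a (2 ^ u) i)).card ≤ 2 ^ u + 2 := fun i =>
    (card_insert_le _ _).trans (Nat.succ_le_succ (q_REC a _ i).1)
  have e4 := tele (fun i => ((run n m u T a).Up i).card)
    (fun t => Φ (insert 0 (Rc a (2 ^ u) t)) (Tr T a t)) (8 * Nat.size (2 ^ u + 2) + 1) m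
    fun t ht => by
      have h1 := mhi_mem a n (2 ^ u) t
      have h2 := (hx t ht).2
      refine (hΦ n _ (a t) (mlo a (2 ^ u) t) (mhi a n (2 ^ u) t) _ _ _ (hK t ht.le) (hx t ht).1 h2
        (hc t) (hc (t + 1)) ?_ (Finset.sup_le fun z hz => (mem_filter.1 hz).2)
        (h1.elim (fun h => by omega) And.right) (min'_le _ _ (mem_insert_self _ _))
        (mlo_mem a _ t) fun h => mem_insert_of_mem (h1.resolve_left (by omega)).1).trans_eq
        (add_assoc _ _ _)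
      rw [insert_comm]
      exact insert_subset_insert _ (q_REC a _ t).2.1
  have e0 := hΦ0 n _ T _ hT (hc 0)
  have e1 : Nat.size (2 ^ u + 2) ≤ u + 2 := Nat.size_le.2 (by
    have := Nat.one_le_two_pow (n := u)
    rw [pow_add]
    omega)
  have e2 := Nat.mul_le_mul_left n e1
  have e3 := Nat.mul_le_mul_left m e1
  change _ ≤ 2 * Φ _ T + _ at e4
  nlinarith [Nat.zero_le (n * u), Nat.zero_le (m * u)]

theorem big (D N : ℕ) (h : 1 ≤ D) : 3 * (D + 2) * (3 * (D + 2) + 1) *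
    (12 * (3 * (D + 2) + 1) * D * N) ≤ D ^ 4 * (16200 * N) :=
  calc _ ≤ 9 * D * (10 * D) * (12 * (10 * D) * (D * 1) * N) :=
        Nat.mul_le_mul (Nat.mul_le_mul (by omega) (by omega)) (Nat.mul_le_mul_right _
          (Nat.mul_le_mul (Nat.mul_le_mul_left _ (by omega)) (by omega)))
    _ = D ^ 4 * (10800 * N) := by ring
    _ ≤ _ := Nat.mul_le_mul_left _ (by omega)

theorem main : ∃ C : ℕ, ∀ (k j n u m : ℕ) (T : BT) (a y : ℕ → ℕ), n ≤ ack k j →
    T.keys = List.range' 1 n → (∀ i < m, 1 ≤ a i ∧ a i ≤ n) → (∀ i < m, wset a i (y i) ≤ 2 ^ u) →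
    ∑ i ∈ range m, Nat.dist (a i) (y i) ≤ 2 ^ u * (n + m) →
    cost T ((List.range m).map a) ≤ C ^ (k + 1) ^ 2 * (u + j + 1) * (n + m) := by
  obtain ⟨C, hC⟩ := q_GROW
  refine ⟨37400000 * C, fun k j n u m T a y hn hT ha hy hs => ?_⟩
  have hp : 1 ≤ 192 ^ (k + 1) := Nat.one_le_pow _ _ (by norm_num)
  have hb := q_BLK n m (4 * u) T a hT ha
  have main : cost T ((List.range m).map a) ≤ 37400000 *
      (192 ^ (k + 1) * (AA (k + 1) + EE (k + 1) + 1) * (u + j + 1) * (n + m)) := by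
    rcases le_or_gt (Nat.size n) (4 * u) with h | h
    · have s : ∑ i ∈ range m, nP (pth n (a i) (lpar (MainA.Tr T a i)) (rpar n (MainA.Tr T a i)))
          (fun v => v / 2 ^ (4 * u)) ≤ ∑ _i ∈ range m, 1 := by
        refine sum_le_sum fun i _ => (card_le_card (t := {0}) fun y hy => ?_).trans_eq rfl
        obtain ⟨v, hv, rfl⟩ := mem_image.1 hy
        have : v ≤ n := (mem_union.1 hv).elim (fun h => (mem_Icc.1 (mem_filter.1 h).1).2)
          fun h => (mem_Icc.1 (mem_filter.1 h).1).2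
        exact mem_singleton.2 (Nat.div_eq_of_lt (this.trans_lt ((Nat.lt_size_self n).trans_le
          (Nat.pow_le_pow_right two_pos h))))
      rw [sum_const, card_range, smul_eq_mul, mul_one] at s
      refine MAINx.fin (P := m) (Q := 0) (U := 0) hp (by omega) ?_ (Nat.zero_le _) (Nat.zero_le _)
      calc 24 * m ≤ 48 * 1 * (0 + (0 + 7) * m) := by omega
        _ ≤ 48 * 192 ^ (k + 1) * (0 + (AA (k + 1) + 7) * m) := by gcongr; omega
        _ ≤ _ := by omega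
    · have n1 : 1 ≤ n := Nat.size_pos.1 (by omega)
      refine MAINx.fin hp hb (q_SUM (run2 n m u T a) k j (rok hT ha (total ha hy hs) n1) h.le
        (Nat.lt_size_self n) ((Nat.size_le.2 n.lt_two_pow_self).trans hn)
        (fun i hi => (ha i hi).2) _ ?_) ?_ (up hT ha)
      · refine (big (2 ^ u) (n + m) Nat.one_le_two_pow).trans_eq ?_
        rw [← pow_mul, mul_comm u]
        rfl
      · rw [MainA.cost_eq]
        refine sum_le_sum fun i hi => ?_
        have hi := mem_range.1 hi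
        rw [(p_STRUCT n (a i) _ (MAINx.keys hT ha i hi.le) (ha i hi).1 (ha i hi).2).2.2.1]
        exact (card_union_le _ _).trans (Nat.le_succ _)
  refine main.trans ?_
  rw [← mul_assoc, ← mul_assoc, mul_pow]
  gcongr
  · exact Nat.le_self_pow (by positivity) _
  · exact hC k

end Pool.Agent.P.MP_119182_lc.UM.Avg
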