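import Pool.Agent.P.MP_119182_lc.Main
import Pool.Agent.P.MP_119182_lc.Pot
import Pool.Agent.P.MP_119182_lc.Blk
import Pool.Agent.P.MP_119182_lc.Dyn

/-! Definitions for the tier argument. -/

set_option autoImplicit false

namespace Pool.Agent.P.MP_119182_lc.UM

open Finset

/-- The proper ancestors of `x`. -/
def pth (n x : ℕ) (lp rp : ℕ → ℕ) : Finset ℕ := lftPath n x rp ∪ rgtPath n x lp

/-- What one splay at `x` does to the keys larger than `x`. -/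
structure StR (n x : ℕ) (lp rp lq rq : ℕ → ℕ) : Prop where
  off : ∀ y, 1 ≤ y → y ≤ n → y ≠ x → ¬ (lp y < x ∧ x < rp y) → lq y = lp y ∧ rq y = rp y
  bnd : ∀ y, 1 ≤ y → y ≤ n → lp y < y ∧ y < rp y
  lamL : ∀ y z, 1 ≤ y → y ≤ n → lp y < z → z < y → lp y ≤ lp z ∧ rp z ≤ y
  lamR : ∀ y z, 1 ≤ y → y ≤ n → y < z → z < rp y → y ≤ lp z ∧ rp z ≤ rp y
  anc : ∀ y, 1 ≤ y → y ≤ n → rp y ≤ n → lp (rp y) ≤ lp y
  los : ∀ u, x < u → u ≤ n → lp u < x → lq u ≠ x →
    x < lq u ∧ lq u < u ∧ lp (lq u) < x ∧ rp (lq u) = u ∧ rq u = rp u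
  low : ∀ v, x < v → v ≤ n → lp v < x → rq v = rp v ∨ (rp v ≤ n ∧ rq v = rq (rp v))
  win : ∀ d, x < d → d ≤ n → lp d < x → rp d ≤ n → rp (rp d) ≤ n → lp (rp d) = lp d →
    lp (rp (rp d)) = lp d → lq (rp d) ≠ x ∨ lq (rp (rp d)) ≠ x

/-- A set of keys without holes. -/
def Cvx (D : Finset ℕ) : Prop := ∀ a ∈ D, ∀ c ∈ D, ∀ b, a ≤ b → b ≤ c → b ∈ D

/-- The fibres of `f` on `D` have no holes. -/
def CvxF {α : Type} (D : Finset ℕ) (f : ℕ → α) : Prop :=
  ∀ a ∈ D, ∀ b ∈ D, ∀ c ∈ D, a ≤ b → b ≤ c → f a = f c → f b = f a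

/-- One of the two parents is outside `D`. -/
def inH (D : Finset ℕ) (lp rp : ℕ → ℕ) (v : ℕ) : Prop := lp v ∉ D ∨ rp v ∉ D

/-- The left parent is outside `D` and no smaller key of `D` has the same left parent. -/
def inL (D : Finset ℕ) (lp : ℕ → ℕ) (v : ℕ) : Prop := lp v ∉ D ∧ ∀ d ∈ D, d < v → lp d ≠ lp v

/-- The right parent is outside `D` and no larger key of `D` has the same right parent. -/
def inR (D : Finset ℕ) (rp : ℕ → ℕ) (v : ℕ) : Prop := rp v ∉ D ∧ ∀ d ∈ D, v < d → rp d ≠ rp v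

open Classical in
/-- The weight of `v` relative to `D`. -/
noncomputable def wt (D : Finset ℕ) (lp rp : ℕ → ℕ) (v : ℕ) : ℕ :=
  (if inH D lp rp v then 1 else 0) + (if inL D lp v then 1 else 0) + (if inR D rp v then 1 else 0)

open Classical in
/-- The touched keys that pay. -/
noncomputable def pay (n x : ℕ) (D : Finset ℕ) (lp lq rq : ℕ → ℕ) : Finset ℕ :=
  (rgtPath n x lp ∩ D).filter fun v => inL D lp v ∨ ¬ inH D lq rq v

/-- Among two consecutive inner elements of `P` one lies in `E`. -/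
def Win (P E : Finset ℕ) : Prop :=
  ∀ p ∈ P, ∀ d ∈ P, ∀ d' ∈ P, ∀ p' ∈ P, p < d → d < d' → d' < p' →
    (∀ z ∈ P, ¬ (d < z ∧ z < d')) → d ∈ E ∨ d' ∈ E

/-- The weights `w` before and `w'` after an access that touches the keys `P` of `D`. -/
structure WF (D P : Finset ℕ) (w w' : ℕ → ℕ) : Prop where
  sub : P ⊆ D
  emp : P = ∅ → ∀ v ∈ D, w' v = w v
  mid : ∀ v ∈ D, ∀ p ∈ P, ∀ p' ∈ P, p < v → v < p' → w v ≤ if v ∈ P then 2 else 0
  ex : ∃ (E : Finset ℕ) (δ : ℕ → ℕ), E ⊆ P ∧ Win P E ∧ ∑ v ∈ D, δ v ≤ 3 ∧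
    ∀ v ∈ D, w' v + (if v ∈ E then 1 else 0) ≤ w v + δ v

section
variable {α β : Type} [DecidableEq α] [DecidableEq β]

/-- Weights summed over the fibres of `f`, each capped at `c`. -/
def Th1 (c : ℕ) (D : Finset ℕ) (f : ℕ → α) (w : ℕ → ℕ) : ℕ :=
  ∑ p ∈ D.image f, min c (∑ v ∈ D.filter (fun v => f v = p), w v)

/-- The same with a second cap on the fibres of `g`. -/
def Th (c1 c2 : ℕ) (D : Finset ℕ) (f : ℕ → α) (g : ℕ → β) (w : ℕ → ℕ) : ℕ :=
  ∑ q ∈ D.image g, min c2 (Th1 c1 (D.filter fun v => g v = q) f w)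

/-- The number of parts met by `P`. -/
def nP (P : Finset ℕ) (f : ℕ → α) : ℕ := (P.image f).card

/-- The number of parts holding at least `h` elements of `P`. -/
def nH (h : ℕ) (P : Finset ℕ) (f : ℕ → α) : ℕ :=
  ((P.image f).filter fun p => h ≤ (P.filter fun v => f v = p).card).card

/-- The number of pieces in which `P` meets at least `θ` parts. -/
def nW (θ : ℕ) (P : Finset ℕ) (f : ℕ → α) (g : ℕ → β) : ℕ :=
  ((P.image g).filter fun q => θ ≤ nP (P.filter fun v => g v = q) f).card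

/-- The number of parts met by `P` in the other pieces. -/
def nN (θ : ℕ) (P : Finset ℕ) (f : ℕ → α) (g : ℕ → β) : ℕ :=
  nP (P.filter fun v => nP (P.filter fun z => g z = g v) f < θ) f

/-- The elements of `P` in a light part of a narrow piece that holds neither end of `P`. -/
def inner (h θ : ℕ) (P : Finset ℕ) (f : ℕ → α) (g : ℕ → β) : Finset ℕ :=
  P.filter fun v => (P.filter fun z => f z = f v).card < h ∧
    nP (P.filter fun z => g z = g v) f < θ ∧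
    (∃ p ∈ P, p < v ∧ g p ≠ g v) ∧ ∃ p ∈ P, v < p ∧ g p ≠ g v

end

/-- The data of a run. -/
structure Dat where
  n : ℕ
  m : ℕ
  s0 : ℕ
  S : ℕ
  c : ℕ
  M : ℕ
  x : ℕ → ℕ
  Pa : ℕ → Finset ℕ
  Up : ℕ → Finset ℕ
  W : ℕ → Finset ℕ → ℕ → ℕ
  Act : ℕ → ℕ → Finset ℕ

namespace Dat

variable (d : Dat)

/-- The times at which the active blocks of some scale from `σ` on change. -/
def chg (σ : ℕ) : Finset ℕ :=
  (range d.m).filter fun i => ∃ τ ∈ Icc σ d.S, d.Act τ (i + 1) ≠ d.Act τ i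

/-- The hypotheses on a run. -/
structure OK : Prop where
  psub : ∀ i < d.m, d.Pa i ⊆ Icc 1 d.n
  wf : ∀ i < d.m, ∀ D : Finset ℕ, D ⊆ Icc 1 d.n → Cvx D → d.x i ∉ D →
    WF D (d.Pa i ∩ D) (d.W i D) (d.W (i + 1) D)
  own : ∀ σ i, d.s0 ≤ σ → σ ≤ d.S → i < d.m → d.x i / 2 ^ σ ∈ d.Act σ i
  nest : ∀ σ τ i v, d.s0 ≤ σ → σ ≤ τ → τ ≤ d.S → v / 2 ^ σ ∈ d.Act σ i → v / 2 ^ τ ∈ d.Act τ i
  card : ∀ σ i, d.s0 ≤ σ → σ ≤ d.S → (d.Act σ i).card ≤ d.c
  few : ∀ σ, d.s0 ≤ σ → σ ≤ d.S → 2 ^ σ * ((d.chg σ).card + 1) ≤ d.M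
  near : ∀ i < d.m, ∃ a b : ℕ, (∀ v ∈ d.Pa i, v ∉ d.Up i → a < v ∧ v < b) ∧
    ∀ σ, d.s0 ≤ σ → σ ≤ d.S →
      ((d.Act σ i).filter fun B => ∃ v ∈ Ioo a b, v / 2 ^ σ = B).card ≤ 7

/-- Path nodes whose block of scale `s` is inactive and whose block of scale `s'` is active. -/
def El (s s' i : ℕ) : Finset ℕ :=
  (d.Pa i).filter fun v => v / 2 ^ s ∉ d.Act s i ∧ v / 2 ^ s' ∈ d.Act s' i

/-- Items met. -/
def cI (s s' i : ℕ) : ℕ := nP (d.El s s' i) fun v => v / 2 ^ s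

/-- Upper path nodes met. -/
def cU (s s' i : ℕ) : ℕ := (d.El s s' i ∩ d.Up i).card

/-- Heavy items. -/
def cH (h s s' i : ℕ) : ℕ := nH h (d.El s s' i) fun v => v / 2 ^ s

/-- The tier inequality. -/
def Tier (F : ℕ → ℕ) (D A E : ℕ) : Prop :=
  ∀ s s' lam h : ℕ, d.s0 ≤ s → s ≤ s' → s' ≤ d.S → s' ≤ s + F lam → 1 ≤ h →
    2 ^ s * ∑ i ∈ range d.m, d.cI s s' i ≤
      2 ^ s * (D * ∑ i ∈ range d.m, (min (d.cI s s' i) A + d.cU s s' i + d.cH h s s' i)) +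
        h * (d.c * (d.c + 1)) * E * lam * d.M

/-- A ladder of scales `t 0 ≤ t 1 ≤ … ≤ t lam`. -/
structure Lad (t : ℕ → ℕ) (lam : ℕ) : Prop where
  mono : Monotone t
  bot : d.s0 ≤ t 0
  top : ∀ r, t r ≤ t lam
  cap : t lam ≤ d.S

variable (t : ℕ → ℕ) (lam : ℕ)

/-- The keys whose lowest block is inactive and whose highest block is active at time `j`. -/
def dom (j : ℕ) : Finset ℕ :=
  (Icc 1 d.n).filter fun v => v / 2 ^ t 0 ∉ d.Act (t 0) j ∧ v / 2 ^ t lam ∈ d.Act (t lam) j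

/-- The last rung at which the block of `v` is inactive. -/
def lev (j v : ℕ) : ℕ := Nat.findGreatest (fun r => v / 2 ^ t r ∉ d.Act (t r) j) lam

/-- The largest inactive block around `v`. -/
def sup (j v : ℕ) : ℕ × ℕ := (d.lev t lam j v, v / 2 ^ t (d.lev t lam j v))

/-- The label of the piece of `v`. -/
def pc (j v : ℕ) : ℕ × ℕ × ℕ :=
  (d.lev t lam j v, v / 2 ^ t (d.lev t lam j v + 1),
    ((d.Act (t (d.lev t lam j v)) j).filter fun b => b < v / 2 ^ t (d.lev t lam j v)).card)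

/-- The label of the gap of `v`. -/
def gl (j v : ℕ) : ℕ × ℕ :=
  (v / 2 ^ t lam, ((d.Act (t 0) j).filter fun b => b < v / 2 ^ t 0).card)

/-- The gap with label `q`. -/
def gap (j : ℕ) (q : ℕ × ℕ) : Finset ℕ := (d.dom t lam j).filter fun v => d.gl t lam j v = q

/-- The gap potential: sets of time `j`, weights of time `i`. -/
def Theta (c1 c2 j i : ℕ) : ℕ :=
  ∑ q ∈ (d.dom t lam j).image (d.gl t lam j),
    Th c1 c2 (d.gap t lam j q) (d.sup t lam j) (d.pc t lam j) (d.W i (d.gap t lam j q))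

/-- The keys of the block `q.2` of rung `q.1`. -/
def blkS (q : ℕ × ℕ) : Finset ℕ := (Icc 1 d.n).filter fun v => v / 2 ^ t q.1 = q.2

/-- The block potential: sets of time `j`, weights of time `i`. -/
def Phi (c1 j i : ℕ) : ℕ :=
  ∑ q ∈ (d.dom t lam j).image (d.sup t lam j),
    Th1 c1 (d.blkS t q) (fun v => v / 2 ^ t 0) (d.W i (d.blkS t q))

/-- Largest inactive blocks met. -/
def cS (i : ℕ) : ℕ := nP (d.El (t 0) (t lam) i) (d.sup t lam i)

/-- Heavy ones among them. -/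
def cHS (h i : ℕ) : ℕ := nH h (d.El (t 0) (t lam) i) (d.sup t lam i)

/-- Wide pieces. -/
def cW (θ i : ℕ) : ℕ := nW θ (d.El (t 0) (t lam) i) (d.sup t lam i) (d.pc t lam i)

/-- Largest inactive blocks met in narrow pieces. -/
def cN (θ i : ℕ) : ℕ := nN θ (d.El (t 0) (t lam) i) (d.sup t lam i) (d.pc t lam i)

end Dat

/-- The range of the next tier. -/
def nx (F : ℕ → ℕ) : ℕ → ℕ
  | 0 => 0
  | r + 1 => nx F r + F (2 ^ nx F r)

/-- The ranges of the tiers. -/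
def FF : ℕ → ℕ → ℕ
  | 0 => fun _ => 1
  | k + 1 => nx (FF k)

/-- The additive constants of the tiers. -/
def AA : ℕ → ℕ
  | 0 => 14
  | k + 1 => 56 * (2 * (4 * 192 ^ k * (AA k + 1)) + 8)

/-- The budget constants of the tiers. -/
def EE : ℕ → ℕ
  | 0 => 0
  | k + 1 => 12 + 96 * 192 ^ k * (144 * 192 ^ k) * (4 * 192 ^ k * (AA k + 1)) +
      24 * (144 * 192 ^ k) * EE k

/-- The keys accessed before time `i` with at most `D` distinct keys accessed since. -/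
def Rc (a : ℕ → ℕ) (D i : ℕ) : Finset ℕ :=
  ((range i).filter fun s => ((Ioo s i).image a).card ≤ D).image a

/-- Access `i` is far from all recent keys. -/
def birth (a : ℕ → ℕ) (D m i : ℕ) : Prop := i < m ∧ ∀ y ∈ Rc a D i, D < Nat.dist (a i) y

/-- The cuts between the epochs of scale `σ`. -/
def cut (a : ℕ → ℕ) (u m σ i : ℕ) : Prop := birth a (2 ^ u) m i ∨ 2 ^ (σ - u) ∣ i

open Classical in
/-- The blocks of scale `σ` accessed from time `i` to the end of the epoch. -/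
noncomputable def act (a : ℕ → ℕ) (u m σ i : ℕ) : Finset ℕ :=
  ((Ico i m).filter fun j => ∀ l ∈ Ioc i j, ¬ cut a u m σ l).image fun j => a j / 2 ^ σ

/-- The last mark at or below the key of access `i`. -/
def mlo (a : ℕ → ℕ) (D i : ℕ) : ℕ := ((Rc a D i).filter fun z => z ≤ a i).sup id

/-- The first mark above the key of access `i`. -/
def mhi (a : ℕ → ℕ) (n D i : ℕ) : ℕ :=
  (insert (n + 1) ((Rc a D i).filter fun z => a i < z)).min' (insert_nonempty _ _)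

/-- The data of a splay run. -/
noncomputable def run (n m u : ℕ) (T : BT) (a : ℕ → ℕ) : Dat where
  n := n
  m := m
  s0 := 4 * u
  S := Nat.size n
  c := 3 * (2 ^ u + 2)
  M := 6 * (3 * (2 ^ u + 2) + 1) * (2 ^ u + 2) * (n + m)
  x := a
  Pa := fun i => pth n (a i) (lpar (MainA.Tr T a i)) (rpar n (MainA.Tr T a i))
  Up := fun i => (pth n (a i) (lpar (MainA.Tr T a i)) (rpar n (MainA.Tr T a i))).filter fun y =>
    lpar (MainA.Tr T a i) y < mlo a (2 ^ u) i ∨ mhi a n (2 ^ u) i < rpar n (MainA.Tr T a i) y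
  W := fun i D => wt D (lpar (MainA.Tr T a i)) (rpar n (MainA.Tr T a i))
  Act := act a u m

/-- Every access has unified-bound term at most `u`. -/
def Hyp (n m u : ℕ) (a : ℕ → ℕ) : Prop :=
  (∀ i < m, 1 ≤ a i ∧ a i ≤ n) ∧
    ∀ i < m, ∃ y, 1 ≤ y ∧ y ≤ n ∧ wset a i y + Nat.dist (a i) y ≤ 2 ^ u

end Pool.Agent.P.MP_119182_lc.UM
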