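import Pool.Agent.P.MP_119182_lc.UM.Base

/-! The steps of the tier argument. -/

set_option autoImplicit false

namespace Pool.Agent.P.MP_119182_lc.UM

open Finset

/-! ### Splay facts -/

-- deps:
def S_LOW : Prop :=
  ∀ (n x : ℕ) (T : BT), T.keys = List.range' 1 n → 1 ≤ x → x ≤ n →
    ∀ v, x < v → v ≤ n → lpar T v < x →
      rpar n (access T x).1 v = rpar n T v ∨
        (rpar n T v ≤ n ∧ rpar n (access T x).1 v = rpar n (access T x).1 (rpar n T v))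

-- deps:
def S_WIN : Prop :=
  ∀ (n x : ℕ) (T : BT), T.keys = List.range' 1 n → 1 ≤ x → x ≤ n →
    ∀ d, x < d → d ≤ n → lpar T d < x → rpar n T d ≤ n → rpar n T (rpar n T d) ≤ n →
      lpar T (rpar n T d) = lpar T d → lpar T (rpar n T (rpar n T d)) = lpar T d →
      lpar (access T x).1 (rpar n T d) ≠ x ∨ lpar (access T x).1 (rpar n T (rpar n T d)) ≠ x

-- deps:
def S_ANC : Prop :=
  ∀ (n : ℕ) (T : BT), T.keys = List.range' 1 n →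
    (∀ y z, 1 ≤ y → y ≤ n → y < z → z < rpar n T y → y ≤ lpar T z ∧ rpar n T z ≤ rpar n T y) ∧
    ∀ y, 1 ≤ y → y ≤ n → rpar n T y ≤ n → lpar T (rpar n T y) ≤ lpar T y

-- deps: LOW WIN ANC
def S_STR : Prop :=
  ∀ (n x : ℕ) (T : BT), T.keys = List.range' 1 n → 1 ≤ x → x ≤ n →
    StR n x (lpar T) (rpar n T) (lpar (access T x).1) (rpar n (access T x).1)

/-! ### Weights -/

-- deps:
def S_WRA : Prop :=
  ∀ (n x : ℕ) (lp rp lq rq : ℕ → ℕ) (D : Finset ℕ), StR n x lp rp lq rq → D ⊆ Icc 1 n → Cvx D →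
    (∀ v ∈ D, x < v) →
    ∃ δ : ℕ → ℕ, ∑ v ∈ D, δ v ≤ 3 ∧ ∀ v ∈ D,
      wt D lq rq v + (if v ∈ pay n x D lp lq rq then 1 else 0) ≤ wt D lp rp v + δ v

-- deps:
def S_WRB : Prop :=
  ∀ (n x : ℕ) (lp rp lq rq : ℕ → ℕ) (D : Finset ℕ), StR n x lp rp lq rq → D ⊆ Icc 1 n → Cvx D →
    (∀ v ∈ D, x < v) →
    (rgtPath n x lp ∩ D = ∅ → ∀ v ∈ D, wt D lq rq v = wt D lp rp v) ∧
    ∀ v ∈ D, ∀ p ∈ rgtPath n x lp ∩ D, ∀ p' ∈ rgtPath n x lp ∩ D, p < v → v < p' →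
      wt D lp rp v ≤ if v ∈ rgtPath n x lp ∩ D then 2 else 0

-- deps:
def S_WRC : Prop :=
  ∀ (n x : ℕ) (lp rp lq rq : ℕ → ℕ) (D : Finset ℕ), StR n x lp rp lq rq → D ⊆ Icc 1 n → Cvx D →
    (∀ v ∈ D, x < v) → Win (rgtPath n x lp ∩ D) (pay n x D lp lq rq)

-- deps:
def S_MIRW : Prop :=
  ∀ (N : ℕ) (D : Finset ℕ) (lp rp lp' rp' : ℕ → ℕ), (∀ v ∈ D, v ≤ N ∧ lp v ≤ N ∧ rp v ≤ N) →
    (∀ v ∈ D, lp' (N - v) = N - rp v ∧ rp' (N - v) = N - lp v) →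
    ∀ v ∈ D, wt (D.image fun z => N - z) lp' rp' (N - v) = wt D lp rp v

-- deps:
def S_MIRF : Prop :=
  ∀ (N : ℕ) (D P : Finset ℕ) (w1 w2 w1' w2' : ℕ → ℕ), (∀ v ∈ D, v ≤ N) → P ⊆ D →
    (∀ v ∈ D, w1' (N - v) = w1 v ∧ w2' (N - v) = w2 v) →
    WF (D.image fun z => N - z) (P.image fun z => N - z) w1' w2' → WF D P w1 w2

-- deps: STR WRA WRB WRC MIRW MIRF
def S_WT : Prop :=
  ∀ (n x : ℕ) (T : BT) (D : Finset ℕ), T.keys = List.range' 1 n → 1 ≤ x → x ≤ n →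
    D ⊆ Icc 1 n → Cvx D → x ∉ D →
    WF D (pth n x (lpar T) (rpar n T) ∩ D) (wt D (lpar T) (rpar n T))
      (wt D (lpar (access T x).1) (rpar n (access T x).1))

/-! ### The capped potential -/

-- deps:
def S_CAP1 : Prop :=
  ∀ (α : Type) [DecidableEq α] (c : ℕ) (Q E : Finset ℕ) (f : ℕ → α) (w w' δ : ℕ → ℕ), E ⊆ Q →
    (∀ v ∈ Q, w' v + (if v ∈ E then 1 else 0) ≤ w v + δ v) →
    (∀ v ∈ E, ∑ z ∈ Q.filter (fun z => f z = f v), w z ≤ c) →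
    Th1 c Q f w' + E.card ≤ Th1 c Q f w + ∑ v ∈ Q, δ v

-- deps: CAP1
def S_CAP2 : Prop :=
  ∀ (α β : Type) [DecidableEq α] [DecidableEq β] (c1 c2 : ℕ) (D E : Finset ℕ) (f : ℕ → α)
    (g : ℕ → β) (w w' δ : ℕ → ℕ), E ⊆ D →
    (∀ u ∈ D, ∀ v ∈ D, f u = f v → g u = g v) →
    (∀ v ∈ D, w' v + (if v ∈ E then 1 else 0) ≤ w v + δ v) →
    (∀ v ∈ E, ∑ z ∈ D.filter (fun z => f z = f v), w z ≤ c1 ∧
      Th1 c1 (D.filter fun z => g z = g v) f w ≤ c2) →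
    Th c1 c2 D f g w' + E.card ≤ Th c1 c2 D f g w + ∑ v ∈ D, δ v

-- deps:
def S_INN : Prop :=
  ∀ (α β : Type) [DecidableEq α] [DecidableEq β] (h θ : ℕ) (D P : Finset ℕ) (f : ℕ → α)
    (g : ℕ → β) (w : ℕ → ℕ), P ⊆ D → CvxF D g →
    (∀ u ∈ D, ∀ v ∈ D, f u = f v → g u = g v) →
    (∀ v ∈ D, ∀ p ∈ P, ∀ p' ∈ P, p < v → v < p' → w v ≤ if v ∈ P then 2 else 0) →
    ∀ v ∈ inner h θ P f g, ∑ z ∈ D.filter (fun z => f z = f v), w z ≤ 2 * h ∧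
      Th1 (2 * h) (D.filter fun z => g z = g v) f w ≤ 2 * h * θ

-- deps:
def S_CNT : Prop :=
  ∀ (α β : Type) [DecidableEq α] [DecidableEq β] (h θ : ℕ) (P E : Finset ℕ) (f : ℕ → α)
    (g : ℕ → β), CvxF P f → CvxF P g → (∀ u ∈ P, ∀ v ∈ P, f u = f v → g u = g v) → Win P E →
    nP (inner h θ P f g) f ≤ 2 * (E ∩ inner h θ P f g).card + nH h P f + nW θ P f g + 2

-- deps:
def S_NAR : Prop :=
  ∀ (α β : Type) [DecidableEq α] [DecidableEq β] (h θ : ℕ) (P : Finset ℕ) (f : ℕ → α)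
    (g : ℕ → β), CvxF P g → (∀ u ∈ P, ∀ v ∈ P, f u = f v → g u = g v) →
    nN θ P f g ≤ nP (inner h θ P f g) f + nH h P f + 2 * θ

-- deps: CAP2 INN CNT NAR
def S_L1 : Prop :=
  ∀ (α β : Type) [DecidableEq α] [DecidableEq β] (h θ : ℕ) (D P : Finset ℕ) (f : ℕ → α)
    (g : ℕ → β) (w w' : ℕ → ℕ), WF D P w w' → CvxF D f → CvxF D g →
    (∀ u ∈ D, ∀ v ∈ D, f u = f v → g u = g v) →
    Th (2 * h) (2 * h * θ) D f g w' ≤ Th (2 * h) (2 * h * θ) D f g w + 3 ∧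
    (P = ∅ → Th (2 * h) (2 * h * θ) D f g w' = Th (2 * h) (2 * h * θ) D f g w) ∧
    nN θ P f g + 2 * Th (2 * h) (2 * h * θ) D f g w' ≤
      2 * Th (2 * h) (2 * h * θ) D f g w + 2 * nH h P f + nW θ P f g + 2 * θ + 8

-- deps: L1
def S_L1S : Prop :=
  ∀ (α : Type) [DecidableEq α] (h : ℕ) (D P : Finset ℕ) (f : ℕ → α) (w w' : ℕ → ℕ),
    WF D P w w' → CvxF D f →
    (P = ∅ → Th1 (2 * h) D f w' = Th1 (2 * h) D f w) ∧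
    nP P f + 2 * Th1 (2 * h) D f w' ≤ 2 * Th1 (2 * h) D f w + 2 * nH h P f + 12

-- deps:
def S_SPL : Prop :=
  ∀ (α β κ : Type) [DecidableEq α] [DecidableEq β] [DecidableEq κ] (h θ : ℕ) (P : Finset ℕ)
    (K : Finset κ) (f : ℕ → α) (g : ℕ → β) (l : ℕ → κ), (∀ v ∈ P, l v ∈ K) →
    (∀ u ∈ P, ∀ v ∈ P, f u = f v → g u = g v) → (∀ u ∈ P, ∀ v ∈ P, g u = g v → l u = l v) →
    nP P f = ∑ q ∈ K, nP (P.filter fun v => l v = q) f ∧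
    nH h P f = ∑ q ∈ K, nH h (P.filter fun v => l v = q) f ∧
    nW θ P f g = ∑ q ∈ K, nW θ (P.filter fun v => l v = q) f g ∧
    nN θ P f g = ∑ q ∈ K, nN θ (P.filter fun v => l v = q) f g

-- deps: SPL
def S_HV : Prop :=
  ∀ (α β : Type) [DecidableEq α] [DecidableEq β] (h θ : ℕ) (P : Finset ℕ) (f : ℕ → α)
    (g : ℕ → β), (∀ u ∈ P, ∀ v ∈ P, f u = f v → g u = g v) →
    θ * nH (h * θ) P g ≤ nP P f + θ * nH h P f ∧ θ * nW θ P f g ≤ nP P f ∧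
    nP P g ≤ nP P f ∧ nN θ P f g ≤ nP P f ∧ nP P f ≤ P.card ∧ h * nH h P f ≤ P.card

/-! ### The engine -/

-- deps:
def S_BASE : Prop := ∀ d : Dat, d.OK → d.Tier (fun _ => 1) 1 14 0

-- deps:
def S_LEV : Prop :=
  ∀ (d : Dat) (t : ℕ → ℕ) (lam : ℕ), d.OK → d.Lad t lam → ∀ j v,
    (v / 2 ^ t 0 ∉ d.Act (t 0) j → v / 2 ^ t lam ∈ d.Act (t lam) j →
      d.lev t lam j v < lam ∧ v / 2 ^ t (d.lev t lam j v) ∉ d.Act (t (d.lev t lam j v)) j ∧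
      v / 2 ^ t (d.lev t lam j v + 1) ∈ d.Act (t (d.lev t lam j v + 1)) j) ∧
    ∀ r < lam, v / 2 ^ t r ∉ d.Act (t r) j → v / 2 ^ t (r + 1) ∈ d.Act (t (r + 1)) j →
      d.lev t lam j v = r ∧ v / 2 ^ t 0 ∉ d.Act (t 0) j ∧ v / 2 ^ t lam ∈ d.Act (t lam) j

-- deps: LEV
def S_GCV : Prop :=
  ∀ (d : Dat) (t : ℕ → ℕ) (lam : ℕ), d.OK → d.Lad t lam → ∀ j,
    (∀ q, Cvx (d.gap t lam j q) ∧ CvxF (d.gap t lam j q) (d.sup t lam j) ∧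
      CvxF (d.gap t lam j q) (d.pc t lam j)) ∧
    ∀ u ∈ d.dom t lam j, ∀ v ∈ d.dom t lam j,
      (u / 2 ^ t 0 = v / 2 ^ t 0 → d.sup t lam j u = d.sup t lam j v) ∧
      (d.sup t lam j u = d.sup t lam j v → d.pc t lam j u = d.pc t lam j v) ∧
      (d.pc t lam j u = d.pc t lam j v → d.gl t lam j u = d.gl t lam j v)

-- deps: LEV SPL
def S_DEC : Prop :=
  ∀ (d : Dat) (t : ℕ → ℕ) (lam h : ℕ), d.OK → d.Lad t lam → ∀ i < d.m,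
    ∑ r ∈ range lam, d.cI (t r) (t (r + 1)) i = d.cS t lam i ∧
    ∑ r ∈ range lam, d.cU (t r) (t (r + 1)) i = d.cU (t 0) (t lam) i ∧
    ∑ r ∈ range lam, d.cH h (t r) (t (r + 1)) i = d.cHS t lam h i

-- deps: LEV SPL GCV HV
def S_XB : Prop :=
  ∀ (d : Dat) (t : ℕ → ℕ) (lam θ A : ℕ), d.OK → d.Lad t lam → ∀ i < d.m,
    ∑ r ∈ range lam, min (d.cI (t r) (t (r + 1)) i) A ≤ d.cN t lam θ i + A * d.cW t lam θ i

-- deps: LEV GCV SPL L1S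
def S_PHI1 : Prop :=
  ∀ (d : Dat) (t : ℕ → ℕ) (lam h : ℕ), d.OK → d.Lad t lam → ∀ i < d.m,
    d.cI (t 0) (t lam) i + 2 * d.Phi t lam (2 * h) i (i + 1) ≤
      2 * d.Phi t lam (2 * h) i i + 2 * d.cH h (t 0) (t lam) i + 12 * d.cS t lam i

-- deps: LEV
def S_PHI2 : Prop :=
  ∀ (d : Dat) (t : ℕ → ℕ) (lam c1 : ℕ), d.OK → d.Lad t lam → ∀ k,
    d.Phi t lam c1 0 k ≤ ∑ r ∈ range lam, c1 * d.c * 2 ^ (t (r + 1) - t 0) ∧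
    ∀ i < d.m, d.Phi t lam c1 (i + 1) k ≤ d.Phi t lam c1 i k + ∑ r ∈ range lam,
      ((if i ∈ d.chg (t r) then c1 * d.c * 2 ^ (t r - t 0) else 0) +
        if i ∈ d.chg (t (r + 1)) then c1 * d.c * 2 ^ (t (r + 1) - t 0) else 0)

-- deps:
def S_TEL : Prop :=
  ∀ (m : ℕ) (A B J : ℕ → ℕ) (Φ : ℕ → ℕ → ℕ),
    (∀ i < m, A i + 2 * Φ i (i + 1) ≤ 2 * Φ i i + B i) →
    (∀ i < m, Φ (i + 1) (i + 1) ≤ Φ i (i + 1) + J i) →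
    ∑ i ∈ range m, A i ≤ 2 * Φ 0 0 + 2 * ∑ i ∈ range m, J i + ∑ i ∈ range m, B i

-- deps: PHI1 PHI2 TEL
def S_PHI : Prop :=
  ∀ (d : Dat) (t : ℕ → ℕ) (lam h : ℕ), d.OK → d.Lad t lam →
    2 ^ t 0 * ∑ i ∈ range d.m, d.cI (t 0) (t lam) i ≤
      2 ^ t 0 * ∑ i ∈ range d.m, (2 * d.cH h (t 0) (t lam) i + 12 * d.cS t lam i) +
        8 * h * d.c * lam * d.M

-- deps:
def S_GMET : Prop :=
  ∀ (d : Dat) (t : ℕ → ℕ) (lam : ℕ), d.OK → d.Lad t lam → ∀ i < d.m,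
    nP (d.El (t 0) (t lam) i \ d.Up i) (d.gl t lam i) ≤ 56

-- deps: GCV SPL HV L1 GMET
def S_GAP1 : Prop :=
  ∀ (d : Dat) (t : ℕ → ℕ) (lam h θ : ℕ), d.OK → d.Lad t lam → ∀ i < d.m,
    d.cN t lam θ i + 2 * d.Theta t lam (2 * h) (2 * h * θ) i (i + 1) ≤
      2 * d.Theta t lam (2 * h) (2 * h * θ) i i + 2 * d.cHS t lam h i + d.cW t lam θ i +
        7 * d.cU (t 0) (t lam) i + 7 * min (d.cI (t 0) (t lam) i) (56 * (2 * θ + 8))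

-- deps: LEV GCV SPL
def S_GAP2 : Prop :=
  ∀ (d : Dat) (t : ℕ → ℕ) (lam c1 c2 : ℕ), d.OK → d.Lad t lam → ∀ j k,
    d.Theta t lam c1 c2 j k ≤ c2 * (lam * (d.c * (d.c + 1))) ∧
    (j < d.m → j ∉ d.chg (t 0) → d.Theta t lam c1 c2 (j + 1) k = d.Theta t lam c1 c2 j k)

-- deps: GAP1 GAP2 TEL
def S_GAP : Prop :=
  ∀ (d : Dat) (t : ℕ → ℕ) (lam h θ : ℕ), d.OK → d.Lad t lam →
    2 ^ t 0 * ∑ i ∈ range d.m, d.cN t lam θ i ≤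
      2 ^ t 0 * ∑ i ∈ range d.m, (2 * d.cHS t lam h i + d.cW t lam θ i +
        7 * d.cU (t 0) (t lam) i + 7 * min (d.cI (t 0) (t lam) i) (56 * (2 * θ + 8))) +
        2 * (2 * h * θ * (lam * (d.c * (d.c + 1))) * d.M)

-- deps:
def S_ALG : Prop :=
  ∀ Q D A I J X U H H' N W mn B BT BP : ℕ, 1 ≤ D →
    Q * J ≤ Q * (D * (X + U + H')) + B → X ≤ N + A * W → 4 * D * (A + 1) * W ≤ J →
    Q * N ≤ Q * (2 * H' + W + 7 * U + 7 * mn) + 2 * BT → 144 * D * H' ≤ I + 144 * D * H →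
    Q * I ≤ Q * (2 * H + 12 * J) + 2 * BP →
    Q * I ≤ Q * (192 * D * (mn + U + H)) + (48 * D * BT + 24 * B + 3 * BP)

-- deps: DEC XB
def S_LVL : Prop :=
  ∀ (d : Dat) (F : ℕ → ℕ) (D A E : ℕ) (t : ℕ → ℕ) (lam h θ : ℕ), d.OK → d.Tier F D A E →
    d.Lad t lam → 1 ≤ h → (∀ r < lam, t (r + 1) ≤ t r + F (2 ^ (t r - t 0))) →
    2 ^ t 0 * ∑ i ∈ range d.m, d.cS t lam i ≤
      2 ^ t 0 * (D * ∑ i ∈ range d.m, (d.cN t lam θ i + A * d.cW t lam θ i +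
        d.cU (t 0) (t lam) i + d.cHS t lam h i)) + h * (d.c * (d.c + 1)) * E * lam * d.M

-- deps: LVL PHI GAP GCV HV ALG
def S_STEP : Prop :=
  ∀ (d : Dat) (F : ℕ → ℕ) (D A E : ℕ), d.OK → 1 ≤ D → d.Tier F D A E →
    d.Tier (nx F) (192 * D) (56 * (2 * (4 * D * (A + 1)) + 8))
      (12 + 96 * D * (144 * D) * (4 * D * (A + 1)) + 24 * (144 * D) * E)

-- deps: BASE STEP
def S_IND : Prop := ∀ d : Dat, d.OK → ∀ k, d.Tier (FF k) (192 ^ k) (AA k) (EE k)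

-- deps:
def S_ACK : Prop := ∀ k j : ℕ, ack k j + 3 ≤ FF (k + 1) (j + 4)

-- deps:
def S_GROW : Prop :=
  ∃ C : ℕ, ∀ k : ℕ, 192 ^ (k + 1) * (AA (k + 1) + EE (k + 1) + 1) ≤ C ^ (k + 1) ^ 2

/-! ### The splay run -/

-- deps:
def S_REC : Prop :=
  ∀ (a : ℕ → ℕ) (D i : ℕ), (Rc a D i).card ≤ D + 1 ∧ Rc a D (i + 1) ⊆ insert (a i) (Rc a D i) ∧
    ∀ z ∈ Rc a D i, ∃ s < i, a s = z

-- deps:
def S_BIR : Prop :=
  ∀ (n m u : ℕ) (a : ℕ → ℕ), Hyp n m u a → ∀ X : Finset ℕ, (∀ i ∈ X, birth a (2 ^ u) m i) →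
    X.card ≤ 2 ^ u + 1

-- deps: REC
def S_NEAR : Prop :=
  ∀ (m u σ i : ℕ) (a : ℕ → ℕ), u ≤ σ → ∀ B ∈ act a u m σ i,
    ∃ y, y / 2 ^ σ = B ∧ ∃ z ∈ insert (a i) (Rc a (2 ^ u) i), Nat.dist y z ≤ 2 ^ σ

-- deps: REC NEAR
def S_ACARD : Prop :=
  ∀ (m u σ i : ℕ) (a : ℕ → ℕ), u ≤ σ → (act a u m σ i).card ≤ 3 * (2 ^ u + 2) ∧
    ∀ lo hi : ℕ, (∀ z ∈ Rc a (2 ^ u) i, z ≤ lo ∨ hi ≤ z) →
      ((act a u m σ i).filter fun B => ∃ v ∈ Ioo lo hi, v / 2 ^ σ = B).card ≤ 7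

-- deps: BIR ACARD
def S_CHG : Prop :=
  ∀ (n m u τ : ℕ) (a : ℕ → ℕ), Hyp n m u a → u ≤ τ →
    2 ^ τ * ((range m).filter fun i => act a u m τ (i + 1) ≠ act a u m τ i).card ≤
      (3 * (2 ^ u + 2) + 1) * (2 ^ u + 2) * (2 ^ τ + m)

-- deps: CHG
def S_FEW : Prop :=
  ∀ (n m u : ℕ) (T : BT) (a : ℕ → ℕ), Hyp n m u a → 1 ≤ n → ∀ σ, 4 * u ≤ σ → σ ≤ Nat.size n →
    2 ^ σ * (((run n m u T a).chg σ).card + 1) ≤ (run n m u T a).M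

-- deps: WT ACARD FEW
def S_ROK : Prop :=
  ∀ (n m u : ℕ) (T : BT) (a : ℕ → ℕ), T.keys = List.range' 1 n → Hyp n m u a → 1 ≤ n →
    (run n m u T a).OK

-- deps: REC
def S_UP : Prop :=
  ∀ (n m u : ℕ) (T : BT) (a : ℕ → ℕ), T.keys = List.range' 1 n → Hyp n m u a →
    ∑ i ∈ range m, ((run n m u T a).Up i).card ≤ 9 * (u + 2) * (n + m)

-- deps:
def S_BLK : Prop :=
  ∀ (n m β : ℕ) (T : BT) (a : ℕ → ℕ), T.keys = List.range' 1 n → (∀ i < m, 1 ≤ a i ∧ a i ≤ n) →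
    cost T ((List.range m).map a) ≤ n * (4 * β + 10) + m * (16 * β + 45) +
      12 * ∑ i ∈ range m, nP (pth n (a i) (lpar (MainA.Tr T a i)) (rpar n (MainA.Tr T a i)))
        fun v => v / 2 ^ β

-- deps:
def S_MET : Prop :=
  ∀ d : Dat, d.OK → d.s0 ≤ d.S → d.n < 2 ^ d.S → ∀ i < d.m, d.x i ≤ d.n →
    nP (d.Pa i) (fun v => v / 2 ^ d.s0) ≤ d.cI d.s0 d.S i + 7 + (d.Up i).card

-- deps: IND ACK MET HV
def S_SUM : Prop :=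
  ∀ (d : Dat) (k j : ℕ), d.OK → d.s0 ≤ d.S → d.n < 2 ^ d.S → d.S ≤ ack k j →
    (∀ i < d.m, d.x i ≤ d.n) → ∀ K : ℕ, d.c * (d.c + 1) * d.M ≤ 2 ^ d.s0 * K →
    24 * ∑ i ∈ range d.m, nP (d.Pa i) (fun v => v / 2 ^ d.s0) ≤
      ∑ i ∈ range d.m, (d.Pa i).card +
        48 * 192 ^ (k + 1) * (∑ i ∈ range d.m, (d.Up i).card + (AA (k + 1) + 7) * d.m) +
        576 * 192 ^ (k + 1) * EE (k + 1) * (j + 4) * K

-- deps: ROK UP BLK SUM GROW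
def S_MAIN : Prop :=
  ∃ C : ℕ, ∀ (k j n u m : ℕ) (T : BT) (a : ℕ → ℕ), n ≤ ack k j → T.keys = List.range' 1 n →
    Hyp n m u a →
    cost T ((List.range m).map a) ≤ C ^ (k + 1) ^ 2 * (u + j + 1) * (n + m)

end Pool.Agent.P.MP_119182_lc.UM
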