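import Pool.Agent.P.MP_119182_lc.UM.Iface

/-! Step ALG. -/

set_option autoImplicit false
set_option linter.unusedSectionVars false

namespace Pool.Agent.P.MP_119182_lc.UM

open Finset

theorem p_ALG :
    S_ALG := by
  intro Q D A I J X U H H' N W mn B BT BP hD h1 h2 h3 h4 h5 h6
  have a2 := Nat.mul_le_mul_left (Q * D) h2
  have a3 := Nat.mul_le_mul_left Q h3
  have a4 := Nat.mul_le_mul_left D h4
  have a5 := Nat.mul_le_mul_left Q h5
  have a6 := Nat.mul_le_mul_left (Q * H) hD
  have a7 := Nat.zero_le (Q * D * mn)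
  have a8 := Nat.zero_le (Q * D * H)
  linarith

end Pool.Agent.P.MP_119182_lc.UM
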