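import Pool.Agent.P.MP_119182_lc.UM.Iface

/-! Step CAP1. -/

set_option autoImplicit false
set_option linter.unusedSectionVars false

namespace Pool.Agent.P.MP_119182_lc.UM

open Finset

theorem p_CAP1 :
    S_CAP1 := by
  intro α _ c Q E f w w' δ hE h1 h2
  have hm : ∀ v ∈ Q, f v ∈ Q.image f := fun v hv => mem_image_of_mem f hv
  have e1 : E.card = ∑ p ∈ Q.image f, ∑ v ∈ Q.filter (fun v => f v = p),
      (if v ∈ E then 1 else 0) := by
    rw [sum_fiberwise_of_maps_to hm, ← card_filter, filter_mem_eq_inter, inter_eq_right.2 hE]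
  have e2 : ∑ v ∈ Q, δ v = ∑ p ∈ Q.image f, ∑ v ∈ Q.filter (fun v => f v = p), δ v :=
    (sum_fiberwise_of_maps_to hm δ).symm
  rw [e1, e2, Th1, Th1, ← sum_add_distrib, ← sum_add_distrib]
  refine sum_le_sum fun p _ => ?_
  have h3 : ∑ v ∈ Q.filter (fun v => f v = p), w' v +
      ∑ v ∈ Q.filter (fun v => f v = p), (if v ∈ E then 1 else 0) ≤
      ∑ v ∈ Q.filter (fun v => f v = p), w v + ∑ v ∈ Q.filter (fun v => f v = p), δ v := by
    rw [← sum_add_distrib, ← sum_add_distrib]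
    exact sum_le_sum fun v hv => h1 v (mem_filter.1 hv).1
  by_cases h : ∃ v ∈ E, f v = p
  · obtain ⟨v, hv, rfl⟩ := h
    have := h2 v hv
    omega
  · have h4 : ∑ v ∈ Q.filter (fun v => f v = p), (if v ∈ E then 1 else 0) = 0 :=
      sum_eq_zero fun v hv => if_neg fun hv' => h ⟨v, hv', (mem_filter.1 hv).2⟩
    omega

end Pool.Agent.P.MP_119182_lc.UM
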