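import Pool.Agent.P.MP_119182_lc.UM.Iface

/-! Step FEW. -/

set_option autoImplicit false
set_option linter.unusedSectionVars false

namespace Pool.Agent.P.MP_119182_lc.UM

open Finset

namespace FEWx

theorem geo (k : ℕ → ℕ) (M : ℕ) : ∀ (e σ : ℕ), (∀ j < e, 2 ^ (σ + j) * k (σ + j) ≤ M) →
    2 ^ σ * ∑ j ∈ range e, k (σ + j) ≤ 2 * M := by
  intro e
  induction e with
  | zero => intro σ _; simp
  | succ e ih =>
    intro σ h
    have h0 := h 0 (Nat.succ_pos e)
    have h1 := ih (σ + 1) (fun j hj => by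
      have := h (j + 1) (Nat.succ_lt_succ hj)
      rwa [show σ + (j + 1) = σ + 1 + j by omega] at this)
    rw [Finset.sum_range_succ']
    have e1 : ∑ j ∈ range e, k (σ + (j + 1)) = ∑ j ∈ range e, k (σ + 1 + j) :=
      Finset.sum_congr rfl fun j _ => by rw [show σ + (j + 1) = σ + 1 + j by omega]
    rw [e1, mul_add]
    rw [pow_succ, mul_comm (2 ^ σ) 2, mul_assoc] at h1
    simp only [add_zero] at h0 ⊢
    omega

theorem pow_size {n : ℕ} (hn : 1 ≤ n) : 2 ^ Nat.size n ≤ 2 * n := by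
  have h : 0 < Nat.size n := Nat.size_pos.mpr hn
  obtain ⟨s, hs⟩ : ∃ s, Nat.size n = s + 1 := ⟨Nat.size n - 1, by omega⟩
  have h2 : 2 ^ s ≤ n := Nat.lt_size.mp (by omega)
  rw [hs, pow_succ]
  omega

end FEWx

theorem p_FEW (hCHG : S_CHG) :
    S_FEW := by
  classical
  intro n m u T a hH hn σ h4 hS
  set K := (3 * (2 ^ u + 2) + 1) * (2 ^ u + 2) with hK
  set k : ℕ → ℕ := fun τ =>
    ((range m).filter fun i => act a u m τ (i + 1) ≠ act a u m τ i).card with hk
  have hp := FEWx.pow_size hn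
  have hle : ∀ τ, τ ≤ Nat.size n → 2 ^ τ ≤ 2 * n := fun τ hτ =>
    (Nat.pow_le_pow_right (by norm_num) hτ).trans hp
  have hsub : (run n m u T a).chg σ ⊆ (range (Nat.size n + 1 - σ)).biUnion fun j =>
      (range m).filter fun i => act a u m (σ + j) (i + 1) ≠ act a u m (σ + j) i := by
    intro i hi
    simp only [Dat.chg, run, mem_filter, mem_Icc] at hi
    obtain ⟨hi, τ, ⟨h1, h2⟩, h3⟩ := hi
    refine mem_biUnion.mpr ⟨τ - σ, mem_range.mpr (by omega), ?_⟩
    rw [show σ + (τ - σ) = τ by omega]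
    exact mem_filter.mpr ⟨hi, h3⟩
  have hc : ((run n m u T a).chg σ).card ≤ ∑ j ∈ range (Nat.size n + 1 - σ), k (σ + j) :=
    (card_le_card hsub).trans card_biUnion_le
  have hg := FEWx.geo k (K * (2 * n + m)) (Nat.size n + 1 - σ) σ (fun j hj => by
    have h1 := hCHG n m u (σ + j) a hH (by omega)
    refine h1.trans (Nat.mul_le_mul_left _ ?_)
    have := hle (σ + j) (by omega)
    omega)
  have hK1 : 1 ≤ K := Nat.mul_pos (by omega) (by positivity)
  have hσ := hle σ hS
  have hM : (run n m u T a).M = 6 * K * (n + m) := by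
    simp only [run, hK]; ring
  rw [hM, mul_add, mul_one]
  have h5 := (Nat.mul_le_mul_left (2 ^ σ) hc).trans hg
  have h6 : n ≤ K * n := Nat.le_mul_of_pos_left n hK1
  have e1 : 2 * (K * (2 * n + m)) = 4 * (K * n) + 2 * (K * m) := by ring
  have e2 : 6 * K * (n + m) = 6 * (K * n) + 6 * (K * m) := by ring
  omega

end Pool.Agent.P.MP_119182_lc.UM
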