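import Pool.Agent.P.MP_119182_lc.UM.Iface

/-! Step GCV. -/

set_option autoImplicit false
set_option linter.unusedSectionVars false

namespace Pool.Agent.P.MP_119182_lc.UM

open Finset

namespace GCVx

theorem cnt_mono (A : Finset ℕ) {x y : ℕ} (h : x ≤ y) :
    (A.filter fun b => b < x).card ≤ (A.filter fun b => b < y).card :=
  card_le_card (monotone_filter_right _ fun _ _ hb => lt_of_lt_of_le hb h)

theorem cnt_mid (A : Finset ℕ) {x y z : ℕ} (h1 : x ≤ y) (h2 : y ≤ z)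
    (e : (A.filter fun b => b < x).card = (A.filter fun b => b < z).card) :
    (A.filter fun b => b < y).card = (A.filter fun b => b < x).card :=
  le_antisymm (e ▸ cnt_mono A h2) (cnt_mono A h1)

theorem not_mem_mid (A : Finset ℕ) {x y z : ℕ} (h1 : x ≤ y) (h2 : y ≤ z) (hz : z ∉ A)
    (e : (A.filter fun b => b < x).card = (A.filter fun b => b < z).card) : y ∉ A := fun hy => by
  have h3 : y < z := lt_of_le_of_ne h2 fun e' => hz (e' ▸ hy)
  have h4 := eq_of_subset_of_card_le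
    (monotone_filter_right A fun _ _ hb => lt_of_lt_of_le hb (h1.trans h2)) e.ge
  have h5 : y ∈ A.filter fun b => b < x := h4 ▸ mem_filter.2 ⟨hy, h3⟩
  exact absurd (mem_filter.1 h5).2 (not_lt.2 h1)

theorem coarse_le {s s' u v : ℕ} (h : s ≤ s') (e : u / 2 ^ s ≤ v / 2 ^ s) :
    u / 2 ^ s' ≤ v / 2 ^ s' := by
  obtain ⟨k, rfl⟩ := Nat.exists_eq_add_of_le h
  rw [pow_add, ← Nat.div_div_eq_div_mul, ← Nat.div_div_eq_div_mul]
  exact Nat.div_le_div_right e

theorem coarse {s s' u v : ℕ} (h : s ≤ s') (e : u / 2 ^ s = v / 2 ^ s) :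
    u / 2 ^ s' = v / 2 ^ s' :=
  le_antisymm (coarse_le h e.le) (coarse_le h e.ge)

theorem sq {N a b c : ℕ} (h1 : a ≤ b) (h2 : b ≤ c) (e : a / N = c / N) : b / N = a / N :=
  le_antisymm (e ▸ Nat.div_le_div_right h2) (Nat.div_le_div_right h1)

end GCVx

open GCVx in
theorem p_GCV (hLEV : S_LEV) :
    S_GCV := by
  intro d t lam ok lad j
  have L := hLEV d t lam ok lad j
  have L1 := fun v (hv : v ∈ d.dom t lam j) =>
    (L v).1 (mem_filter.1 hv).2.1 (mem_filter.1 hv).2.2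
  have st : ∀ r, t r ≤ t (r + 1) := fun r => lad.mono (Nat.le_succ r)
  have gl : ∀ u ∈ d.dom t lam j, ∀ v ∈ d.dom t lam j, u ≤ v →
      d.pc t lam j u = d.pc t lam j v → d.gl t lam j u = d.gl t lam j v := by
    intro u hu v hv huv e
    simp only [Dat.pc, Prod.mk.injEq] at e
    obtain ⟨e1, e2, e3⟩ := e
    have a1 := (L1 v hv).2.1
    rw [← e1] at e2 e3 a1
    refine Prod.ext (coarse (lad.top _) e2) (congrArg card (filter_congr fun B hB =>
      ⟨fun h => lt_of_lt_of_le h (Nat.div_le_div_right huv), fun h => ?_⟩))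
    by_contra hn
    have b0 : t 0 ≤ t (d.lev t lam j u) := lad.mono (Nat.zero_le _)
    have b1 : B * 2 ^ t 0 / 2 ^ t 0 = B := Nat.mul_div_cancel _ (by positivity)
    refine not_mem_mid _ (y := B * 2 ^ t 0 / 2 ^ t (d.lev t lam j u))
      (coarse_le b0 (by rw [b1]; exact not_lt.1 hn)) (coarse_le b0 (by rw [b1]; exact h.le)) a1 e3
      (ok.nest _ _ _ _ lad.bot b0 ((lad.top _).trans lad.cap) (by rw [b1]; exact hB))
  refine ⟨fun q => ⟨fun a ha c hc b h1 h2 => ?_, fun a ha b hb c hc h1 h2 e => ?_,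
    fun a ha b hb c hc h1 h2 e => ?_⟩, fun u hu v hv => ⟨fun e => ?_, fun e => ?_, fun e => ?_⟩⟩
  · obtain ⟨a1, a2⟩ := mem_filter.1 ha
    obtain ⟨c1, c2⟩ := mem_filter.1 hc
    obtain ⟨a3, a4, a5⟩ := mem_filter.1 a1
    obtain ⟨c3, c4, c5⟩ := mem_filter.1 c1
    have e := a2.trans c2.symm
    simp only [Dat.gl, Prod.mk.injEq] at e
    have b1 := sq h1 h2 e.1
    refine mem_filter.2 ⟨mem_filter.2 ⟨mem_Icc.2 ⟨(mem_Icc.1 a3).1.trans h1,
      h2.trans (mem_Icc.1 c3).2⟩, not_mem_mid _ (Nat.div_le_div_right h1)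
        (Nat.div_le_div_right h2) c4 e.2, b1 ▸ a5⟩, Eq.trans (b := d.gl t lam j a) (Prod.ext b1 ?_) a2⟩
    exact cnt_mid _ (Nat.div_le_div_right h1) (Nat.div_le_div_right h2) e.2
  · obtain ⟨a1, a2, a3⟩ := L1 a (mem_filter.1 ha).1
    simp only [Dat.sup, Prod.mk.injEq] at e ⊢
    obtain ⟨e1, e2⟩ := e
    rw [← e1] at e2
    have b1 := sq h1 h2 e2
    have b2 := ((L b).2 _ a1 (b1 ▸ a2) (coarse (st _) b1 ▸ a3)).1
    rw [b2]
    exact ⟨rfl, b1⟩
  · obtain ⟨a1, a2, a3⟩ := L1 a (mem_filter.1 ha).1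
    have c2 := (L1 c (mem_filter.1 hc).1).2.1
    simp only [Dat.pc, Prod.mk.injEq] at e ⊢
    obtain ⟨e1, e2, e3⟩ := e
    rw [← e1] at e2 e3 c2
    have b1 := sq h1 h2 e2
    have b2 := ((L b).2 _ a1 (not_mem_mid _ (Nat.div_le_div_right h1) (Nat.div_le_div_right h2)
      c2 e3) (b1 ▸ a3)).1
    rw [b2]
    exact ⟨rfl, b1, cnt_mid _ (Nat.div_le_div_right h1) (Nat.div_le_div_right h2) e3⟩
  · have a1 : ∀ r, u / 2 ^ t r = v / 2 ^ t r := fun r => coarse (lad.mono (Nat.zero_le r)) e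
    simp only [Dat.sup, Dat.lev, a1]
  · simp only [Dat.sup, Dat.pc, Prod.mk.injEq] at e ⊢
    obtain ⟨e1, e2⟩ := e
    rw [← e1] at e2 ⊢
    exact ⟨rfl, coarse (st _) e2, by rw [e2]⟩
  · rcases le_total u v with h | h
    · exact gl u hu v hv h e
    · exact (gl v hv u hu h e.symm).symm

end Pool.Agent.P.MP_119182_lc.UM
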