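import Pool.Agent.P.MP_119182_lc.UM.Iface

/-! Step LOW. -/

set_option autoImplicit false
set_option linter.unusedSectionVars false

namespace Pool.Agent.P.MP_119182_lc.UM

open Finset

namespace LOWx

/-- The new right parent is the old one, or the new right parent of the old one. -/
def Low (x d : ℕ) (T0 T1 : BT) (ks : List ℕ) : Prop :=
  ∀ u ∈ ks, x < u → hi T1 u d = hi T0 u d ∨ (hi T0 u d ∈ ks ∧ hi T1 u d = hi T1 (hi T0 u d) d)

theorem step {x c d e e' : ℕ} (π : List Fr) (t0 t1 T1 : BT) (S : List ℕ)
    (h0 : Ord (plug t0 π) c d)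
    (loc : Facts x (cL c π) (cH d π) t0 t1 S e')
    (hS : ∀ s ∈ S, cL c π < s ∧ s < cH d π ∧ s ≠ x)
    (ih : Facts x c d (plug t1 π) T1 (π.map key) e)
    (locL : Low x (cH d π) t0 t1 S) (ihL : Low x d (plug t1 π) T1 (π.map key)) :
    Low x d (plug t0 π) T1 (S ++ π.map key) := by
  have h1 : Ord (plug t1 π) c d := ord_repl π t0 t1 h0 loc.ord
  have rg := hole_rng π _ h0
  have out : ∀ y ∈ π.map key, hi (plug t1 π) y d = hi (plug t0 π) y d := by
    intro y hy
    have := key_out π _ h0 hy
    exact (plug_out this.2.1 this.2.2 π _ _ h1 h0 this.1).2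
  have inS : ∀ s ∈ S, hi T1 s d = hi t1 s (cH d π) ∧ hi (plug t0 π) s d = hi t0 s (cH d π) := by
    intro s hs
    have a := hS s hs
    have nm : s ∉ π.map key := fun hm => by
      have := key_out π _ h0 hm
      omega
    have b := ih.off s (by omega) (by omega) a.2.2 nm
    have b1 := plug_in (y := s) π _ h1 a.1 a.2.1
    have b0 := plug_in (y := s) π _ h0 a.1 a.2.1
    exact ⟨b.2.trans b1.2, b0.2⟩
  intro u hu a1
  rw [List.mem_append] at hu
  rcases hu with hu | hu
  · rw [(inS u hu).1, (inS u hu).2]
    rcases locL u hu a1 with f | f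
    · exact Or.inl f
    · exact Or.inr ⟨List.mem_append_left _ f.1, f.2.trans (inS _ f.1).1.symm⟩
  · rw [← out u hu]
    rcases ihL u hu a1 with f | f
    · exact Or.inl f
    · exact Or.inr ⟨List.mem_append_right _ f.1, f.2⟩

theorem low_splay {x c d : ℕ} (l r : BT) (π : List Fr)
    (h : Ord (plug (BT.node l x r) π) c d) :
    Low x d (plug (BT.node l x r) π) (splayUp x l r π) (π.map key) := by
  fun_induction splayUp x l r π with
  | case1 l r => exact fun _ hu => by simp at hu
  | case2 l r a p =>
    intro u hu a1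
    have o1 := Ord.lt h.2.1
    have e1 : u = p := List.mem_singleton.1 hu
    omega
  | case3 l r p b =>
    intro u hu a1
    have e1 : u = p := List.mem_singleton.1 hu
    subst e1
    have n1 : ¬ u < x := by omega
    exact Or.inl (by simp [plug, ap, hi, a1, n1])
  | case4 l r p b g e π ih =>
    have o := ord_hole π _ h
    have loc := loc_RR l r b e o
    have h' := ord_repl π _ _ h loc.ord
    obtain ⟨_, _, f⟩ := facts_splay _ _ π h'
    refine step π _ _ _ [p, g] h loc (two_in _ _ π l r h).2 f (fun u hu a1 => ?_) (ih h')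
    have o1 := Ord.lt o.1.1.2
    have o2 := Ord.lt o.1.2
    have o3 : x < g := by omega
    have n1 : ¬ p < x := by omega
    have n2 : ¬ g < p := by omega
    have n3 : ¬ g < x := by omega
    simp only [List.mem_cons, List.not_mem_nil, or_false] at hu
    rcases hu with hu | hu <;> subst hu
    · exact Or.inr (by simp [ap, hi, o1, o2, o3, n1, n2, n3])
    · exact Or.inl (by simp [ap, hi, o2, o3, n2, n3])
  | case5 l r b p a g π ih =>
    have o := ord_hole π _ h
    have loc := loc_LL l r b a o
    have h' := ord_repl π _ _ h loc.ord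
    obtain ⟨_, _, f⟩ := facts_splay _ _ π h'
    refine step π _ _ _ [p, g] h loc (two_in _ _ π l r h).2 f (fun u hu a1 => ?_) (ih h')
    have o1 := Ord.lt o.2.2.1
    have o2 := Ord.lt o.2.1
    simp only [List.mem_cons, List.not_mem_nil, or_false] at hu
    omega
  | case6 l r p b a g π ih =>
    have o := ord_hole π _ h
    have loc := loc_RL l r b a o
    have h' := ord_repl π _ _ h loc.ord
    obtain ⟨_, _, f⟩ := facts_splay _ _ π h'
    refine step π _ _ _ [p, g] h loc (two_in _ _ π l r h).2 f (fun u hu a1 => ?_) (ih h')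
    have o1 := Ord.lt o.2.1.1
    simp only [List.mem_cons, List.not_mem_nil, or_false] at hu
    have e1 : u = p := by omega
    subst e1
    have n1 : ¬ u < g := by omega
    have n2 : ¬ u < x := by omega
    have n3 : g < u := by omega
    exact Or.inl (by simp [ap, hi, a1, n1, n2, n3])
  | case7 l r a p g e π ih =>
    have o := ord_hole π _ h
    have loc := loc_LR l r a e o
    have h' := ord_repl π _ _ h loc.ord
    obtain ⟨_, _, f⟩ := facts_splay _ _ π h'
    refine step π _ _ _ [p, g] h loc (two_in _ _ π l r h).2 f (fun u hu a1 => ?_) (ih h')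
    have o1 := Ord.lt o.1.2.1
    simp only [List.mem_cons, List.not_mem_nil, or_false] at hu
    have e1 : u = g := by omega
    subst e1
    have n2 : ¬ u < x := by omega
    exact Or.inl (by simp [ap, hi, a1, n2])

end LOWx

theorem p_LOW :
    S_LOW := by
  intro n x T hT h1 h2 v a1 a2 a3
  have o := ord_of_keys hT
  obtain ⟨l, r, π, e1, e2, hk⟩ := access_zip hT h1 h2
  have o' : Ord (plug (BT.node l x r) π) 0 (n + 1) := e1 ▸ o
  have f := LOWx.low_splay l r π o'
  rw [← e1] at f
  have bh : v < rpar n T v := lt_hi T v _ (by omega)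
  rw [e2]
  rcases f v ((hk v).2 ⟨mem_Icc.2 (by omega), by omega, a3, by omega⟩) a1 with g | g
  · exact Or.inl g
  · exact Or.inr ⟨(mem_Icc.1 ((hk _).1 g.1).1).2, g.2⟩

end Pool.Agent.P.MP_119182_lc.UM
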